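import Pool.Agent.H38R2.CG.N2
import Pool.Agent.H38R2.CG.KR
import Pool.Agent.H38R2.CG.N3a
import Pool.Agent.H38R2.CG.N3b
import Pool.Agent.H38R2.CG.LM2
import Pool.Agent.Helper923.PPS.BT

/-! Averages of the divisor sums of `chi t` with divisor weights. -/

set_option autoImplicit false

namespace Run7.h940.CN

open Finset Pool.Agent.H38R2.CG

/-- the divisor sum of the Kronecker symbol -/
noncomputable def rr (t n : ℕ) : ℝ := ∑ m ∈ n.divisors, (chi t m : ℝ)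

theorem pow_sum_nonneg {x : ℤ} (hx : x = 1 ∨ x = 0 ∨ x = -1) (e : ℕ) :
    0 ≤ ∑ i ∈ Finset.range (e + 1), x ^ i := by
  rcases hx with rfl | rfl | rfl
  · positivity
  · apply Finset.sum_nonneg
    intro i _
    positivity
  · rw [neg_one_geom_sum]
    split_ifs <;> norm_num

theorem rr_nonneg (t n : ℕ) : 0 ≤ rr t n := by
  unfold rr
  rcases Nat.eq_zero_or_pos n with rfl | hn
  · simp
  have h0 : 0 ≤ ∑ m ∈ n.divisors, chi t m := by
    rw [← N2h.sum_eq]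
    have hm := ((N2h.cf_mult t).mul ArithmeticFunction.isMultiplicative_zeta.natCast)
    have := hm.multiplicative_factorization (N2h.cf t * (ArithmeticFunction.zeta : ArithmeticFunction ℤ)) hn.ne'
    rw [this, Finsupp.prod]
    apply Finset.prod_nonneg
    intro p hp
    have hp' : p.Prime := Nat.prime_of_mem_primeFactors (by simpa using hp)
    rw [N2h.sum_eq, N2h.sum_pow t hp']
    exact pow_sum_nonneg (N2h.chi_prime t hp') _
  have h1 : ((∑ m ∈ n.divisors, chi t m : ℤ) : ℝ) = ∑ m ∈ n.divisors, (chi t m : ℝ) := by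
    push_cast; rfl
  rw [← h1]
  exact_mod_cast h0

theorem abs_chi2_le (D : ℤ) : |((chi2 D : ℤ) : ℝ)| ≤ 1 := by
  unfold chi2
  split_ifs <;> simp

theorem chi2_mod (t : ℕ) : chi2 (t : ℤ) = chi2 ((t % 8 : ℕ) : ℤ) := by
  unfold chi2
  have : ((t % 8 : ℕ) : ℤ) % 8 = (t : ℤ) % 8 := by
    push_cast
    exact Int.emod_emod_of_dvd _ (dvd_refl 8)
  rw [this]

/-- the odd part -/
def od (m : ℕ) : ℕ := m / 2 ^ padicValNat 2 m

theorem chi_eq (t m : ℕ) : chi t m = chi2 ((t % 8 : ℕ) : ℤ) ^ padicValNat 2 m * jacobiSym t (od m) := by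
  unfold chi od
  rw [chi2_mod]

theorem od_odd {m : ℕ} (hm : m ≠ 0) : Odd (od m) := (KRh.two_pow_split hm).2

theorem od_le {m : ℕ} : od m ≤ m := Nat.div_le_self _ _

theorem abs_chi_le (t m : ℕ) : |(chi t m : ℝ)| ≤ 1 := by
  rw [chi_eq]
  push_cast
  rw [abs_mul, abs_pow]
  have h1 := abs_chi2_le ((t % 8 : ℕ) : ℤ)
  have h2 := LM2h.abs_jac t (od m)
  have h3 : |((chi2 ((t % 8 : ℕ) : ℤ) : ℤ) : ℝ)| ^ padicValNat 2 m ≤ 1 :=
    pow_le_one₀ (abs_nonneg _) h1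
  exact mul_le_one₀ (by push_cast at h3 ⊢; exact h3) (abs_nonneg _) h2

/-- reciprocals of the integers with square odd part -/
theorem sum_sq_part (N : ℕ) :
    ∑ m ∈ (Icc 1 N).filter (fun m => IsSquare (od m)), ((m : ℝ))⁻¹ ≤ 4 := by
  classical
  have hsub : (Icc 1 N).filter (fun m => IsSquare (od m)) ⊆
      ((range (N + 1)) ×ˢ (Icc 1 N)).image (fun x : ℕ × ℕ => 2 ^ x.1 * x.2 ^ 2) := by
    intro m hm
    rw [mem_filter, mem_Icc] at hm
    obtain ⟨⟨h1, h2⟩, j, hj⟩ := hm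
    rw [mem_image]
    have h3 := (KRh.two_pow_split (n := m) (by omega)).1
    have h3' : m = 2 ^ padicValNat 2 m * od m := h3
    have hj0 : j ≠ 0 := by
      rintro rfl
      rw [hj] at h3'
      omega
    refine ⟨(padicValNat 2 m, j), ?_, ?_⟩
    · rw [mem_product, mem_range, mem_Icc]
      refine ⟨?_, Nat.one_le_iff_ne_zero.2 hj0, ?_⟩
      · have h4 : 2 ^ padicValNat 2 m ≤ m := Nat.le_of_dvd (by omega) pow_padicValNat_dvd
        have h5 : padicValNat 2 m < 2 ^ padicValNat 2 m := Nat.lt_two_pow_self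
        simp only
        omega
      · have h4 : j ≤ od m := by rw [hj]; exact Nat.le_mul_self j
        exact h4.trans (od_le.trans h2)
    · simp only
      conv_rhs => rw [h3', hj]
      ring
  have h1 : ∑ m ∈ (Icc 1 N).filter (fun m => IsSquare (od m)), ((m : ℝ))⁻¹ ≤
      ∑ m ∈ ((range (N + 1)) ×ˢ (Icc 1 N)).image (fun x : ℕ × ℕ => (2 ^ x.1 * x.2 ^ 2 : ℕ)),
        (((m : ℕ) : ℝ))⁻¹ :=
    Finset.sum_le_sum_of_subset_of_nonneg hsub (fun _ _ _ => by positivity)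
  have h2 : ∑ m ∈ ((range (N + 1)) ×ˢ (Icc 1 N)).image (fun x : ℕ × ℕ => (2 ^ x.1 * x.2 ^ 2 : ℕ)),
        (((m : ℕ) : ℝ))⁻¹ ≤ ∑ x ∈ (range (N + 1)) ×ˢ (Icc 1 N), (((2 ^ x.1 * x.2 ^ 2 : ℕ) : ℝ))⁻¹ :=
    Finset.sum_image_le_of_nonneg (fun _ _ => by positivity)
  refine h1.trans (h2.trans ?_)
  rw [Finset.sum_product]
  have h3 : ∀ a ∈ range (N + 1), ∑ j ∈ Icc 1 N, (((2 ^ a * j ^ 2 : ℕ) : ℝ))⁻¹ ≤ (1 / 2 : ℝ) ^ a * 2 := by
    intro a _
    have h4 : ∑ j ∈ Icc 1 N, (((2 ^ a * j ^ 2 : ℕ) : ℝ))⁻¹ =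
        (1 / 2 : ℝ) ^ a * ∑ j ∈ Icc 1 N, ((j : ℝ) ^ 2)⁻¹ := by
      rw [mul_sum]
      apply Finset.sum_congr rfl
      intro j _
      push_cast
      rw [mul_inv]
      congr 1
      rw [one_div, inv_pow]
    rw [h4]
    exact mul_le_mul_of_nonneg_left (Pool.Agent.Helper923.PPS.sum_inv_sq_le N) (by positivity)
  refine (Finset.sum_le_sum h3).trans ?_
  rw [← Finset.sum_mul]
  have h5 : ∑ a ∈ range (N + 1), (1 / 2 : ℝ) ^ a ≤ 2 := by
    rw [geom_sum_eq (by norm_num)]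
    have : (0 : ℝ) < (1 / 2) ^ (N + 1) := by positivity
    rw [div_le_iff_of_neg (by norm_num)]
    linarith
  linarith

end Run7.h940.CN
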