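import Pool.Agent.Run7.h940.CN.A1

/-! Averages of the divisor sums of `chi t` with divisor weights, main inequality. -/

set_option autoImplicit false

namespace Run7.h940.CN

open Finset Pool.Agent.H38R2.CG

/-- the weight -/
noncomputable def wt (P : Finset ℕ) (ρ : ℕ → ℝ) (t : ℕ) : ℝ :=
  (∑ d ∈ P.filter (fun d => d ∣ t), ρ d) ^ 2

theorem wt_nonneg (P : Finset ℕ) (ρ : ℕ → ℝ) (t : ℕ) : 0 ≤ wt P ρ t := sq_nonneg _

/-- residue class modulo 8 -/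
def SS (c M : ℕ) : Finset ℕ := (Ioc 0 (8 * M)).filter (fun t => t % 8 = c)

theorem wt_sum (P : Finset ℕ) (ρ : ℕ → ℝ) (S : Finset ℕ) (g : ℕ → ℝ) :
    ∑ t ∈ S, wt P ρ t * g t =
      ∑ d ∈ P, ∑ e ∈ P, ρ d * ρ e * ∑ t ∈ S.filter (fun t => d ∣ t ∧ e ∣ t), g t := by
  have h1 : ∀ t ∈ S, wt P ρ t * g t =
      ∑ d ∈ P, ∑ e ∈ P, if d ∣ t ∧ e ∣ t then ρ d * ρ e * g t else 0 := by
    intro t _
    unfold wt
    rw [sq, Finset.sum_mul_sum, Finset.sum_filter, Finset.sum_mul]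
    apply Finset.sum_congr rfl
    intro d _
    split_ifs with hd
    · rw [Finset.sum_filter, Finset.sum_mul]
      apply Finset.sum_congr rfl
      intro e _
      by_cases he : e ∣ t
      · rw [if_pos he, if_pos ⟨hd, he⟩]
      · rw [if_neg he, if_neg (fun h => he h.2)]
        simp
    · rw [zero_mul]
      symm
      apply Finset.sum_eq_zero
      intro e _
      rw [if_neg (fun h => hd h.1)]
  rw [Finset.sum_congr rfl h1, Finset.sum_comm]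
  apply Finset.sum_congr rfl
  intro d _
  rw [Finset.sum_comm]
  apply Finset.sum_congr rfl
  intro e _
  rw [Finset.mul_sum, ← Finset.sum_filter]

theorem jac_sum {C : ℝ} (hC : 0 ≤ C)
    (hPV : ∀ (q : ℕ) (χ : DirichletCharacter ℂ q), 2 ≤ q → χ ≠ 1 →
      ∀ a b : ℕ, ‖∑ n ∈ Finset.Ioc a b, χ (n : ZMod q)‖ ≤ C * √(q : ℝ) * Real.log q)
    {k : ℕ} (hk : Odd k) (hsq : ¬ IsSquare k) {c M d e : ℕ} (hc : c < 8) (hd : Odd d)
    (he : Odd e) :
    |∑ t ∈ (SS c M).filter (fun t => d ∣ t ∧ e ∣ t), ((jacobiSym (t : ℤ) k : ℤ) : ℝ)| ≤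
      C * √(k : ℝ) * Real.log k := by
  have hd0 : 0 < d := hd.pos
  have he0 : 0 < e := he.pos
  obtain ⟨l, hl⟩ : ∃ l, l = Nat.lcm d e := ⟨_, rfl⟩
  have hl0 : 0 < l := by rw [hl]; exact Nat.lcm_pos hd0 he0
  have hlodd : Odd l := by
    have h1 : l ∣ d * e := by rw [hl]; exact Nat.lcm_dvd_mul d e
    exact Odd.of_dvd_nat (hd.mul he) h1
  have hdvd : ∀ t : ℕ, (d ∣ t ∧ e ∣ t) ↔ l ∣ t := by
    intro t; rw [hl]; exact Nat.lcm_dvd_iff.symm
  have hk0 : 0 < k := hk.pos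
  by_cases hco : Nat.Coprime l k
  · have h8 : Nat.Coprime 8 l := by
      have : Nat.Coprime (2 ^ 3) l := Nat.Coprime.pow_left 3 (Nat.coprime_two_left.2 hlodd)
      simpa using this
    obtain ⟨c0, hc1, hc2⟩ := Nat.chineseRemainder h8 c 0
    have h8l : 0 < 8 * l := by omega
    have hset : (SS c M).filter (fun t => d ∣ t ∧ e ∣ t) =
        (Ioc 0 (8 * M)).filter (fun t => t % (8 * l) = c0 % (8 * l)) := by
      ext t
      unfold SS
      rw [mem_filter, mem_filter, mem_filter, hdvd, and_assoc]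
      apply and_congr_right
      intro _
      have e1 : t % (8 * l) = c0 % (8 * l) ↔ t ≡ c0 [MOD 8] ∧ t ≡ c0 [MOD l] := by
        rw [Nat.modEq_and_modEq_iff_modEq_mul h8]
        rfl
      rw [e1]
      constructor
      · rintro ⟨h1, h2⟩
        refine ⟨?_, ?_⟩
        · refine Nat.ModEq.trans ?_ hc1.symm
          rw [Nat.ModEq, h1, Nat.mod_eq_of_lt hc]
        · exact (Nat.modEq_zero_iff_dvd.2 h2).trans hc2.symm
      · rintro ⟨h1, h2⟩
        refine ⟨?_, ?_⟩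
        · have := h1.trans hc1
          rw [Nat.ModEq, Nat.mod_eq_of_lt hc] at this
          exact this
        · exact Nat.modEq_zero_iff_dvd.1 (h2.trans hc2)
    rw [hset]
    have h8k : Nat.Coprime 8 k := by
      have : Nat.Coprime (2 ^ 3) k := Nat.Coprime.pow_left 3 (Nat.coprime_two_left.2 hk)
      simpa using this
    exact LM2h.ap_sum C hPV k hk hsq (8 * l) (c0 % (8 * l)) (Nat.mod_lt _ h8l)
      (Nat.Coprime.mul_left h8k hco) 0 (8 * M) (Nat.zero_le _)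
  · rw [Finset.sum_eq_zero]
    · rw [abs_zero]
      have : 0 ≤ Real.log k := Real.log_natCast_nonneg k
      positivity
    · intro t ht
      rw [mem_filter, hdvd] at ht
      have h0 : jacobiSym (t : ℤ) k = 0 := by
        have : NeZero k := ⟨hk0.ne'⟩
        rw [jacobiSym.eq_zero_iff_not_coprime, Int.gcd_natCast_natCast]
        intro h
        apply hco
        exact Nat.Coprime.coprime_dvd_left ht.2 h
      rw [h0]
      simp

theorem wt_jac {C : ℝ} (hC : 0 ≤ C)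
    (hPV : ∀ (q : ℕ) (χ : DirichletCharacter ℂ q), 2 ≤ q → χ ≠ 1 →
      ∀ a b : ℕ, ‖∑ n ∈ Finset.Ioc a b, χ (n : ZMod q)‖ ≤ C * √(q : ℝ) * Real.log q)
    {P : Finset ℕ} {ρ : ℕ → ℝ} (hP : ∀ d ∈ P, Odd d) (hρ : ∀ d ∈ P, |ρ d| ≤ 1)
    {k : ℕ} (hk : Odd k) (hsq : ¬ IsSquare k) {c M : ℕ} (hc : c < 8) :
    |∑ t ∈ SS c M, wt P ρ t * ((jacobiSym (t : ℤ) k : ℤ) : ℝ)| ≤
      (P.card : ℝ) ^ 2 * (C * √(k : ℝ) * Real.log k) := by
  rw [wt_sum]
  have hE : 0 ≤ C * √(k : ℝ) * Real.log k := by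
    have : 0 ≤ Real.log k := Real.log_natCast_nonneg k
    positivity
  calc |∑ d ∈ P, ∑ e ∈ P, ρ d * ρ e *
        ∑ t ∈ (SS c M).filter (fun t => d ∣ t ∧ e ∣ t), ((jacobiSym (t : ℤ) k : ℤ) : ℝ)|
      ≤ ∑ d ∈ P, ∑ e ∈ P, (C * √(k : ℝ) * Real.log k) := by
        refine (Finset.abs_sum_le_sum_abs _ _).trans ?_
        apply Finset.sum_le_sum
        intro d hd
        refine (Finset.abs_sum_le_sum_abs _ _).trans ?_
        apply Finset.sum_le_sum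
        intro e he
        rw [abs_mul, abs_mul]
        calc |ρ d| * |ρ e| * |∑ t ∈ (SS c M).filter (fun t => d ∣ t ∧ e ∣ t),
              ((jacobiSym (t : ℤ) k : ℤ) : ℝ)|
            ≤ 1 * (C * √(k : ℝ) * Real.log k) := by
              apply mul_le_mul (mul_le_one₀ (hρ d hd) (abs_nonneg _) (hρ e he))
                (jac_sum hC hPV hk hsq hc (hP d hd) (hP e he)) (abs_nonneg _) zero_le_one
          _ = _ := one_mul _
    _ = (P.card : ℝ) ^ 2 * (C * √(k : ℝ) * Real.log k) := by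
        simp only [Finset.sum_const, nsmul_eq_mul]
        ring

theorem wt_chi {C : ℝ} (hC : 0 ≤ C)
    (hPV : ∀ (q : ℕ) (χ : DirichletCharacter ℂ q), 2 ≤ q → χ ≠ 1 →
      ∀ a b : ℕ, ‖∑ n ∈ Finset.Ioc a b, χ (n : ZMod q)‖ ≤ C * √(q : ℝ) * Real.log q)
    {P : Finset ℕ} {ρ : ℕ → ℝ} (hP : ∀ d ∈ P, Odd d) (hρ : ∀ d ∈ P, |ρ d| ≤ 1)
    {m N : ℕ} (hm : m ∈ Icc 1 N) {c M : ℕ} (hc : c < 8) :
    |∑ t ∈ SS c M, wt P ρ t * (chi t m : ℝ)| ≤
      (if IsSquare (od m) then ∑ t ∈ SS c M, wt P ρ t else 0) +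
        (P.card : ℝ) ^ 2 * (C * √(N : ℝ) * Real.log N) := by
  rw [mem_Icc] at hm
  have hN1 : (1 : ℝ) ≤ N := by exact_mod_cast hm.1.trans hm.2
  have hlogN : 0 ≤ Real.log N := Real.log_nonneg hN1
  have hE : 0 ≤ (P.card : ℝ) ^ 2 * (C * √(N : ℝ) * Real.log N) := by positivity
  split_ifs with hsq
  · have h1 : |∑ t ∈ SS c M, wt P ρ t * (chi t m : ℝ)| ≤ ∑ t ∈ SS c M, wt P ρ t := by
      refine (Finset.abs_sum_le_sum_abs _ _).trans ?_
      apply Finset.sum_le_sum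
      intro t _
      rw [abs_mul, abs_of_nonneg (wt_nonneg P ρ t)]
      exact mul_le_of_le_one_right (wt_nonneg P ρ t) (abs_chi_le t m)
    linarith
  · rw [zero_add]
    have hodd : Odd (od m) := od_odd (by omega)
    have e1 : ∑ t ∈ SS c M, wt P ρ t * (chi t m : ℝ) =
        ((chi2 (c : ℤ) : ℤ) : ℝ) ^ padicValNat 2 m *
          ∑ t ∈ SS c M, wt P ρ t * ((jacobiSym (t : ℤ) (od m) : ℤ) : ℝ) := by
      rw [Finset.mul_sum]
      apply Finset.sum_congr rfl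
      intro t ht
      have ht8 : t % 8 = c := (mem_filter.1 ht).2
      rw [chi_eq, ht8]
      push_cast
      ring
    rw [e1, abs_mul, abs_pow]
    have h2 : |((chi2 (c : ℤ) : ℤ) : ℝ)| ^ padicValNat 2 m ≤ 1 :=
      pow_le_one₀ (abs_nonneg _) (abs_chi2_le c)
    have h3 := wt_jac (M := M) hC hPV hP hρ hodd hsq hc
    have h4 : (od m : ℝ) ≤ N := by exact_mod_cast (od_le (m := m)).trans hm.2
    have h5 : (0 : ℝ) < od m := by exact_mod_cast hodd.pos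
    calc _ ≤ 1 * ((P.card : ℝ) ^ 2 * (C * √(od m : ℝ) * Real.log (od m))) :=
          mul_le_mul h2 h3 (abs_nonneg _) zero_le_one
      _ ≤ _ := by
          rw [one_mul]
          have h6 : √(od m : ℝ) ≤ √(N : ℝ) := Real.sqrt_le_sqrt h4
          have h7 : Real.log (od m) ≤ Real.log N := Real.log_le_log h5 h4
          have h8 : 0 ≤ Real.log (od m) := Real.log_natCast_nonneg _
          gcongr

theorem main_avg {C : ℝ} (hC : 0 ≤ C)
    (hPV : ∀ (q : ℕ) (χ : DirichletCharacter ℂ q), 2 ≤ q → χ ≠ 1 →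
      ∀ a b : ℕ, ‖∑ n ∈ Finset.Ioc a b, χ (n : ZMod q)‖ ≤ C * √(q : ℝ) * Real.log q)
    {P : Finset ℕ} {ρ : ℕ → ℝ} (hP : ∀ d ∈ P, Odd d) (hρ : ∀ d ∈ P, |ρ d| ≤ 1)
    {N : ℕ} (hN : 1 ≤ N) {c M : ℕ} (hc : c < 8) :
    ∑ t ∈ SS c M, wt P ρ t * ∑ n ∈ Icc 1 N, rr t n ≤
      N * (4 * ∑ t ∈ SS c M, wt P ρ t +
        (P.card : ℝ) ^ 2 * (C * √(N : ℝ) * Real.log N) * (1 + Real.log N)) := by
  obtain ⟨W, hW⟩ : ∃ W, W = ∑ t ∈ SS c M, wt P ρ t := ⟨_, rfl⟩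
  obtain ⟨E, hEd⟩ : ∃ E, E = (P.card : ℝ) ^ 2 * (C * √(N : ℝ) * Real.log N) := ⟨_, rfl⟩
  have hN1 : (1 : ℝ) ≤ N := by exact_mod_cast hN
  have hlogN : 0 ≤ Real.log N := Real.log_nonneg hN1
  have hE : 0 ≤ E := by rw [hEd]; positivity
  have hW0 : 0 ≤ W := by rw [hW]; exact Finset.sum_nonneg (fun t _ => wt_nonneg P ρ t)
  have e1 : ∑ t ∈ SS c M, wt P ρ t * ∑ n ∈ Icc 1 N, rr t n =
      ∑ m ∈ Icc 1 N, ((N / m : ℕ) : ℝ) * ∑ t ∈ SS c M, wt P ρ t * (chi t m : ℝ) := by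
    have h1 : ∀ t ∈ SS c M, wt P ρ t * ∑ n ∈ Icc 1 N, rr t n =
        ∑ m ∈ Icc 1 N, wt P ρ t * (((N / m : ℕ) : ℝ) * (chi t m : ℝ)) := by
      intro t _
      unfold rr
      rw [N3bh.swap (fun m => (chi t m : ℝ)) N, Finset.mul_sum]
    rw [Finset.sum_congr rfl h1, Finset.sum_comm]
    apply Finset.sum_congr rfl
    intro m _
    rw [Finset.mul_sum]
    apply Finset.sum_congr rfl
    intro t _
    ring
  rw [e1, ← hW, ← hEd]
  have h2 : ∀ m ∈ Icc 1 N, ((N / m : ℕ) : ℝ) * ∑ t ∈ SS c M, wt P ρ t * (chi t m : ℝ) ≤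
      N * ((if IsSquare (od m) then (m : ℝ)⁻¹ else 0) * W + (m : ℝ)⁻¹ * E) := by
    intro m hm
    have h3 := wt_chi (M := M) hC hPV hP hρ hm hc
    rw [← hW, ← hEd] at h3
    have hm' := mem_Icc.1 hm
    have hmp : (0 : ℝ) < m := by exact_mod_cast hm'.1
    have h4 : ((N / m : ℕ) : ℝ) ≤ N * (m : ℝ)⁻¹ := by
      rw [← div_eq_mul_inv]
      exact Nat.cast_div_le
    have h5 : (0 : ℝ) ≤ ((N / m : ℕ) : ℝ) := Nat.cast_nonneg _
    have h6 : ((N / m : ℕ) : ℝ) * ∑ t ∈ SS c M, wt P ρ t * (chi t m : ℝ) ≤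
        ((N / m : ℕ) : ℝ) * ((if IsSquare (od m) then W else 0) + E) :=
      mul_le_mul_of_nonneg_left ((le_abs_self _).trans h3) h5
    have h7 : 0 ≤ (if IsSquare (od m) then W else 0) + E := by
      split_ifs <;> linarith
    refine h6.trans ((mul_le_mul_of_nonneg_right h4 h7).trans (le_of_eq ?_))
    split_ifs <;> ring
  refine (Finset.sum_le_sum h2).trans ?_
  rw [← Finset.mul_sum, Finset.sum_add_distrib, ← Finset.sum_mul, ← Finset.sum_mul,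
    ← Finset.sum_filter]
  have h8 := sum_sq_part N
  have h9 : ∑ m ∈ Icc 1 N, ((m : ℝ))⁻¹ ≤ 1 + Real.log N := by
    have h10 := harmonic_le_one_add_log N
    rw [harmonic_eq_sum_Icc] at h10
    push_cast at h10
    exact h10
  have hNn : (0 : ℝ) ≤ N := by linarith
  apply mul_le_mul_of_nonneg_left _ hNn
  nlinarith [mul_le_mul_of_nonneg_right h8 hW0, mul_le_mul_of_nonneg_right h9 hE]

end Run7.h940.CN
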