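import Pool.Agent.Run7.h940.CN.A2
import Pool.Agent.W23.UBa
import Pool.Agent.H307R2.OP.BT4

/-! Total mass of the Selberg weights in a class modulo 8. -/

set_option autoImplicit false

namespace Run7.h940.CN

open Finset Pool.Agent.H38R2.CG Pool.Agent.Helper923.PPS

theorem card_cls {c M d e : ℕ} (hc1 : 1 ≤ c) (hc : c < 8) (hd : Odd d) (he : Odd e) :
    |(((SS c M).filter (fun t => d ∣ t ∧ e ∣ t)).card : ℝ) - (M : ℝ) / (Nat.lcm d e : ℕ)| ≤ 1 := by
  have hlodd : Odd (Nat.lcm d e) := by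
    have h1 : Nat.lcm d e ∣ d * e := Nat.lcm_dvd_mul d e
    exact Odd.of_dvd_nat (hd.mul he) h1
  have h8 : Nat.Coprime (Nat.lcm d e) 8 := by
    have : Nat.Coprime (2 ^ 3) (Nat.lcm d e) := Nat.Coprime.pow_left 3 (Nat.coprime_two_left.2 hlodd)
    exact Nat.Coprime.symm (by simpa using this)
  have h := count_dvd_AP (a := c) (q := 8) (d := Nat.lcm d e) (N := M) hlodd.pos h8
  have hcard : ((SS c M).filter (fun t => d ∣ t ∧ e ∣ t)).card =
      ((Finset.range M).filter (fun k => Nat.lcm d e ∣ c + k * 8)).card := by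
    symm
    apply Finset.card_bij (fun k _ => c + k * 8)
    · intro k hk
      unfold SS
      rw [mem_filter, mem_range] at hk
      rw [mem_filter, mem_filter, mem_Ioc, ← Nat.lcm_dvd_iff]
      exact ⟨⟨⟨by omega, by omega⟩, by omega⟩, hk.2⟩
    · intro a _ b _ hab
      omega
    · intro t ht
      unfold SS at ht
      rw [mem_filter, mem_filter, mem_Ioc, ← Nat.lcm_dvd_iff] at ht
      refine ⟨t / 8, ?_, by omega⟩
      rw [mem_filter, mem_range]
      have e1 : c + t / 8 * 8 = t := by omega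
      rw [e1]
      exact ⟨by omega, ht.2⟩
  rw [hcard]
  exact h

theorem wt_total {P : Finset ℕ} {ρ : ℕ → ℝ} (hP : ∀ d ∈ P, Odd d) (hρ : ∀ d ∈ P, |ρ d| ≤ 1)
    {c M : ℕ} (hc1 : 1 ≤ c) (hc : c < 8) :
    ∑ t ∈ SS c M, wt P ρ t ≤
      M * (∑ d ∈ P, ∑ e ∈ P, ρ d * ρ e * ((Nat.lcm d e : ℕ) : ℝ)⁻¹) + (P.card : ℝ) ^ 2 := by
  have h1 := wt_sum P ρ (SS c M) (fun _ => 1)
  simp only [mul_one] at h1
  rw [h1]
  have h2 : ∀ d ∈ P, ∀ e ∈ P, ρ d * ρ e * ∑ t ∈ (SS c M).filter (fun t => d ∣ t ∧ e ∣ t), (1 : ℝ) ≤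
      M * (ρ d * ρ e * ((Nat.lcm d e : ℕ) : ℝ)⁻¹) + 1 := by
    intro d hd e he
    have h3 := card_cls (M := M) hc1 hc (hP d hd) (hP e he)
    rw [Finset.sum_const, nsmul_eq_mul, mul_one]
    have h4 : |ρ d * ρ e| ≤ 1 := by
      rw [abs_mul]
      exact mul_le_one₀ (hρ d hd) (abs_nonneg _) (hρ e he)
    have h5 : ρ d * ρ e * ((((SS c M).filter (fun t => d ∣ t ∧ e ∣ t)).card : ℝ) -
        (M : ℝ) / (Nat.lcm d e : ℕ)) ≤ 1 := by
      refine (le_abs_self _).trans ?_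
      rw [abs_mul]
      exact mul_le_one₀ h4 (abs_nonneg _) h3
    rw [div_eq_mul_inv] at h5
    linarith
  calc ∑ d ∈ P, ∑ e ∈ P, ρ d * ρ e * ∑ t ∈ (SS c M).filter (fun t => d ∣ t ∧ e ∣ t), (1 : ℝ)
      ≤ ∑ d ∈ P, ∑ e ∈ P, (M * (ρ d * ρ e * ((Nat.lcm d e : ℕ) : ℝ)⁻¹) + 1) :=
        Finset.sum_le_sum (fun d hd => Finset.sum_le_sum (fun e he => h2 d hd e he))
    _ = _ := by
        simp only [Finset.sum_add_distrib, Finset.sum_const, nsmul_eq_mul, mul_one]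
        rw [Finset.mul_sum]
        congr 1
        · apply Finset.sum_congr rfl
          intro d _
          rw [Finset.mul_sum]
        · ring

/-- the Selberg weights -/
noncomputable def sw (R : ℕ) (d : ℕ) : ℝ := selW (apSieve 1 8 1 R) R d

/-- their support -/
def sp (R : ℕ) : Finset ℕ := (Nat.divisors (PP 8 R)).filter (fun d => d ≤ R)

theorem sp_card (R : ℕ) : (sp R).card ≤ R := by
  have : sp R ⊆ Icc 1 R := by
    intro d hd
    unfold sp at hd
    rw [mem_filter, Nat.mem_divisors] at hd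
    rw [mem_Icc]
    exact ⟨Nat.pos_of_dvd_of_pos hd.1.1 (Nat.pos_of_ne_zero hd.1.2), hd.2⟩
  have h := Finset.card_le_card this
  simpa using h

theorem sp_odd {R d : ℕ} (hd : d ∈ sp R) : Odd d := by
  unfold sp at hd
  rw [mem_filter, Nat.mem_divisors] at hd
  have h := coprime_of_dvd_PP hd.1.1
  have h2 : Nat.Coprime d 2 := Nat.Coprime.coprime_dvd_right (by norm_num) h
  exact (Nat.coprime_two_right).1 h2

theorem sw_abs {R d : ℕ} (hR : 1 ≤ R) (hd : d ∈ sp R) : |sw R d| ≤ 1 := by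
  unfold sp at hd
  rw [mem_filter, Nat.mem_divisors] at hd
  exact Pool.Agent.W23.UB.abs_selW_le_one _ _ (by exact_mod_cast hR) hd.1.1

theorem sw_main {R : ℕ} (hR : 1 ≤ R) :
    ∑ d ∈ sp R, ∑ e ∈ sp R, sw R d * sw R e * ((Nat.lcm d e : ℕ) : ℝ)⁻¹ =
      (selS (apSieve 1 8 1 R) R)⁻¹ := by
  have hR' : (1 : ℝ) ≤ R := by exact_mod_cast hR
  rw [← mainSum_selW (apSieve 1 8 1 R) R hR']
  have hPP0 : PP 8 R ≠ 0 := (PP_squarefree 8 R).ne_zero
  unfold BoundingSieve.mainSum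
  change _ = ∑ l ∈ (PP 8 R).divisors, BoundingSieve.lambdaSquared (selW (apSieve 1 8 1 R) R) l *
    ((l : ℕ) : ℝ)⁻¹
  have h1 : ∀ l ∈ (PP 8 R).divisors,
      BoundingSieve.lambdaSquared (selW (apSieve 1 8 1 R) R) l * ((l : ℕ) : ℝ)⁻¹ =
      ∑ d ∈ (PP 8 R).divisors, ∑ e ∈ (PP 8 R).divisors,
        if l = Nat.lcm d e then sw R d * sw R e * ((Nat.lcm d e : ℕ) : ℝ)⁻¹ else 0 := by
    intro l hl
    have hlP := (Nat.mem_divisors.1 hl).1
    have hsub : l.divisors ⊆ (PP 8 R).divisors := Nat.divisors_subset_of_dvd hPP0 hlP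
    have hl0 : l ≠ 0 := ne_zero_of_dvd_ne_zero hPP0 hlP
    unfold BoundingSieve.lambdaSquared
    rw [Finset.sum_mul]
    have e1 : ∀ d ∈ l.divisors, (∑ e ∈ l.divisors, if l = Nat.lcm d e then
        selW (apSieve 1 8 1 R) R d * selW (apSieve 1 8 1 R) R e else 0) * ((l : ℕ) : ℝ)⁻¹ =
        ∑ e ∈ (PP 8 R).divisors,
          if l = Nat.lcm d e then sw R d * sw R e * ((Nat.lcm d e : ℕ) : ℝ)⁻¹ else 0 := by
      intro d hd
      rw [Finset.sum_mul, ← Finset.sum_subset hsub]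
      · apply Finset.sum_congr rfl
        intro e he
        split_ifs with h
        · rw [← h]
          rfl
        · simp
      · intro e _ he
        rw [if_neg]
        intro h
        apply he
        rw [Nat.mem_divisors]
        exact ⟨by rw [h]; exact Nat.dvd_lcm_right d e, hl0⟩
    rw [Finset.sum_congr rfl e1, Finset.sum_subset hsub]
    intro d _ hd
    apply Finset.sum_eq_zero
    intro e _
    rw [if_neg]
    intro h
    apply hd
    rw [Nat.mem_divisors]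
    exact ⟨by rw [h]; exact Nat.dvd_lcm_left d e, hl0⟩
  rw [Finset.sum_congr rfl h1]
  conv_rhs => rw [Finset.sum_comm]
  have h2 : ∀ d ∈ (PP 8 R).divisors, ∑ l ∈ (PP 8 R).divisors, ∑ e ∈ (PP 8 R).divisors,
        (if l = Nat.lcm d e then sw R d * sw R e * ((Nat.lcm d e : ℕ) : ℝ)⁻¹ else 0) =
      ∑ e ∈ (PP 8 R).divisors, sw R d * sw R e * ((Nat.lcm d e : ℕ) : ℝ)⁻¹ := by
    intro d hd
    rw [Finset.sum_comm]
    apply Finset.sum_congr rfl
    intro e he
    rw [Finset.sum_ite_eq', if_pos]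
    rw [Nat.mem_divisors] at hd he ⊢
    exact ⟨Nat.lcm_dvd hd.1 he.1, hPP0⟩
  rw [Finset.sum_congr rfl h2]
  have hsp : sp R ⊆ (PP 8 R).divisors := Finset.filter_subset _ _
  have hz : ∀ d ∈ (PP 8 R).divisors, d ∉ sp R → sw R d = 0 := by
    intro d hd hd2
    apply selW_eq_zero
    unfold sp at hd2
    rw [mem_filter, not_and, not_le] at hd2
    exact_mod_cast hd2 hd
  rw [← Finset.sum_subset hsp]
  · apply Finset.sum_congr rfl
    intro d _
    apply Finset.sum_subset hsp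
    intro e he he2
    rw [hz e he he2]
    simp
  · intro d hd hd2
    rw [hz d hd hd2]
    simp

theorem sw_total {R : ℕ} (hR : 1 ≤ R) {c M : ℕ} (hc1 : 1 ≤ c) (hc : c < 8) :
    ∑ t ∈ SS c M, wt (sp R) (sw R) t ≤ 2 * M / Real.log ((R : ℝ) + 1) + (R : ℝ) ^ 2 := by
  have h1 := wt_total (M := M) (P := sp R) (ρ := sw R) (fun d hd => sp_odd hd)
    (fun d hd => sw_abs hR hd) hc1 hc
  rw [sw_main hR] at h1
  have h2 := Pool.Agent.H307R2.OP.BT4P.selS_ge2 (a := 1) (q := 8) (N := 1) (R := R) (by norm_num)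
  have h3 : Nat.totient 8 = 4 := by decide
  rw [h3] at h2
  have hR' : (1 : ℝ) ≤ R := by exact_mod_cast hR
  have hlog : 0 < Real.log ((R : ℝ) + 1) := Real.log_pos (by linarith)
  have h4 : (selS (apSieve 1 8 1 R) R)⁻¹ ≤ 2 / Real.log ((R : ℝ) + 1) := by
    have h5 : (1 / 2) * Real.log ((R : ℝ) + 1) ≤ selS (apSieve 1 8 1 R) R := by
      refine le_trans (le_of_eq ?_) h2
      norm_num
    have h6 : 0 < (1 / 2) * Real.log ((R : ℝ) + 1) := by positivity
    calc (selS (apSieve 1 8 1 R) R)⁻¹ ≤ ((1 / 2) * Real.log ((R : ℝ) + 1))⁻¹ :=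
          inv_anti₀ h6 h5
      _ = 2 / Real.log ((R : ℝ) + 1) := by
          field_simp
  have h7 : ((sp R).card : ℝ) ^ 2 ≤ (R : ℝ) ^ 2 := by
    have : ((sp R).card : ℝ) ≤ R := by exact_mod_cast sp_card R
    gcongr
  have h8 : (M : ℝ) * (selS (apSieve 1 8 1 R) R)⁻¹ ≤ M * (2 / Real.log ((R : ℝ) + 1)) :=
    mul_le_mul_of_nonneg_left h4 (Nat.cast_nonneg _)
  have h9 : (M : ℝ) * (2 / Real.log ((R : ℝ) + 1)) = 2 * M / Real.log ((R : ℝ) + 1) := by ring
  linarith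

theorem one_mem_sp {R : ℕ} (hR : 1 ≤ R) : 1 ∈ sp R := by
  unfold sp
  rw [mem_filter, Nat.mem_divisors]
  exact ⟨⟨one_dvd _, (PP_squarefree 8 R).ne_zero⟩, hR⟩

theorem wt_prime {R p : ℕ} (hR : 1 ≤ R) (hp : p.Prime) (hpR : R < p) :
    wt (sp R) (sw R) p = 1 := by
  unfold wt
  have h1 : (sp R).filter (fun d => d ∣ p) = {1} := by
    ext d
    rw [mem_filter, mem_singleton]
    constructor
    · rintro ⟨h1, h2⟩
      rcases (Nat.dvd_prime hp).1 h2 with h | h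
      · exact h
      · exfalso
        unfold sp at h1
        rw [mem_filter] at h1
        omega
    · rintro rfl
      exact ⟨one_mem_sp hR, one_dvd _⟩
  rw [h1, Finset.sum_singleton]
  have h2 : sw R 1 = 1 := selW_one _ _ (by exact_mod_cast hR)
  rw [h2, one_pow]

end Run7.h940.CN
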