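import Pool.Agent.Run7.h940.CN.A3
import Pool.Agent.H38R2.CG.PV
import Pool.Agent.Q276.PL.Stm2

/-! The mean of `L(1, chi)` over squarefree numbers and over primes. -/

set_option autoImplicit false

namespace Run7.h940.CN

open Finset Pool.Agent.H38R2.CG
open Pool.Agent.Q276.PL (dsc)

theorem isFund_dsc {d : ℕ} (hd : 1 < d) (hs : Squarefree d) : IsFund (dsc d) := by
  unfold dsc
  have h4 : ¬ 4 ∣ d := by
    intro h
    have := hs 2 (by simpa using h)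
    simp at this
  split_ifs with h1
  · exact ⟨hd, Or.inl ⟨h1, hs⟩⟩
  · refine ⟨by omega, Or.inr ⟨d, rfl, ?_, hs⟩⟩
    omega

theorem dsc_le (d : ℕ) : dsc d ≤ 4 * d := by
  unfold dsc
  split_ifs <;> omega

theorem dsc_ge (d : ℕ) : d ≤ dsc d := by
  unfold dsc
  split_ifs <;> omega

theorem chi_dsc {d m : ℕ} (_hd : d % 4 ≠ 0) (hm : m ≠ 0) : chi (dsc d) m = chi d m := by
  unfold dsc
  split_ifs with h1
  · rfl
  · have h2 : chi2 (((4 * d : ℕ) : ℤ)) = 0 := by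
      unfold chi2
      rw [if_neg (by omega), if_neg (by omega)]
    have h3 : chi2 ((d : ℕ) : ℤ) = 0 := by
      unfold chi2
      rw [if_neg (by omega), if_neg (by omega)]
    have hodd : Odd (m / 2 ^ padicValNat 2 m) := (KRh.two_pow_split hm).2
    unfold chi
    rw [h2, h3]
    congr 1
    push_cast
    rw [jacobiSym.mul_left]
    have h4 : jacobiSym 4 (m / 2 ^ padicValNat 2 m) = 1 := by
      have h5 : (4 : ℤ) = 2 ^ 2 := by norm_num
      rw [h5]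
      apply jacobiSym.sq_one'
      have h6 : Nat.Coprime 2 (m / 2 ^ padicValNat 2 m) := Nat.coprime_two_left.2 hodd
      exact_mod_cast h6
    rw [h4, one_mul]

theorem Lone_le : ∃ C : ℝ, 0 < C ∧ ∀ D : ℕ, IsFund D → ∀ N : ℕ, 1 ≤ N →
    Lone D ≤ (∑ n ∈ Icc 1 N, rr D n) / N + (1 + C * √(D : ℝ) * Real.log D / N) := by
  obtain ⟨C, hC, h⟩ := T_N3a T_KR T_PV
  refine ⟨C, hC, fun D hD N hN => ?_⟩
  have h1 := h D hD N hN
  have h2 := (abs_le.1 h1).2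
  have hNp : (0 : ℝ) < N := by exact_mod_cast hN
  have h3 : ∑ n ∈ Icc 1 N, (chi D n : ℝ) / n ≤ (∑ n ∈ Icc 1 N, rr D n) / N + 1 := by
    have e1 : ∑ n ∈ Icc 1 N, rr D n = ∑ m ∈ Icc 1 N, ((N / m : ℕ) : ℝ) * (chi D m : ℝ) := by
      unfold rr
      rw [N3bh.swap (fun m => (chi D m : ℝ)) N]
    rw [e1, ← sub_le_iff_le_add', Finset.sum_div, ← Finset.sum_sub_distrib]
    have h4 : ∀ m ∈ Icc 1 N, (chi D m : ℝ) / m - ((N / m : ℕ) : ℝ) * (chi D m : ℝ) / N ≤ 1 / N := by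
      intro m hm
      rw [mem_Icc] at hm
      have hmp : (0 : ℝ) < m := by exact_mod_cast hm.1
      have e2 : (chi D m : ℝ) / m - ((N / m : ℕ) : ℝ) * (chi D m : ℝ) / N =
          (chi D m : ℝ) * (N / m - ((N / m : ℕ) : ℝ)) / N := by
        field_simp
      rw [e2]
      apply div_le_div_of_nonneg_right _ hNp.le
      have h5 : (0 : ℝ) ≤ N / m - ((N / m : ℕ) : ℝ) := by
        have := @Nat.cast_div_le ℝ _ _ _ N m
        linarith
      have h6 : (N : ℝ) / m - ((N / m : ℕ) : ℝ) ≤ 1 := by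
        have := Nat.lt_div_mul_add (a := N) (b := m) hm.1
        have h2 : (N : ℝ) < ((N / m : ℕ) : ℝ) * m + m := by exact_mod_cast this
        have h3 : (N : ℝ) / m < ((N / m : ℕ) : ℝ) + 1 := by
          rw [div_lt_iff₀ hmp]
          linarith
        linarith
      have h7 := (abs_le.1 (abs_chi_le D m)).2
      nlinarith
    refine (Finset.sum_le_sum h4).trans (le_of_eq ?_)
    rw [Finset.sum_const, Nat.card_Icc, nsmul_eq_mul]
    field_simp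
    simp
  linarith

theorem rr_dsc {d n : ℕ} (hd : d % 4 ≠ 0) : rr (dsc d) n = rr d n := by
  unfold rr
  apply Finset.sum_congr rfl
  intro m hm
  rw [chi_dsc hd (Nat.pos_of_mem_divisors hm).ne']

/-- the mean over the elements of weight at least one -/
theorem avg_gen : ∃ C : ℝ, 0 < C ∧ ∀ (P : Finset ℕ) (ρ : ℕ → ℝ), (∀ d ∈ P, Odd d) →
    (∀ d ∈ P, |ρ d| ≤ 1) → ∀ N : ℕ, 1 ≤ N → ∀ c : ℕ, 1 ≤ c → c < 8 → c ≠ 4 → ∀ M : ℕ, 1 ≤ M →
    ∀ T : Finset ℕ, (∀ d ∈ T, 1 < d ∧ Squarefree d ∧ d ∈ SS c M ∧ 1 ≤ wt P ρ d) →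
    ∑ d ∈ T, Lone (dsc d) ≤
      (5 + C * √(32 * M : ℝ) * Real.log (32 * M) / N) * ∑ t ∈ SS c M, wt P ρ t +
      (P.card : ℝ) ^ 2 * (C * √(N : ℝ) * Real.log N) * (1 + Real.log N) := by
  obtain ⟨C1, hC1, h1⟩ := Lone_le
  obtain ⟨C2, hC2, hPV⟩ := T_PV
  refine ⟨C1 + C2, by linarith, ?_⟩
  intro P ρ hP hρ N hN c hc1 hc hc4 M hM T hT
  have hNp : (0 : ℝ) < N := by exact_mod_cast hN
  have hN1 : (1 : ℝ) ≤ N := by exact_mod_cast hN
  have hM1 : (1 : ℝ) ≤ M := by exact_mod_cast hM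
  have hlogN : 0 ≤ Real.log N := Real.log_nonneg hN1
  have hlogM : 0 ≤ Real.log (32 * M) := Real.log_nonneg (by linarith)
  obtain ⟨B, hB⟩ : ∃ B, B = C1 * √(32 * M : ℝ) * Real.log (32 * M) / N := ⟨_, rfl⟩
  have hB0 : 0 ≤ B := by rw [hB]; positivity
  obtain ⟨W, hW⟩ : ∃ W, W = ∑ t ∈ SS c M, wt P ρ t := ⟨_, rfl⟩
  have hW0 : 0 ≤ W := by rw [hW]; exact Finset.sum_nonneg (fun t _ => wt_nonneg P ρ t)
  have h2 : ∀ d ∈ T, Lone (dsc d) ≤ wt P ρ d * ((∑ n ∈ Icc 1 N, rr d n) / N + (1 + B)) := by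
    intro d hd
    obtain ⟨hd1, hsq, hS, hw⟩ := hT d hd
    have hd4 : d % 4 ≠ 0 := by
      intro h
      have := hsq 2 (by omega)
      simp at this
    have hF := isFund_dsc hd1 hsq
    have h3 := h1 (dsc d) hF N hN
    have hle : (dsc d : ℝ) ≤ 32 * M := by
      have h4 := dsc_le d
      unfold SS at hS
      rw [mem_filter, mem_Ioc] at hS
      have : dsc d ≤ 32 * M := by omega
      exact_mod_cast this
    have hD0 : (0 : ℝ) < dsc d := by exact_mod_cast (by have := hF.1; omega : 0 < dsc d)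
    have h5 : C1 * √(dsc d : ℝ) * Real.log (dsc d) / N ≤ B := by
      rw [hB]
      have h6 : √(dsc d : ℝ) ≤ √(32 * M : ℝ) := Real.sqrt_le_sqrt hle
      have h7 : Real.log (dsc d) ≤ Real.log (32 * M) := Real.log_le_log hD0 hle
      have h8 : 0 ≤ Real.log (dsc d) := Real.log_natCast_nonneg _
      gcongr
    have h9 : ∑ n ∈ Icc 1 N, rr (dsc d) n = ∑ n ∈ Icc 1 N, rr d n :=
      Finset.sum_congr rfl (fun n _ => rr_dsc hd4)
    rw [h9] at h3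
    have h10 : 0 ≤ (∑ n ∈ Icc 1 N, rr d n) / N + (1 + B) := by
      have : 0 ≤ ∑ n ∈ Icc 1 N, rr d n := Finset.sum_nonneg (fun n _ => rr_nonneg d n)
      positivity
    calc Lone (dsc d) ≤ (∑ n ∈ Icc 1 N, rr d n) / N + (1 + B) := by linarith
      _ ≤ wt P ρ d * ((∑ n ∈ Icc 1 N, rr d n) / N + (1 + B)) := le_mul_of_one_le_left h10 hw
  have h3 : ∑ d ∈ T, wt P ρ d * ((∑ n ∈ Icc 1 N, rr d n) / N + (1 + B)) ≤
      ∑ d ∈ SS c M, wt P ρ d * ((∑ n ∈ Icc 1 N, rr d n) / N + (1 + B)) := by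
    apply Finset.sum_le_sum_of_subset_of_nonneg
    · intro d hd
      exact (hT d hd).2.2.1
    · intro d _ _
      have : 0 ≤ ∑ n ∈ Icc 1 N, rr d n := Finset.sum_nonneg (fun n _ => rr_nonneg d n)
      have := wt_nonneg P ρ d
      positivity
  have h4 : ∑ d ∈ SS c M, wt P ρ d * ((∑ n ∈ Icc 1 N, rr d n) / N + (1 + B)) =
      (∑ t ∈ SS c M, wt P ρ t * ∑ n ∈ Icc 1 N, rr t n) / N + (1 + B) * W := by
    rw [hW, Finset.sum_div, Finset.mul_sum, ← Finset.sum_add_distrib]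
    apply Finset.sum_congr rfl
    intro t _
    ring
  have h5 := main_avg (M := M) hC2.le hPV hP hρ hN hc
  rw [← hW] at h5
  have h6 : (∑ t ∈ SS c M, wt P ρ t * ∑ n ∈ Icc 1 N, rr t n) / N ≤
      4 * W + (P.card : ℝ) ^ 2 * (C2 * √(N : ℝ) * Real.log N) * (1 + Real.log N) := by
    rw [div_le_iff₀ hNp]
    linarith
  rw [← hW]
  have h7 : (P.card : ℝ) ^ 2 * (C2 * √(N : ℝ) * Real.log N) * (1 + Real.log N) ≤
      (P.card : ℝ) ^ 2 * ((C1 + C2) * √(N : ℝ) * Real.log N) * (1 + Real.log N) := by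
    gcongr
    linarith
  have h8 : B ≤ (C1 + C2) * √(32 * M : ℝ) * Real.log (32 * M) / N := by
    rw [hB]
    gcongr
    linarith
  have h9 : (5 + B) * W ≤ (5 + (C1 + C2) * √(32 * M : ℝ) * Real.log (32 * M) / N) * W := by
    gcongr
  have h10 := Finset.sum_le_sum h2
  linarith

/-- with polynomial parameters -/
theorem avg_Z : ∃ C : ℝ, 0 < C ∧ ∀ (P : Finset ℕ) (ρ : ℕ → ℝ), (∀ d ∈ P, Odd d) →
    (∀ d ∈ P, |ρ d| ≤ 1) → ∀ Z : ℕ, 2 ≤ Z → P.card ≤ Z ^ 2 → ∀ c : ℕ, 1 ≤ c → c < 8 → c ≠ 4 →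
    ∀ M : ℕ, Z ^ 20 ≤ M → M ≤ (2 * Z) ^ 20 →
    ∀ T : Finset ℕ, (∀ d ∈ T, 1 < d ∧ Squarefree d ∧ d ∈ SS c M ∧ 1 ≤ wt P ρ d) →
    ∑ d ∈ T, Lone (dsc d) ≤ C * (∑ t ∈ SS c M, wt P ρ t + M / Real.log Z) := by
  obtain ⟨C, hC, h⟩ := avg_gen
  refine ⟨5 + C * 233472 + 272 * C, by positivity, ?_⟩
  intro P ρ hP hρ Z hZ hcard c hc1 hc hc4 M hM1 hM2 T hT
  have hZ' : (2 : ℝ) ≤ Z := by exact_mod_cast hZ
  have hZ0 : (0 : ℝ) < Z := by linarith
  have hM : 1 ≤ M := le_trans (Nat.one_le_pow _ _ (by omega)) hM1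
  have h1 := h P ρ hP hρ (Z ^ 16) (Nat.one_le_pow _ _ (by omega)) c hc1 hc hc4 M hM T hT
  have hM1' : (Z : ℝ) ^ 20 ≤ M := by exact_mod_cast hM1
  have hM2' : (M : ℝ) ≤ (2 * Z) ^ 20 := by exact_mod_cast hM2
  have hM0 : (0 : ℝ) < M := by exact_mod_cast hM
  have hlogZ : 0 < Real.log Z := Real.log_pos (by linarith)
  have hlogZ2 : Real.log Z ≤ Z := (Real.log_le_sub_one_of_pos hZ0).trans (by linarith)
  obtain ⟨W, hW⟩ : ∃ W, W = ∑ t ∈ SS c M, wt P ρ t := ⟨_, rfl⟩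
  have hW0 : 0 ≤ W := by rw [hW]; exact Finset.sum_nonneg (fun t _ => wt_nonneg P ρ t)
  rw [← hW] at h1 ⊢
  -- the square root
  have h2 : √(32 * M : ℝ) ≤ 6144 * (Z : ℝ) ^ 10 := by
    rw [Real.sqrt_le_left (by positivity)]
    calc (32 * M : ℝ) ≤ 32 * (2 * Z) ^ 20 := by linarith
      _ ≤ (6144 * (Z : ℝ) ^ 10) ^ 2 := by
        have : (0 : ℝ) ≤ (Z : ℝ) ^ 20 := by positivity
        nlinarith
  have h3 : Real.log (32 * M) ≤ 38 * Z := by
    have h4 : Real.log (32 * M) ≤ Real.log ((2 : ℝ) ^ 25 * (Z : ℝ) ^ 20) := by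
      apply Real.log_le_log (by positivity)
      calc (32 * M : ℝ) ≤ 32 * (2 * Z) ^ 20 := by linarith
        _ = (2 : ℝ) ^ 25 * (Z : ℝ) ^ 20 := by ring
    have e4 : Real.log ((2 : ℝ) ^ 25 * (Z : ℝ) ^ 20) = 25 * Real.log 2 + 20 * Real.log Z := by
      rw [Real.log_mul (by positivity) (by positivity), Real.log_pow, Real.log_pow]
      norm_num
    have h5 : Real.log 2 < 0.6931471808 := Real.log_two_lt_d9
    rw [e4] at h4
    linarith
  have h0 : 0 ≤ Real.log (32 * M) := by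
    have : (1 : ℝ) ≤ M := by exact_mod_cast hM
    exact Real.log_nonneg (by linarith)
  have h4 : C * √(32 * M : ℝ) * Real.log (32 * M) / ((Z ^ 16 : ℕ) : ℝ) ≤ C * 233472 := by
    push_cast
    rw [div_le_iff₀ (by positivity)]
    calc C * √(32 * M : ℝ) * Real.log (32 * M) ≤ C * (6144 * (Z : ℝ) ^ 10) * (38 * Z) := by
          gcongr
      _ = C * 233472 * (Z : ℝ) ^ 11 := by ring
      _ ≤ C * 233472 * (Z : ℝ) ^ 16 := by
          apply mul_le_mul_of_nonneg_left _ (by positivity)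
          exact pow_le_pow_right₀ (by linarith) (by norm_num)
  have h5 : ((P.card : ℝ)) ^ 2 ≤ (Z : ℝ) ^ 4 := by
    have : (P.card : ℝ) ≤ (Z : ℝ) ^ 2 := by exact_mod_cast hcard
    calc ((P.card : ℝ)) ^ 2 ≤ ((Z : ℝ) ^ 2) ^ 2 := by gcongr
      _ = (Z : ℝ) ^ 4 := by ring
  have h6 : √((Z ^ 16 : ℕ) : ℝ) = (Z : ℝ) ^ 8 := by
    push_cast
    rw [show (Z : ℝ) ^ 16 = ((Z : ℝ) ^ 8) ^ 2 by ring]
    exact Real.sqrt_sq (by positivity)
  have h7 : Real.log ((Z ^ 16 : ℕ) : ℝ) = 16 * Real.log Z := by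
    push_cast
    rw [Real.log_pow]
    norm_num
  have h8 : (P.card : ℝ) ^ 2 * (C * √((Z ^ 16 : ℕ) : ℝ) * Real.log ((Z ^ 16 : ℕ) : ℝ)) *
      (1 + Real.log ((Z ^ 16 : ℕ) : ℝ)) ≤ 272 * C * (M / Real.log Z) := by
    rw [h6, h7]
    calc (P.card : ℝ) ^ 2 * (C * (Z : ℝ) ^ 8 * (16 * Real.log Z)) * (1 + 16 * Real.log Z)
        ≤ (Z : ℝ) ^ 4 * (C * (Z : ℝ) ^ 8 * (16 * Z)) * (17 * Z) := by
          gcongr
          linarith
      _ = 272 * C * (Z : ℝ) ^ 14 := by ring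
      _ ≤ 272 * C * (M / Real.log Z) := by
          apply mul_le_mul_of_nonneg_left _ (by positivity)
          rw [le_div_iff₀ hlogZ]
          calc (Z : ℝ) ^ 14 * Real.log Z ≤ (Z : ℝ) ^ 14 * Z := by gcongr
            _ = (Z : ℝ) ^ 15 := by ring
            _ ≤ (Z : ℝ) ^ 20 := pow_le_pow_right₀ (by linarith) (by norm_num)
            _ ≤ M := hM1'
  have h9 : (5 + C * √(32 * M : ℝ) * Real.log (32 * M) / ((Z ^ 16 : ℕ) : ℝ)) * W ≤
      (5 + C * 233472) * W := by gcongr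
  have h10 : 0 ≤ M / Real.log Z := by positivity
  nlinarith [mul_nonneg hC.le hW0, mul_nonneg hC.le h10]

end Run7.h940.CN
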