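import Pool.Agent.Run7.h940.CN.A4

/-! The mean of `L(1, chi)` over squarefree numbers and over primes, final form. -/

set_option autoImplicit false

namespace Run7.h940.CN

open Finset Filter Pool.Agent.H38R2.CG
open Pool.Agent.Q276.PL (dsc)

theorem Lone_nonneg {D : ℕ} (hD : IsFund D) : 0 ≤ Lone D := by
  have h := T_N3b T_KR T_PV (T_N3a T_KR T_PV) D hD
  apply ge_of_tendsto' h
  intro N
  have : 0 ≤ ∑ n ∈ Icc 1 N, rr D n := Finset.sum_nonneg (fun n _ => rr_nonneg D n)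
  exact div_nonneg this (Nat.cast_nonneg _)

theorem two_aux {z : ℝ} (hz : 2 ≤ z) : z + 1 ≤ z ^ 2 := by nlinarith

theorem wt_one (t : ℕ) : wt {1} (fun _ => (1 : ℝ)) t = 1 := by
  unfold wt
  rw [Finset.filter_singleton, if_pos (one_dvd _)]
  simp

theorem exists_Z {M : ℕ} (hM : 2 ^ 20 ≤ M) : ∃ Z : ℕ, 2 ≤ Z ∧ Z ^ 20 ≤ M ∧ M ≤ (2 * Z) ^ 20 ∧
    Real.log M ≤ 40 * Real.log Z := by
  obtain ⟨Z, hZ⟩ : ∃ Z, Z = Nat.findGreatest (fun z => z ^ 20 ≤ M) M := ⟨_, rfl⟩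
  have hM1 : 2 ≤ M := le_trans (by norm_num) hM
  have h1 : Z ^ 20 ≤ M := by
    rw [hZ]
    exact Nat.findGreatest_spec (P := fun z => z ^ 20 ≤ M) hM1 hM
  have h2 : 2 ≤ Z := by
    rw [hZ]
    exact Nat.le_findGreatest hM1 hM
  have h3 : M < (Z + 1) ^ 20 := by
    by_contra h
    push Not at h
    have h4 : Z + 1 ≤ M := le_trans (Nat.le_self_pow (by norm_num) _) h
    have h5 := Nat.le_findGreatest (P := fun z => z ^ 20 ≤ M) h4 h
    rw [← hZ] at h5
    omega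
  refine ⟨Z, h2, h1, ?_, ?_⟩
  · have h4 : (Z + 1) ^ 20 ≤ (2 * Z) ^ 20 := Nat.pow_le_pow_left (by omega) 20
    omega
  · have hZ' : (2 : ℝ) ≤ Z := by exact_mod_cast h2
    have hMp : (0 : ℝ) < M := by exact_mod_cast (by omega : 0 < M)
    have h5 : (M : ℝ) ≤ ((Z : ℝ) ^ 2) ^ 20 := by
      have h6 : (M : ℝ) < ((Z : ℝ) + 1) ^ 20 := by exact_mod_cast h3
      have h7 : (Z : ℝ) + 1 ≤ (Z : ℝ) ^ 2 := two_aux hZ'
      exact h6.le.trans (pow_le_pow_left₀ (by positivity) h7 20)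
    calc Real.log M ≤ Real.log (((Z : ℝ) ^ 2) ^ 20) := Real.log_le_log hMp h5
      _ = 40 * Real.log Z := by
        rw [Real.log_pow, Real.log_pow]
        push_cast
        ring

theorem M_facts {X : ℕ} (hX : 2 ^ 24 ≤ X) : 2 ^ 20 ≤ X / 8 + 1 ∧ X / 8 + 1 ≤ X ∧
    (1 / 2) * Real.log X ≤ Real.log ((X / 8 + 1 : ℕ) : ℝ) := by
  refine ⟨by omega, by omega, ?_⟩
  have hX' : (2 : ℝ) ^ 24 ≤ X := by exact_mod_cast hX
  have hXp : (0 : ℝ) < X := by linarith [show (0 : ℝ) < 2 ^ 24 by norm_num]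
  have h1 : (X : ℝ) / 8 ≤ ((X / 8 + 1 : ℕ) : ℝ) := by
    have : X ≤ 8 * (X / 8 + 1) := by omega
    have h2 : (X : ℝ) ≤ 8 * ((X / 8 + 1 : ℕ) : ℝ) := by exact_mod_cast this
    linarith
  have h2 : Real.log ((X : ℝ) / 8) ≤ Real.log ((X / 8 + 1 : ℕ) : ℝ) :=
    Real.log_le_log (by positivity) h1
  have h3 : Real.log (√(X : ℝ)) ≤ Real.log ((X : ℝ) / 8) := by
    apply Real.log_le_log (Real.sqrt_pos.2 hXp)
    rw [Real.sqrt_le_left (by positivity)]
    have : (64 : ℝ) ≤ X := le_trans (by norm_num) hX'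
    nlinarith
  rw [Real.log_sqrt hXp.le] at h3
  linarith

theorem LAV : ∃ C : ℝ, 0 < C ∧ ∀ X : ℕ, 2 ^ 24 ≤ X →
    ∑ d ∈ (Icc 2 X).filter (fun d => Squarefree d), Lone (dsc d) ≤ C * X := by
  obtain ⟨C, hC, h⟩ := avg_Z
  refine ⟨6 * (C * (8 + 2)), by positivity, ?_⟩
  intro X hX
  obtain ⟨hM1, hM2, _⟩ := M_facts hX
  obtain ⟨M, hM⟩ : ∃ M, M = X / 8 + 1 := ⟨_, rfl⟩
  rw [← hM] at hM1 hM2
  obtain ⟨Z, hZ2, hZ3, hZ4, _⟩ := exists_Z hM1
  have hZ' : (2 : ℝ) ≤ Z := by exact_mod_cast hZ2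
  have hlogZ : (1 / 2 : ℝ) ≤ Real.log Z := by
    have h1 : Real.log 2 ≤ Real.log Z := Real.log_le_log (by norm_num) hZ'
    have := Real.log_two_gt_d9
    linarith
  have hM0 : (0 : ℝ) ≤ M := Nat.cast_nonneg _
  have hMX : (M : ℝ) ≤ X := by exact_mod_cast hM2
  have hmaps : ∀ d ∈ (Icc 2 X).filter (fun d => Squarefree d), d % 8 ∈ ({1, 2, 3, 5, 6, 7} : Finset ℕ) := by
    intro d hd
    rw [mem_filter] at hd
    have h4 : ¬ 4 ∣ d := by
      intro h4
      have := hd.2 2 (by simpa using h4)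
      simp at this
    simp only [mem_insert, mem_singleton]
    omega
  rw [← Finset.sum_fiberwise_of_maps_to hmaps]
  have hc : ∀ c ∈ ({1, 2, 3, 5, 6, 7} : Finset ℕ),
      ∑ d ∈ ((Icc 2 X).filter (fun d => Squarefree d)).filter (fun d => d % 8 = c),
        Lone (dsc d) ≤ C * (8 + 2) * X := by
    intro c hc
    have hc' : 1 ≤ c ∧ c < 8 ∧ c ≠ 4 := by
      simp only [mem_insert, mem_singleton] at hc
      omega
    have h1 := h {1} (fun _ => 1) (by simp) (by simp) Z hZ2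
      (by rw [card_singleton]; exact Nat.one_le_pow _ _ (by omega)) c hc'.1 hc'.2.1 hc'.2.2 M hZ3 hZ4
      (((Icc 2 X).filter (fun d => Squarefree d)).filter (fun d => d % 8 = c)) (by
        intro d hd
        rw [mem_filter, mem_filter, mem_Icc] at hd
        refine ⟨by omega, hd.1.2, ?_, ?_⟩
        · unfold SS
          rw [mem_filter, mem_Ioc]
          omega
        · rw [wt_one])
    refine h1.trans ?_
    have h2 : ∑ t ∈ SS c M, wt {1} (fun _ => 1) t ≤ 8 * M := by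
      have h3 : ∀ t ∈ SS c M, wt {1} (fun _ => (1 : ℝ)) t = 1 := by
        intro t _
        exact wt_one t
      rw [Finset.sum_congr rfl h3, Finset.sum_const, nsmul_eq_mul, mul_one]
      have h4 : (SS c M).card ≤ 8 * M := by
        unfold SS
        refine (Finset.card_filter_le _ _).trans ?_
        simp
      exact_mod_cast h4
    have h3 : M / Real.log Z ≤ 2 * M := by
      rw [div_le_iff₀ (by linarith)]
      nlinarith
    calc C * (∑ t ∈ SS c M, wt {1} (fun _ => 1) t + M / Real.log Z) ≤ C * (8 * M + 2 * M) := by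
          gcongr
      _ = C * (8 + 2) * M := by ring
      _ ≤ C * (8 + 2) * X := by gcongr
  refine (Finset.sum_le_sum hc).trans (le_of_eq ?_)
  rw [Finset.sum_const]
  have : ({1, 2, 3, 5, 6, 7} : Finset ℕ).card = 6 := by decide
  rw [this]
  simp only [nsmul_eq_mul]
  push_cast
  ring

theorem LAP : ∃ C : ℝ, 0 < C ∧ ∀ X : ℕ, 2 ^ 24 ≤ X → ∃ R : ℕ, 2 ≤ R ∧ R ^ 8 ≤ X ∧
    ∑ p ∈ (Ioc R X).filter (fun p => p.Prime), Lone (dsc p) ≤ C * X / Real.log X := by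
  obtain ⟨C, hC, h⟩ := avg_Z
  refine ⟨4 * (C * 240), by positivity, ?_⟩
  intro X hX
  obtain ⟨hM1, hM2, hlogM⟩ := M_facts hX
  obtain ⟨M, hM⟩ : ∃ M, M = X / 8 + 1 := ⟨_, rfl⟩
  rw [← hM] at hM1 hM2 hlogM
  obtain ⟨Z, hZ2, hZ3, hZ4, hZ5⟩ := exists_Z hM1
  have hZ' : (2 : ℝ) ≤ Z := by exact_mod_cast hZ2
  have hlogZ : 0 < Real.log Z := Real.log_pos (by linarith)
  have hM0 : (0 : ℝ) ≤ M := Nat.cast_nonneg _
  have hMX : (M : ℝ) ≤ X := by exact_mod_cast hM2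
  have hX1 : (1 : ℝ) < X := by
    have : 1 < X := lt_of_lt_of_le (by norm_num) hX
    exact_mod_cast this
  have hlogX : 0 < Real.log X := Real.log_pos hX1
  have hR2 : 2 ≤ Z ^ 2 := by nlinarith
  refine ⟨Z ^ 2, hR2, ?_, ?_⟩
  · rw [← pow_mul]
    exact (Nat.pow_le_pow_right (by omega) (by norm_num)).trans (hZ3.trans hM2)
  have hmaps : ∀ p ∈ (Ioc (Z ^ 2) X).filter (fun p => p.Prime), p % 8 ∈ ({1, 3, 5, 7} : Finset ℕ) := by
    intro p hp
    rw [mem_filter, mem_Ioc] at hp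
    have h4 : p % 2 = 1 := by
      rcases hp.2.eq_two_or_odd with h2 | h2
      · omega
      · exact h2
    simp only [mem_insert, mem_singleton]
    omega
  rw [← Finset.sum_fiberwise_of_maps_to hmaps]
  have hc : ∀ c ∈ ({1, 3, 5, 7} : Finset ℕ),
      ∑ p ∈ ((Ioc (Z ^ 2) X).filter (fun p => p.Prime)).filter (fun p => p % 8 = c),
        Lone (dsc p) ≤ C * 240 * X / Real.log X := by
    intro c hc
    have hc' : 1 ≤ c ∧ c < 8 ∧ c ≠ 4 := by
      simp only [mem_insert, mem_singleton] at hc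
      omega
    have hR1 : 1 ≤ Z ^ 2 := by omega
    have h1 := h (sp (Z ^ 2)) (sw (Z ^ 2)) (fun d hd => sp_odd hd) (fun d hd => sw_abs hR1 hd) Z hZ2
      (sp_card _) c hc'.1 hc'.2.1 hc'.2.2 M hZ3 hZ4
      (((Ioc (Z ^ 2) X).filter (fun p => p.Prime)).filter (fun p => p % 8 = c)) (by
        intro p hp
        rw [mem_filter, mem_filter, mem_Ioc] at hp
        refine ⟨hp.1.2.one_lt, hp.1.2.squarefree, ?_, ?_⟩
        · unfold SS
          rw [mem_filter, mem_Ioc]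
          omega
        · rw [wt_prime hR1 hp.1.2 hp.1.1.1])
    refine h1.trans ?_
    have h2 := sw_total (M := M) hR1 hc'.1 hc'.2.1
    have h3 : 2 * (M : ℝ) / Real.log (((Z ^ 2 : ℕ) : ℝ) + 1) ≤ M / Real.log Z := by
      have h4 : 2 * Real.log Z ≤ Real.log (((Z ^ 2 : ℕ) : ℝ) + 1) := by
        push_cast
        calc 2 * Real.log Z = Real.log ((Z : ℝ) ^ 2) := by rw [Real.log_pow]; norm_num
          _ ≤ Real.log ((Z : ℝ) ^ 2 + 1) := Real.log_le_log (by positivity) (by linarith)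
      calc 2 * (M : ℝ) / Real.log (((Z ^ 2 : ℕ) : ℝ) + 1) ≤ 2 * (M : ℝ) / (2 * Real.log Z) :=
            div_le_div_of_nonneg_left (by positivity) (by positivity) h4
        _ = M / Real.log Z := by field_simp
    have h5 : (((Z ^ 2 : ℕ) : ℝ)) ^ 2 ≤ M / Real.log Z := by
      rw [le_div_iff₀ hlogZ]
      have hlogZ2 : Real.log Z ≤ Z := (Real.log_le_sub_one_of_pos (by linarith)).trans (by linarith)
      push_cast
      calc ((Z : ℝ) ^ 2) ^ 2 * Real.log Z ≤ ((Z : ℝ) ^ 2) ^ 2 * Z := by gcongr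
        _ = (Z : ℝ) ^ 5 := by ring
        _ ≤ (Z : ℝ) ^ 20 := pow_le_pow_right₀ (by linarith) (by norm_num)
        _ ≤ M := by exact_mod_cast hZ3
    have h6 : (M : ℝ) / Real.log Z ≤ 80 * X / Real.log X := by
      rw [div_le_div_iff₀ hlogZ hlogX]
      have h7 : Real.log X ≤ 80 * Real.log Z := by linarith
      calc (M : ℝ) * Real.log X ≤ X * (80 * Real.log Z) := by gcongr
        _ = 80 * X * Real.log Z := by ring
    calc C * (∑ t ∈ SS c M, wt (sp (Z ^ 2)) (sw (Z ^ 2)) t + M / Real.log Z) ≤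
          C * (3 * (M / Real.log Z)) := by
            apply mul_le_mul_of_nonneg_left _ hC.le
            linarith
      _ ≤ C * (3 * (80 * X / Real.log X)) := by gcongr
      _ = C * 240 * X / Real.log X := by ring
  refine (Finset.sum_le_sum hc).trans (le_of_eq ?_)
  rw [Finset.sum_const]
  have : ({1, 3, 5, 7} : Finset ℕ).card = 4 := by decide
  rw [this]
  simp only [nsmul_eq_mul]
  push_cast
  ring

/-- Markov's inequality -/
theorem markov (T : Finset ℕ) (f : ℕ → ℝ) (hf : ∀ d ∈ T, 0 ≤ f d) (l : ℝ) :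
    ((T.filter (fun d => l < f d)).card : ℝ) * l ≤ ∑ d ∈ T, f d := by
  calc ((T.filter (fun d => l < f d)).card : ℝ) * l = ∑ d ∈ T.filter (fun d => l < f d), l := by
        rw [Finset.sum_const, nsmul_eq_mul]
    _ ≤ ∑ d ∈ T.filter (fun d => l < f d), f d :=
        Finset.sum_le_sum (fun d hd => (mem_filter.1 hd).2.le)
    _ ≤ ∑ d ∈ T, f d :=
        Finset.sum_le_sum_of_subset_of_nonneg (Finset.filter_subset _ _) (fun d hd _ => hf d hd)

end Run7.h940.CN
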