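import Mathlib

/-! Sums of nonnegative multiplicative functions with `f (p ^ a) ≤ a + 1`. -/

set_option autoImplicit false

namespace Run7.h940.CN

open Finset

/-- nonnegative multiplicative functions with `f (p ^ a) ≤ a + 1` -/
structure NM (f : ℕ → ℝ) : Prop where
  nn : ∀ n, 0 ≤ f n
  one : f 1 = 1
  mul : ∀ a b : ℕ, a.Coprime b → f (a * b) = f a * f b
  pp : ∀ p a : ℕ, p.Prime → f (p ^ a) ≤ (a : ℝ) + 1

theorem l_aux {y : ℝ} (hy : 1 ≤ y) :
    (2 * Real.log y + 1) * (2 * Real.log y) * (2 * √y * Real.log y) ≤ 4352 * y := by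
  obtain ⟨s, hs⟩ : ∃ s, s = y ^ (1 / 8 : ℝ) := ⟨_, rfl⟩
  have hy0 : 0 < y := by linarith
  have hs1 : 1 ≤ s := by rw [hs]; exact Real.one_le_rpow hy (by norm_num)
  have hl : Real.log y ≤ 8 * s := by
    have h := Real.log_le_rpow_div hy0.le (show (0 : ℝ) < 1 / 8 by norm_num)
    rw [← hs] at h
    linarith
  have hl0 : 0 ≤ Real.log y := Real.log_nonneg hy
  have hy8 : y = s ^ 8 := by
    rw [hs, ← Real.rpow_natCast, ← Real.rpow_mul hy0.le]
    norm_num
  have hsq : √y = s ^ 4 := by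
    rw [hy8, show s ^ 8 = (s ^ 4) ^ 2 by ring]
    exact Real.sqrt_sq (by positivity)
  rw [hsq]
  have hs0 : 0 ≤ s := by linarith
  calc (2 * Real.log y + 1) * (2 * Real.log y) * (2 * s ^ 4 * Real.log y)
      ≤ (2 * (8 * s) + s) * (2 * (8 * s)) * (2 * s ^ 4 * (8 * s)) := by gcongr
    _ = 4352 * s ^ 7 := by ring
    _ ≤ 4352 * s ^ 8 := by
        have : s ^ 7 ≤ s ^ 8 := pow_le_pow_right₀ hs1 (by norm_num)
        linarith
    _ = 4352 * y := by rw [hy8]

theorem G_le {f : ℕ → ℝ} (hf : NM f) (y : ℕ) :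
    ∑ q ∈ (Icc 1 y).filter IsPrimePow, f q * Real.log q ≤ 4355 * y := by
  classical
  rcases Nat.eq_zero_or_pos y with rfl | hy
  · simp
  have hy1 : (1 : ℝ) ≤ y := by exact_mod_cast hy
  have hy0 : (0 : ℝ) < y := by linarith
  have hl0 : 0 ≤ Real.log y := Real.log_nonneg hy1
  rw [← Finset.sum_filter_add_sum_filter_not ((Icc 1 y).filter IsPrimePow) Nat.Prime]
  have h1 : ∑ q ∈ ((Icc 1 y).filter IsPrimePow).filter Nat.Prime, f q * Real.log q ≤ 3 * y := by
    have h2 : ∀ q ∈ ((Icc 1 y).filter IsPrimePow).filter Nat.Prime,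
        f q * Real.log q ≤ 2 * Real.log q := by
      intro q hq
      rw [mem_filter] at hq
      have h3 := hf.pp q 1 hq.2
      rw [pow_one] at h3
      norm_num at h3
      exact mul_le_mul_of_nonneg_right h3 (Real.log_natCast_nonneg q)
    refine (Finset.sum_le_sum h2).trans ?_
    rw [← Finset.mul_sum]
    have h4 : ∑ q ∈ ((Icc 1 y).filter IsPrimePow).filter Nat.Prime, Real.log q ≤
        Chebyshev.theta y := by
      unfold Chebyshev.theta
      rw [Nat.floor_natCast]
      apply Finset.sum_le_sum_of_subset_of_nonneg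
      · intro q hq
        rw [mem_filter, mem_filter, mem_Icc] at hq
        rw [mem_filter, mem_Ioc]
        exact ⟨⟨by omega, hq.1.1.2⟩, hq.2⟩
      · intro q _ _
        exact Real.log_natCast_nonneg q
    have h5 := Chebyshev.theta_le_log4_mul_x hy0.le
    have h6 : Real.log 4 ≤ 3 / 2 := by
      have : Real.log 4 = 2 * Real.log 2 := by
        rw [show (4 : ℝ) = 2 ^ 2 by norm_num, Real.log_pow]
        norm_num
      have h7 := Real.log_two_lt_d9
      linarith
    nlinarith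
  have h2 : ∑ q ∈ ((Icc 1 y).filter IsPrimePow).filter (fun q => ¬ q.Prime), f q * Real.log q ≤
      4352 * y := by
    obtain ⟨L, hL⟩ : ∃ L, L = (2 * Real.log y + 1) * (2 * Real.log y) := ⟨_, rfl⟩
    have hL0 : 0 ≤ L := by rw [hL]; positivity
    have h3 : ∀ q ∈ ((Icc 1 y).filter IsPrimePow).filter (fun q => ¬ q.Prime),
        f q * Real.log q ≤ L * ArithmeticFunction.vonMangoldt q := by
      intro q hq
      rw [mem_filter, mem_filter, mem_Icc] at hq
      obtain ⟨⟨⟨hq1, hqy⟩, hpp⟩, _⟩ := hq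
      obtain ⟨p, k, hp, hk, rfl⟩ := hpp
      have hp' : p.Prime := hp.nat_prime
      have h4 := hf.pp p k hp'
      rw [ArithmeticFunction.vonMangoldt_apply_pow hk.ne', ArithmeticFunction.vonMangoldt_apply_prime hp']
      have hkl : (k : ℝ) ≤ 2 * Real.log y := by
        have h5 : 2 ^ k ≤ y := (Nat.pow_le_pow_left hp'.two_le k).trans hqy
        have h6 : ((2 : ℝ)) ^ k ≤ y := by exact_mod_cast h5
        have h7 := Real.log_le_log (by positivity) h6
        rw [Real.log_pow] at h7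
        have h8 := Real.log_two_gt_d9
        have h9 : (0 : ℝ) ≤ k := Nat.cast_nonneg k
        nlinarith
      have hlp : 0 ≤ Real.log p := Real.log_natCast_nonneg p
      push_cast
      rw [Real.log_pow]
      calc f (p ^ k) * (k * Real.log p) ≤ (k + 1) * (k * Real.log p) := by
            apply mul_le_mul_of_nonneg_right h4 (by positivity)
        _ = ((k + 1) * k) * Real.log p := by ring
        _ ≤ L * Real.log p := by
            rw [hL]
            gcongr
    refine (Finset.sum_le_sum h3).trans ?_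
    rw [← Finset.mul_sum]
    have h4 : ∑ q ∈ ((Icc 1 y).filter IsPrimePow).filter (fun q => ¬ q.Prime),
        ArithmeticFunction.vonMangoldt q ≤ Chebyshev.psi y - Chebyshev.theta y := by
      rw [Chebyshev.psi_sub_theta_eq_sum_not_prime, Nat.floor_natCast]
      apply Finset.sum_le_sum_of_subset_of_nonneg
      · intro q hq
        rw [mem_filter, mem_filter, mem_Icc] at hq
        rw [mem_filter, mem_Ioc]
        exact ⟨⟨by omega, hq.1.1.2⟩, hq.2⟩
      · intro q _ _
        exact ArithmeticFunction.vonMangoldt_nonneg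
    have h5 := Chebyshev.psi_sub_theta_le hy1
    calc L * _ ≤ L * (2 * √(y : ℝ) * Real.log y) := mul_le_mul_of_nonneg_left (h4.trans h5) hL0
      _ ≤ 4352 * y := by
          rw [hL]
          exact l_aux hy1
  linarith

/-- the sum with the logarithm -/
theorem log_sum {f : ℕ → ℝ} (hf : NM f) (N : ℕ) :
    ∑ n ∈ Icc 1 N, f n * Real.log n ≤ 4355 * N * ∑ m ∈ Icc 1 N, f m / m := by
  classical
  obtain ⟨Tg, hTg⟩ : ∃ T : Finset (ℕ × ℕ), T = ((Icc 1 N) ×ˢ (Icc 1 N)).filter
    (fun x => IsPrimePow x.1 ∧ x.1 * x.2 ≤ N) := ⟨_, rfl⟩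
  obtain ⟨F, hF⟩ : ∃ F : ℕ × ℕ → ℝ, F = fun x => f x.2 * (f x.1 * Real.log x.1) := ⟨_, rfl⟩
  have hF0 : ∀ x, 0 ≤ F x := by
    intro x
    rw [hF]
    exact mul_nonneg (hf.nn _) (mul_nonneg (hf.nn _) (Real.log_natCast_nonneg _))
  obtain ⟨Sg, hSg⟩ : ∃ S : Finset (Σ _ : ℕ, ℕ), S = (Icc 1 N).sigma (fun n => n.primeFactors) :=
    ⟨_, rfl⟩
  obtain ⟨φ, hφ⟩ : ∃ φ : (Σ _ : ℕ, ℕ) → ℕ × ℕ, φ = fun x =>
    (x.2 ^ x.1.factorization x.2, x.1 / x.2 ^ x.1.factorization x.2) := ⟨_, rfl⟩
  have e1 : ∑ n ∈ Icc 1 N, f n * Real.log n = ∑ x ∈ Sg, F (φ x) := by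
    rw [hSg, Finset.sum_sigma]
    apply Finset.sum_congr rfl
    intro n hn
    rw [mem_Icc] at hn
    rw [Real.log_nat_eq_sum_factorization, Finsupp.sum, Finset.mul_sum, Nat.support_factorization]
    apply Finset.sum_congr rfl
    intro p hp
    have hpp := Nat.prime_of_mem_primeFactors hp
    rw [hF, hφ]
    simp only
    have h1 : f n = f (p ^ n.factorization p) * f (n / p ^ n.factorization p) := by
      rw [← hf.mul _ _ (Nat.Coprime.pow_left _ (Nat.coprime_ordCompl hpp (by omega))),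
        Nat.ordProj_mul_ordCompl_eq_self]
    rw [h1]
    push_cast
    rw [Real.log_pow]
    ring
  have hinj : Set.InjOn φ (Sg : Set (Σ _ : ℕ, ℕ)) := by
    rintro ⟨n, p⟩ hx ⟨n', p'⟩ hx' h
    rw [Finset.mem_coe, hSg, Finset.mem_sigma] at hx hx'
    simp only [mem_Icc] at hx hx'
    rw [hφ] at h
    simp only [Prod.mk.injEq] at h
    have hpp := Nat.prime_of_mem_primeFactors hx.2
    have hpp' := Nat.prime_of_mem_primeFactors hx'.2
    have hn : n = n' := by
      have h3 := Nat.ordProj_mul_ordCompl_eq_self n p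
      have h4 := Nat.ordProj_mul_ordCompl_eq_self n' p'
      have h5 : p ^ n.factorization p * (n / p ^ n.factorization p) =
          p' ^ n'.factorization p' * (n' / p' ^ n'.factorization p') :=
        congrArg₂ (· * ·) h.1 h.2
      rw [h3, h4] at h5
      exact h5
    have hv : n.factorization p ≠ 0 := by
      have := (hpp.dvd_iff_one_le_factorization (by omega)).1 (Nat.dvd_of_mem_primeFactors hx.2)
      omega
    have hpe : p = p' := by
      have h2 : p ∣ p' ^ n'.factorization p' := by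
        rw [← h.1]
        exact dvd_pow_self p hv
      exact (Nat.prime_dvd_prime_iff_eq hpp hpp').1 (hpp.dvd_of_dvd_pow h2)
    subst hn
    subst hpe
    rfl
  have hsub : Sg.image φ ⊆ Tg := by
    intro x hx
    rw [mem_image] at hx
    obtain ⟨⟨n, p⟩, hx1, rfl⟩ := hx
    rw [hSg, Finset.mem_sigma] at hx1
    simp only [mem_Icc] at hx1
    have hpp := Nat.prime_of_mem_primeFactors hx1.2
    have hn0 : n ≠ 0 := by omega
    have hv : n.factorization p ≠ 0 := by
      have := (hpp.dvd_iff_one_le_factorization (by omega)).1 (Nat.dvd_of_mem_primeFactors hx1.2)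
      omega
    rw [hTg, hφ, mem_filter, mem_product, mem_Icc, mem_Icc]
    simp only
    have h1 : p ^ n.factorization p ≤ n := Nat.ordProj_le p hn0
    have h2 : 0 < n / p ^ n.factorization p := Nat.ordCompl_pos p hn0
    have h3 : n / p ^ n.factorization p ≤ n := Nat.div_le_self _ _
    refine ⟨⟨⟨Nat.pos_of_ne_zero (pow_ne_zero _ hpp.ne_zero), by omega⟩, h2, by omega⟩, ?_, ?_⟩
    · exact ⟨p, n.factorization p, hpp.prime, Nat.pos_of_ne_zero hv, rfl⟩
    · rw [Nat.ordProj_mul_ordCompl_eq_self]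
      omega
  rw [e1, ← Finset.sum_image (f := F) hinj]
  refine (Finset.sum_le_sum_of_subset_of_nonneg hsub (fun x _ _ => hF0 x)).trans ?_
  -- reorganise
  have e2 : ∑ x ∈ Tg, F x = ∑ m ∈ Icc 1 N, f m *
      ∑ q ∈ (Icc 1 (N / m)).filter IsPrimePow, f q * Real.log q := by
    rw [hTg, Finset.sum_filter, Finset.sum_product_right]
    apply Finset.sum_congr rfl
    intro m hm
    rw [mem_Icc] at hm
    rw [← Finset.sum_filter, Finset.mul_sum]
    have hs : (Icc 1 N).filter (fun q => IsPrimePow q ∧ q * m ≤ N) =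
        (Icc 1 (N / m)).filter IsPrimePow := by
      ext q
      rw [mem_filter, mem_filter, mem_Icc, mem_Icc, Nat.le_div_iff_mul_le (by omega)]
      constructor
      · rintro ⟨⟨h1, h2⟩, h3, h4⟩
        exact ⟨⟨h1, h4⟩, h3⟩
      · rintro ⟨⟨h1, h4⟩, h3⟩
        exact ⟨⟨h1, le_trans (Nat.le_mul_of_pos_right q (by omega)) h4⟩, h3, h4⟩
    rw [hs, hF]
  rw [e2, Finset.mul_sum]
  apply Finset.sum_le_sum
  intro m hm
  rw [mem_Icc] at hm
  have hm0 : (0 : ℝ) < m := by exact_mod_cast hm.1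
  have h1 := G_le hf (N / m)
  have h2 : ((N / m : ℕ) : ℝ) ≤ N / m := Nat.cast_div_le
  calc f m * ∑ q ∈ (Icc 1 (N / m)).filter IsPrimePow, f q * Real.log q
      ≤ f m * (4355 * (N / m)) := by
        apply mul_le_mul_of_nonneg_left _ (hf.nn m)
        refine h1.trans ?_
        gcongr
    _ = 4355 * N * (f m / m) := by ring

/-- the inequality of Hall and Tenenbaum, Halberstam and Richert -/
theorem HR {f : ℕ → ℝ} (hf : NM f) {N : ℕ} (hN : 2 ≤ N) :
    ∑ n ∈ Icc 1 N, f n ≤ 4356 * N / Real.log N * ∑ m ∈ Icc 1 N, f m / m := by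
  have hN1 : (1 : ℝ) < N := by exact_mod_cast hN
  have hN0 : (0 : ℝ) < N := by linarith
  have hlog : 0 < Real.log N := Real.log_pos hN1
  have h1 := log_sum hf N
  have h2 : ∑ n ∈ Icc 1 N, f n * (Real.log N - Real.log n) ≤ N * ∑ m ∈ Icc 1 N, f m / m := by
    rw [Finset.mul_sum]
    apply Finset.sum_le_sum
    intro n hn
    rw [mem_Icc] at hn
    have hn0 : (0 : ℝ) < n := by exact_mod_cast hn.1
    have h3 : Real.log N - Real.log n ≤ N / n := by
      rw [← Real.log_div hN0.ne' hn0.ne']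
      have := Real.log_le_sub_one_of_pos (show (0 : ℝ) < N / n by positivity)
      linarith
    calc f n * (Real.log N - Real.log n) ≤ f n * (N / n) := mul_le_mul_of_nonneg_left h3 (hf.nn n)
      _ = N * (f n / n) := by ring
  have e1 : Real.log N * ∑ n ∈ Icc 1 N, f n = ∑ n ∈ Icc 1 N, f n * Real.log n +
      ∑ n ∈ Icc 1 N, f n * (Real.log N - Real.log n) := by
    rw [Finset.mul_sum, ← Finset.sum_add_distrib]
    apply Finset.sum_congr rfl
    intro n _
    ring
  have h3 : Real.log N * ∑ n ∈ Icc 1 N, f n ≤ 4356 * N * ∑ m ∈ Icc 1 N, f m / m := by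
    rw [e1]
    linarith
  have e3 : 4356 * (N : ℝ) / Real.log N * ∑ m ∈ Icc 1 N, f m / m =
      (4356 * N * ∑ m ∈ Icc 1 N, f m / m) / Real.log N := by ring
  rw [e3, le_div_iff₀ hlog, mul_comm]
  exact h3

end Run7.h940.CN
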