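import Pool.Agent.Run7.h940.CN.E1
import Pool.Agent.Run7.h940.CN.A4
import Pool.Agent.Helper559.Mertens

/-! The mean of the divisor sum of `chi t` in terms of a sum over primes. -/

set_option autoImplicit false

namespace Run7.h940.CN

open Finset Pool.Agent.H38R2.CG

theorem tail_hasSum : HasSum (fun e : ℕ => ((e : ℝ) + 3) * (1 / 2) ^ e) 8 := by
  have h1 := hasSum_coe_mul_geometric_of_norm_lt_one (𝕜 := ℝ) (r := 1 / 2) (by norm_num)
  have h2 := (hasSum_geometric_of_lt_one (r := (1 / 2 : ℝ)) (by norm_num) (by norm_num)).mul_left 3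
  have h3 := h1.add h2
  have e1 : (1 / 2 : ℝ) / (1 - 1 / 2) ^ 2 + 3 * (1 - 1 / 2)⁻¹ = 8 := by norm_num
  rw [e1] at h3
  refine h3.congr_fun ?_
  intro e
  ring

theorem euler_le {f : ℕ → ℝ} (hf : NM f) (N : ℕ) :
    ∑ m ∈ Icc 1 N, f m / m ≤ Real.exp (∑ p ∈ (Icc 1 N).filter Nat.Prime, f p / p + 16) := by
  classical
  obtain ⟨g, hg⟩ : ∃ g : ℕ → ℝ, g = fun n => f n / n := ⟨_, rfl⟩
  have hg0 : ∀ n, 0 ≤ g n := by
    intro n
    rw [hg]
    exact div_nonneg (hf.nn n) (Nat.cast_nonneg n)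
  have hg1 : g 1 = 1 := by
    rw [hg]
    simp [hf.one]
  have hgm : ∀ {m n : ℕ}, Nat.Coprime m n → g (m * n) = g m * g n := by
    intro m n h
    rw [hg]
    simp only
    rw [hf.mul m n h]
    push_cast
    rw [mul_div_mul_comm]
  -- prime powers
  have hpow : ∀ p : ℕ, p.Prime → ∀ e : ℕ, g (p ^ (e + 2)) ≤ ((p : ℝ) ^ 2)⁻¹ * (((e : ℝ) + 3) * (1 / 2) ^ e) := by
    intro p hp e
    rw [hg]
    simp only
    have h1 := hf.pp p (e + 2) hp
    have hp2 : (2 : ℝ) ≤ p := by exact_mod_cast hp.two_le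
    have hp0 : (0 : ℝ) < p := by linarith
    push_cast at h1 ⊢
    have h2 : (2 : ℝ) ^ e ≤ (p : ℝ) ^ e := by gcongr
    rw [div_le_iff₀ (by positivity)]
    have e1 : ((p : ℝ) ^ 2)⁻¹ * (((e : ℝ) + 3) * (1 / 2) ^ e) * (p : ℝ) ^ (e + 2) =
        ((e : ℝ) + 3) * ((p : ℝ) ^ e / 2 ^ e) := by
      rw [pow_add, one_div, inv_pow]
      field_simp
    rw [e1]
    have h3 : (1 : ℝ) ≤ (p : ℝ) ^ e / 2 ^ e := by
      rw [one_le_div (by positivity)]
      exact h2
    have h4 : (0 : ℝ) ≤ (e : ℝ) + 3 := by positivity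
    nlinarith
  have hsum2 : ∀ p : ℕ, p.Prime → Summable (fun e : ℕ => g (p ^ (e + 2))) := by
    intro p hp
    apply Summable.of_nonneg_of_le (fun e => hg0 _) (hpow p hp)
    exact tail_hasSum.summable.mul_left _
  have hsum : ∀ {p : ℕ}, p.Prime → Summable (fun e : ℕ => ‖g (p ^ e)‖) := by
    intro p hp
    have h1 : (fun e : ℕ => ‖g (p ^ e)‖) = fun e : ℕ => g (p ^ e) := by
      ext e
      exact Real.norm_of_nonneg (hg0 _)
    rw [h1]
    exact (summable_nat_add_iff 2).1 (hsum2 p hp)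
  have hloc : ∀ p : ℕ, p.Prime → ∑' e : ℕ, g (p ^ e) ≤ Real.exp (f p / p + 8 * ((p : ℝ) ^ 2)⁻¹) := by
    intro p hp
    have hs : Summable (fun e : ℕ => g (p ^ e)) := (summable_nat_add_iff 2).1 (hsum2 p hp)
    rw [← hs.sum_add_tsum_nat_add 2]
    have h1 : ∑' e : ℕ, g (p ^ (e + 2)) ≤ ((p : ℝ) ^ 2)⁻¹ * 8 := by
      rw [← (tail_hasSum.mul_left (((p : ℝ) ^ 2)⁻¹)).tsum_eq]
      exact (hsum2 p hp).tsum_le_tsum (hpow p hp) (tail_hasSum.summable.mul_left _)
    have h2 : ∑ e ∈ Finset.range 2, g (p ^ e) = 1 + f p / p := by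
      rw [Finset.sum_range_succ, Finset.sum_range_one, pow_zero, pow_one, hg1, hg]
    rw [h2]
    have h3 := Real.add_one_le_exp (f p / p + 8 * ((p : ℝ) ^ 2)⁻¹)
    linarith
  have h1 := EulerProduct.summable_and_hasSum_smoothNumbers_prod_primesBelow_tsum hg1 hgm hsum (N + 1)
  have h2 : HasSum ((N + 1).smoothNumbers.indicator g)
      (∏ p ∈ (N + 1).primesBelow, ∑' e : ℕ, g (p ^ e)) :=
    (hasSum_subtype_iff_indicator).1 h1.2
  have h3 := sum_le_hasSum (Icc 1 N) (fun i _ => Set.indicator_nonneg (fun x _ => hg0 x) i) h2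
  have h4 : ∑ n ∈ Icc 1 N, (N + 1).smoothNumbers.indicator g n = ∑ m ∈ Icc 1 N, f m / m := by
    apply Finset.sum_congr rfl
    intro n hn
    rw [mem_Icc] at hn
    rw [Set.indicator_of_mem, hg]
    exact Nat.mem_smoothNumbers_of_lt (by omega) (by omega)
  rw [h4] at h3
  refine h3.trans ?_
  have h5 : ∏ p ∈ (N + 1).primesBelow, ∑' e : ℕ, g (p ^ e) ≤
      ∏ p ∈ (N + 1).primesBelow, Real.exp (f p / p + 8 * ((p : ℝ) ^ 2)⁻¹) := by
    apply Finset.prod_le_prod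
    · intro p _
      exact tsum_nonneg (fun e => hg0 _)
    · intro p hp
      exact hloc p (Nat.prime_of_mem_primesBelow hp)
  refine h5.trans ?_
  rw [← Real.exp_sum]
  apply Real.exp_le_exp.2
  rw [Finset.sum_add_distrib]
  have hset : (N + 1).primesBelow = (Icc 1 N).filter Nat.Prime := by
    ext p
    rw [Nat.mem_primesBelow, mem_filter, mem_Icc]
    constructor
    · rintro ⟨h, hp⟩
      exact ⟨⟨hp.one_lt.le, by omega⟩, hp⟩
    · rintro ⟨h, hp⟩
      exact ⟨by omega, hp⟩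
  rw [hset]
  have h6 : ∑ p ∈ (Icc 1 N).filter Nat.Prime, 8 * ((p : ℝ) ^ 2)⁻¹ ≤ 16 := by
    rw [← Finset.mul_sum]
    have h7 : ∑ p ∈ (Icc 1 N).filter Nat.Prime, ((p : ℝ) ^ 2)⁻¹ ≤ ∑ p ∈ Icc 1 N, ((p : ℝ) ^ 2)⁻¹ :=
      Finset.sum_le_sum_of_subset_of_nonneg (Finset.filter_subset _ _) (fun _ _ _ => by positivity)
    have h8 := Pool.Agent.Helper923.PPS.sum_inv_sq_le N
    linarith
  linarith

theorem rr_NM (t : ℕ) : NM (rr t) where
  nn := rr_nonneg t
  one := by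
    unfold rr
    simp [N2h.chi_one]
  mul := by
    intro a b hab
    unfold rr
    have h := N2h.sum_mul (t : ℤ) hab
    exact_mod_cast h
  pp := by
    intro p a hp
    unfold rr
    have h := N2h.sum_pow (t : ℤ) hp a
    have h1 : ((∑ m ∈ (p ^ a).divisors, chi t m : ℤ) : ℝ) =
        ((∑ i ∈ Finset.range (a + 1), chi t p ^ i : ℤ) : ℝ) := by rw [h]
    push_cast at h1
    rw [h1]
    calc ∑ i ∈ Finset.range (a + 1), (chi t p : ℝ) ^ i ≤ ∑ i ∈ Finset.range (a + 1), (1 : ℝ) := by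
          apply Finset.sum_le_sum
          intro i _
          calc (chi t p : ℝ) ^ i ≤ |(chi t p : ℝ) ^ i| := le_abs_self _
            _ = |(chi t p : ℝ)| ^ i := abs_pow _ _
            _ ≤ 1 := pow_le_one₀ (abs_nonneg _) (abs_chi_le t p)
      _ = (a : ℝ) + 1 := by simp

theorem rr_prime (t : ℕ) {p : ℕ} (hp : p.Prime) : rr t p = 1 + (chi t p : ℝ) := by
  unfold rr
  rw [hp.divisors, Finset.sum_pair hp.one_lt.ne, N2h.chi_one]
  norm_num

/-- the mean of the divisor sums -/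
theorem rr_mean : ∃ C : ℝ, 0 < C ∧ ∀ t N : ℕ, 2 ≤ N →
    (∑ n ∈ Icc 1 N, rr t n) / N ≤
      C * Real.exp (∑ p ∈ (Icc 1 N).filter Nat.Prime, (chi t p : ℝ) / p) := by
  obtain ⟨C, hC, hM⟩ := Pool.Agent.Helper559.mertens
  refine ⟨4356 * Real.exp (16 + C), by positivity, ?_⟩
  intro t N hN
  have hN1 : (1 : ℝ) < N := by exact_mod_cast hN
  have hN0 : (0 : ℝ) < N := by linarith
  have hlog : 0 < Real.log N := Real.log_pos hN1
  have h1 := HR (rr_NM t) hN
  have h2 := euler_le (rr_NM t) N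
  have h3 := (abs_le.1 (hM N hN)).2
  have e1 : ∑ p ∈ (Icc 1 N).filter Nat.Prime, rr t p / p =
      Pool.Agent.Helper559.S N + ∑ p ∈ (Icc 1 N).filter Nat.Prime, (chi t p : ℝ) / p := by
    unfold Pool.Agent.Helper559.S
    rw [← Finset.sum_add_distrib]
    apply Finset.sum_congr rfl
    intro p hp
    rw [rr_prime t (mem_filter.1 hp).2]
    ring
  rw [e1] at h2
  obtain ⟨E, hE⟩ : ∃ E, E = ∑ p ∈ (Icc 1 N).filter Nat.Prime, (chi t p : ℝ) / p := ⟨_, rfl⟩
  rw [← hE] at h2 ⊢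
  have h4 : Real.exp (Pool.Agent.Helper559.S N + E + 16) ≤
      Real.log N * (Real.exp (16 + C) * Real.exp E) := by
    calc Real.exp (Pool.Agent.Helper559.S N + E + 16) ≤
          Real.exp (Real.log (Real.log N) + ((16 + C) + E)) := by
          apply Real.exp_le_exp.2
          linarith
      _ = Real.log N * (Real.exp (16 + C) * Real.exp E) := by
          rw [Real.exp_add, Real.exp_log hlog, Real.exp_add (16 + C) E]
  rw [div_le_iff₀ hN0]
  calc ∑ n ∈ Icc 1 N, rr t n ≤ 4356 * N / Real.log N * ∑ m ∈ Icc 1 N, rr t m / m := h1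
    _ ≤ 4356 * N / Real.log N * (Real.log N * (Real.exp (16 + C) * Real.exp E)) := by
        apply mul_le_mul_of_nonneg_left (h2.trans h4) (by positivity)
    _ = 4356 * Real.exp (16 + C) * Real.exp E * N := by
        field_simp

end Run7.h940.CN
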