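import Pool.Agent.Run7.h940.CN.E2
import Pool.Agent.Run7.h940.CN.A5

/-! The second moment of the sum over primes, and the size of `L(1, chi)` outside a small set. -/

set_option autoImplicit false

namespace Run7.h940.CN

open Finset Pool.Agent.H38R2.CG
open Pool.Agent.Q276.PL (dsc)

/-- the sum over the primes in `(Y, Z]` -/
noncomputable def Sm (Y Z t : ℕ) : ℝ := ∑ p ∈ (Ioc Y Z).filter Nat.Prime, (chi t p : ℝ) / p

theorem sum_inv_sq_tail (Y Z : ℕ) (hY : 1 ≤ Y) :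
    ∑ n ∈ Ioc Y Z, ((n : ℝ) ^ 2)⁻¹ ≤ (Y : ℝ)⁻¹ := by
  rcases Nat.lt_or_ge Z Y with h | h
  · rw [Finset.Ioc_eq_empty (by omega), Finset.sum_empty]
    positivity
  · have key : ∑ n ∈ Ioc Y Z, ((n : ℝ) ^ 2)⁻¹ ≤ (Y : ℝ)⁻¹ - (Z : ℝ)⁻¹ := by
      induction Z, h using Nat.le_induction with
      | base => simp
      | succ Z hZ ih =>
        rw [Finset.sum_Ioc_succ_top hZ]
        have hZ0 : (0 : ℝ) < Z := by exact_mod_cast (by omega : 0 < Z)
        have h1 : ((((Z + 1 : ℕ) : ℝ)) ^ 2)⁻¹ ≤ (Z : ℝ)⁻¹ - (((Z + 1 : ℕ) : ℝ))⁻¹ := by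
          push_cast
          have e1 : (Z : ℝ)⁻¹ - ((Z : ℝ) + 1)⁻¹ = (Z * ((Z : ℝ) + 1))⁻¹ := by
            field_simp
            ring
          rw [e1]
          apply inv_anti₀ (by positivity)
          nlinarith
        linarith
    have hZ0 : (0 : ℝ) ≤ (Z : ℝ)⁻¹ := by positivity
    linarith

theorem second_moment {C : ℝ} (hC : 0 ≤ C)
    (hPV : ∀ (q : ℕ) (χ : DirichletCharacter ℂ q), 2 ≤ q → χ ≠ 1 →
      ∀ a b : ℕ, ‖∑ n ∈ Finset.Ioc a b, χ (n : ZMod q)‖ ≤ C * √(q : ℝ) * Real.log q)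
    {Y Z c M : ℕ} (hY : 2 ≤ Y) (hZ : 2 ≤ Z) (hc : c < 8) :
    ∑ t ∈ SS c M, Sm Y Z t ^ 2 ≤ 8 * M / Y + (Z : ℝ) ^ 2 * (C * (2 * Real.log Z)) := by
  classical
  obtain ⟨P, hP⟩ : ∃ P, P = (Ioc Y Z).filter Nat.Prime := ⟨_, rfl⟩
  have hPm : ∀ p ∈ P, Y < p ∧ p ≤ Z ∧ p.Prime ∧ Odd p := by
    intro p hp
    rw [hP, mem_filter, mem_Ioc] at hp
    exact ⟨hp.1.1, hp.1.2, hp.2, hp.2.odd_of_ne_two (by omega)⟩
  have hlogZ : 0 ≤ Real.log Z := Real.log_natCast_nonneg Z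
  have e1 : ∑ t ∈ SS c M, Sm Y Z t ^ 2 =
      ∑ p ∈ P, ∑ q ∈ P, ((p : ℝ)⁻¹ * (q : ℝ)⁻¹) *
        ∑ t ∈ SS c M, ((jacobiSym (t : ℤ) (p * q) : ℤ) : ℝ) := by
    have h1 : ∀ t ∈ SS c M, Sm Y Z t ^ 2 = ∑ p ∈ P, ∑ q ∈ P, ((p : ℝ)⁻¹ * (q : ℝ)⁻¹) *
        ((jacobiSym (t : ℤ) (p * q) : ℤ) : ℝ) := by
      intro t _
      unfold Sm
      rw [← hP, sq, Finset.sum_mul_sum]
      apply Finset.sum_congr rfl
      intro p hp
      apply Finset.sum_congr rfl
      intro q hq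
      obtain ⟨_, _, hp3, hp4⟩ := hPm p hp
      obtain ⟨_, _, hq3, hq4⟩ := hPm q hq
      have : NeZero p := ⟨hp3.ne_zero⟩
      have : NeZero q := ⟨hq3.ne_zero⟩
      rw [KRh.chi_odd hp4, KRh.chi_odd hq4, jacobiSym.mul_right]
      push_cast
      ring
    rw [Finset.sum_congr rfl h1, Finset.sum_comm]
    apply Finset.sum_congr rfl
    intro p _
    rw [Finset.sum_comm]
    apply Finset.sum_congr rfl
    intro q _
    rw [Finset.mul_sum]
  rw [e1]
  have hSS : ((SS c M).card : ℝ) ≤ 8 * M := by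
    have h4 : (SS c M).card ≤ 8 * M := by
      unfold SS
      refine (Finset.card_filter_le _ _).trans ?_
      simp
    exact_mod_cast h4
  have h2 : ∀ p ∈ P, ∀ q ∈ P, ((p : ℝ)⁻¹ * (q : ℝ)⁻¹) *
        ∑ t ∈ SS c M, ((jacobiSym (t : ℤ) (p * q) : ℤ) : ℝ) ≤
      (if p = q then ((p : ℝ) ^ 2)⁻¹ * (8 * M) else 0) + C * (2 * Real.log Z) := by
    intro p hp q hq
    obtain ⟨hp1, hp2, hp3, hp4⟩ := hPm p hp
    obtain ⟨hq1, hq2, hq3, hq4⟩ := hPm q hq
    have hE : 0 ≤ C * (2 * Real.log Z) := by positivity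
    have hp0 : (0 : ℝ) < p := by exact_mod_cast hp3.pos
    have hq0 : (0 : ℝ) < q := by exact_mod_cast hq3.pos
    split_ifs with hpq
    · subst hpq
      have h3 : ∑ t ∈ SS c M, ((jacobiSym (t : ℤ) (p * p) : ℤ) : ℝ) ≤ 8 * M := by
        calc ∑ t ∈ SS c M, ((jacobiSym (t : ℤ) (p * p) : ℤ) : ℝ) ≤ ∑ t ∈ SS c M, (1 : ℝ) := by
              apply Finset.sum_le_sum
              intro t _
              exact (abs_le.1 (LM2h.abs_jac t (p * p))).2
          _ = ((SS c M).card : ℝ) := by simp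
          _ ≤ 8 * M := hSS
      have h4 : ((p : ℝ)⁻¹ * (p : ℝ)⁻¹) * ∑ t ∈ SS c M, ((jacobiSym (t : ℤ) (p * p) : ℤ) : ℝ) ≤
          ((p : ℝ)⁻¹ * (p : ℝ)⁻¹) * (8 * M) := mul_le_mul_of_nonneg_left h3 (by positivity)
      have e2 : ((p : ℝ)⁻¹ * (p : ℝ)⁻¹) = ((p : ℝ) ^ 2)⁻¹ := by
        rw [sq, mul_inv]
      rw [e2] at h4 ⊢
      linarith
    · rw [zero_add]
      have hsq : ¬ IsSquare (p * q) := by
        rintro ⟨r, hr⟩
        have h5 : p ∣ r * r := by rw [← hr]; exact dvd_mul_right p q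
        have h6 : p ∣ r := by
          rcases (hp3.dvd_mul).1 h5 with h | h <;> exact h
        obtain ⟨s, rfl⟩ := h6
        have h7 : q = p * s * s := by
          have : p * q = p * (p * s * s) := by rw [hr]; ring
          exact Nat.eq_of_mul_eq_mul_left hp3.pos this
        have h8 : p ∣ q := ⟨s * s, by rw [h7]; ring⟩
        exact hpq ((Nat.prime_dvd_prime_iff_eq hp3 hq3).1 h8)
      have h9 := jac_sum (M := M) hC hPV (hp4.mul hq4) hsq hc odd_one odd_one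
      have e3 : (SS c M).filter (fun t => 1 ∣ t ∧ 1 ∣ t) = SS c M := by
        apply Finset.filter_true_of_mem
        intro t _
        exact ⟨one_dvd _, one_dvd _⟩
      rw [e3] at h9
      have h10 := (abs_le.1 h9).2
      have hpZ : (p : ℝ) ≤ Z := by exact_mod_cast hp2
      have hqZ : (q : ℝ) ≤ Z := by exact_mod_cast hq2
      have hlog : Real.log ((p * q : ℕ) : ℝ) ≤ 2 * Real.log Z := by
        push_cast
        rw [Real.log_mul hp0.ne' hq0.ne']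
        have h11 := Real.log_le_log hp0 hpZ
        have h12 := Real.log_le_log hq0 hqZ
        linarith
      have hsqrt : ((p : ℝ)⁻¹ * (q : ℝ)⁻¹) * √((p * q : ℕ) : ℝ) ≤ 1 := by
        have hp1' : (1 : ℝ) ≤ p := by exact_mod_cast hp3.one_lt.le
        have hq1' : (1 : ℝ) ≤ q := by exact_mod_cast hq3.one_lt.le
        have h13 : √((p * q : ℕ) : ℝ) ≤ p * q := by
          push_cast
          rw [Real.sqrt_le_left (by positivity)]
          have : (1 : ℝ) ≤ p * q := by nlinarith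
          nlinarith
        rw [← mul_inv, inv_mul_le_iff₀ (by positivity)]
        linarith
      calc ((p : ℝ)⁻¹ * (q : ℝ)⁻¹) * ∑ t ∈ SS c M, ((jacobiSym (t : ℤ) (p * q) : ℤ) : ℝ)
          ≤ ((p : ℝ)⁻¹ * (q : ℝ)⁻¹) * (C * √((p * q : ℕ) : ℝ) * Real.log ((p * q : ℕ) : ℝ)) :=
            mul_le_mul_of_nonneg_left h10 (by positivity)
        _ = C * (((p : ℝ)⁻¹ * (q : ℝ)⁻¹) * √((p * q : ℕ) : ℝ)) * Real.log ((p * q : ℕ) : ℝ) := by
            ring
        _ ≤ C * 1 * (2 * Real.log Z) := by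
            have h14 : 0 ≤ Real.log ((p * q : ℕ) : ℝ) := Real.log_natCast_nonneg _
            gcongr
        _ = C * (2 * Real.log Z) := by ring
  have h3 : ∑ p ∈ P, ∑ q ∈ P, ((p : ℝ)⁻¹ * (q : ℝ)⁻¹) *
        ∑ t ∈ SS c M, ((jacobiSym (t : ℤ) (p * q) : ℤ) : ℝ) ≤
      ∑ p ∈ P, ∑ q ∈ P, ((if p = q then ((p : ℝ) ^ 2)⁻¹ * (8 * M) else 0) + C * (2 * Real.log Z)) :=
    Finset.sum_le_sum (fun p hp => Finset.sum_le_sum (fun q hq => h2 p hp q hq))
  refine h3.trans ?_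
  have e4 : ∑ p ∈ P, ∑ q ∈ P, ((if p = q then ((p : ℝ) ^ 2)⁻¹ * (8 * M) else 0) +
      C * (2 * Real.log Z)) = (∑ p ∈ P, ((p : ℝ) ^ 2)⁻¹) * (8 * M) +
      (P.card : ℝ) ^ 2 * (C * (2 * Real.log Z)) := by
    simp only [Finset.sum_add_distrib, Finset.sum_const, nsmul_eq_mul]
    congr 1
    · rw [Finset.sum_mul]
      apply Finset.sum_congr rfl
      intro p hp
      rw [Finset.sum_ite_eq, if_pos hp]
    · ring
  rw [e4]
  have h5 : ∑ p ∈ P, ((p : ℝ) ^ 2)⁻¹ ≤ (Y : ℝ)⁻¹ := by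
    refine le_trans ?_ (sum_inv_sq_tail Y Z (by omega))
    rw [hP]
    exact Finset.sum_le_sum_of_subset_of_nonneg (Finset.filter_subset _ _) (fun _ _ _ => by positivity)
  have h6 : (P.card : ℝ) ≤ Z := by
    have : P.card ≤ Z := by
      rw [hP]
      refine (Finset.card_filter_le _ _).trans ?_
      rw [Nat.card_Ioc]
      omega
    exact_mod_cast this
  have h7 : (∑ p ∈ P, ((p : ℝ) ^ 2)⁻¹) * (8 * M) ≤ 8 * M / Y := by
    calc (∑ p ∈ P, ((p : ℝ) ^ 2)⁻¹) * (8 * M) ≤ (Y : ℝ)⁻¹ * (8 * M) := by gcongr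
      _ = 8 * M / Y := by ring
  have h8 : (P.card : ℝ) ^ 2 * (C * (2 * Real.log Z)) ≤ (Z : ℝ) ^ 2 * (C * (2 * Real.log Z)) := by
    gcongr
  linarith

/-- few `t` have a large sum over primes -/
theorem few_large : ∃ C : ℝ, 0 < C ∧ ∀ Y Z c M : ℕ, 2 ≤ Y → 2 ≤ Z → c < 8 →
    (((SS c M).filter (fun t => 1 < Sm Y Z t)).card : ℝ) ≤
      8 * M / Y + (Z : ℝ) ^ 2 * (C * (2 * Real.log Z)) := by
  obtain ⟨C, hC, hPV⟩ := T_PV
  refine ⟨C, hC, ?_⟩
  intro Y Z c M hY hZ hc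
  refine le_trans ?_ (second_moment (M := M) hC.le hPV hY hZ hc)
  calc (((SS c M).filter (fun t => 1 < Sm Y Z t)).card : ℝ)
      = ∑ t ∈ (SS c M).filter (fun t => 1 < Sm Y Z t), (1 : ℝ) := by simp
    _ ≤ ∑ t ∈ (SS c M).filter (fun t => 1 < Sm Y Z t), Sm Y Z t ^ 2 := by
        apply Finset.sum_le_sum
        intro t ht
        have := (mem_filter.1 ht).2
        nlinarith
    _ ≤ ∑ t ∈ SS c M, Sm Y Z t ^ 2 :=
        Finset.sum_le_sum_of_subset_of_nonneg (Finset.filter_subset _ _) (fun _ _ _ => sq_nonneg _)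

/-- `L(1, chi)` for the others -/
theorem Lone_small : ∃ C : ℝ, 0 < C ∧ ∀ Y Z M d : ℕ, 2 ≤ Y → Y ≤ Z ^ 2 → 2 ≤ Z →
    M ≤ (2 * Z) ^ 20 → 1 < d → Squarefree d → d ≤ 8 * M → Sm Y (Z ^ 2) d ≤ 1 →
    Lone (dsc d) ≤ C * (1 + Real.log Y) := by
  obtain ⟨C1, hC1, h1⟩ := Lone_le
  obtain ⟨C2, hC2, h2⟩ := rr_mean
  obtain ⟨C3, hC3, h3⟩ := Pool.Agent.Helper559.mertens
  refine ⟨C2 * Real.exp (3 * C3 + 1) * 8 + (1 + C1 * 233472), by positivity, ?_⟩
  intro Y Z M d hY hYZ hZ hM hd hs hdM hSm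
  have hd4 : d % 4 ≠ 0 := by
    intro h
    have := hs 2 (by omega)
    simp at this
  have hF := isFund_dsc hd hs
  have hZ' : (2 : ℝ) ≤ Z := by exact_mod_cast hZ
  have hZ0 : (0 : ℝ) < Z := by linarith
  have hlogZ : 0 < Real.log Z := Real.log_pos (by linarith)
  have hlogZ2 : Real.log Z ≤ Z := (Real.log_le_sub_one_of_pos hZ0).trans (by linarith)
  have hY' : (2 : ℝ) ≤ Y := by exact_mod_cast hY
  have hlogY : 0 < Real.log Y := Real.log_pos (by linarith)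
  have hN2 : 2 ≤ Z ^ 16 := by
    calc 2 ≤ Z := hZ
      _ = Z ^ 1 := (pow_one Z).symm
      _ ≤ Z ^ 16 := Nat.pow_le_pow_right (by omega) (by norm_num)
  have h4 := h1 (dsc d) hF (Z ^ 16) (by omega)
  have h9 : ∑ n ∈ Icc 1 (Z ^ 16), rr (dsc d) n = ∑ n ∈ Icc 1 (Z ^ 16), rr d n :=
    Finset.sum_congr rfl (fun n _ => rr_dsc hd4)
  rw [h9] at h4
  have h5 := h2 d (Z ^ 16) hN2
  -- the sum over primes
  have hsplit : ∑ p ∈ (Icc 1 (Z ^ 16)).filter Nat.Prime, (chi d p : ℝ) / p ≤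
      Real.log (Real.log Y) + (3 * C3 + 1) + Real.log 8 := by
    have hZ2le : Z ^ 2 ≤ Z ^ 16 := Nat.pow_le_pow_right (by omega) (by norm_num)
    have hset : (Icc 1 (Z ^ 16)).filter Nat.Prime = (Icc 1 Y).filter Nat.Prime ∪
        ((Ioc Y (Z ^ 2)).filter Nat.Prime ∪ (Ioc (Z ^ 2) (Z ^ 16)).filter Nat.Prime) := by
      ext p
      simp only [mem_union, mem_filter, mem_Icc, mem_Ioc]
      constructor
      · rintro ⟨⟨h6, h7⟩, h8⟩
        by_cases h9 : p ≤ Y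
        · left; exact ⟨⟨h6, h9⟩, h8⟩
        · right
          by_cases h10 : p ≤ Z ^ 2
          · left; exact ⟨⟨by omega, h10⟩, h8⟩
          · right; exact ⟨⟨by omega, h7⟩, h8⟩
      · rintro (⟨⟨h6, h7⟩, h8⟩ | ⟨⟨h6, h7⟩, h8⟩ | ⟨⟨h6, h7⟩, h8⟩)
        · exact ⟨⟨h6, by omega⟩, h8⟩
        · exact ⟨⟨by omega, by omega⟩, h8⟩
        · exact ⟨⟨by omega, by omega⟩, h8⟩
    have hd1 : Disjoint ((Icc 1 Y).filter Nat.Prime) ((Ioc Y (Z ^ 2)).filter Nat.Prime ∪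
        (Ioc (Z ^ 2) (Z ^ 16)).filter Nat.Prime) := by
      rw [Finset.disjoint_left]
      intro p hp hp2
      simp only [mem_union, mem_filter, mem_Icc, mem_Ioc] at hp hp2
      rcases hp2 with h | h <;> omega
    have hd2 : Disjoint ((Ioc Y (Z ^ 2)).filter Nat.Prime) ((Ioc (Z ^ 2) (Z ^ 16)).filter Nat.Prime) := by
      rw [Finset.disjoint_left]
      intro p hp hp2
      simp only [mem_filter, mem_Ioc] at hp hp2
      omega
    rw [hset, Finset.sum_union hd1, Finset.sum_union hd2]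
    have habs : ∀ p : ℕ, (chi d p : ℝ) / p ≤ 1 / p := by
      intro p
      have h6 := (abs_le.1 (abs_chi_le d p)).2
      have h7 : (0 : ℝ) ≤ p := Nat.cast_nonneg p
      gcongr
    have hA : ∑ p ∈ (Icc 1 Y).filter Nat.Prime, (chi d p : ℝ) / p ≤ Real.log (Real.log Y) + C3 := by
      calc ∑ p ∈ (Icc 1 Y).filter Nat.Prime, (chi d p : ℝ) / p ≤ Pool.Agent.Helper559.S Y := by
            unfold Pool.Agent.Helper559.S
            exact Finset.sum_le_sum (fun p _ => habs p)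
        _ ≤ Real.log (Real.log Y) + C3 := by
            have := (abs_le.1 (h3 Y hY)).2
            linarith
    have hB : ∑ p ∈ (Ioc (Z ^ 2) (Z ^ 16)).filter Nat.Prime, (chi d p : ℝ) / p ≤
        Real.log 8 + 2 * C3 := by
      have h6 : ∑ p ∈ (Ioc (Z ^ 2) (Z ^ 16)).filter Nat.Prime, (chi d p : ℝ) / p ≤
          Pool.Agent.Helper559.S (Z ^ 16) - Pool.Agent.Helper559.S (Z ^ 2) := by
        have hset2 : (Icc 1 (Z ^ 16)).filter Nat.Prime = (Icc 1 (Z ^ 2)).filter Nat.Prime ∪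
            (Ioc (Z ^ 2) (Z ^ 16)).filter Nat.Prime := by
          ext p
          simp only [mem_union, mem_filter, mem_Icc, mem_Ioc]
          constructor
          · rintro ⟨⟨h6, h7⟩, h8⟩
            by_cases h9 : p ≤ Z ^ 2
            · left; exact ⟨⟨h6, h9⟩, h8⟩
            · right; exact ⟨⟨by omega, h7⟩, h8⟩
          · rintro (⟨⟨h6, h7⟩, h8⟩ | ⟨⟨h6, h7⟩, h8⟩)
            · exact ⟨⟨h6, by omega⟩, h8⟩
            · exact ⟨⟨by omega, by omega⟩, h8⟩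
        have hd3 : Disjoint ((Icc 1 (Z ^ 2)).filter Nat.Prime)
            ((Ioc (Z ^ 2) (Z ^ 16)).filter Nat.Prime) := by
          rw [Finset.disjoint_left]
          intro p hp hp2
          simp only [mem_filter, mem_Icc, mem_Ioc] at hp hp2
          omega
        have e5 : Pool.Agent.Helper559.S (Z ^ 16) = Pool.Agent.Helper559.S (Z ^ 2) +
            ∑ p ∈ (Ioc (Z ^ 2) (Z ^ 16)).filter Nat.Prime, (1 : ℝ) / p := by
          unfold Pool.Agent.Helper559.S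
          rw [hset2, Finset.sum_union hd3]
        rw [e5, add_sub_cancel_left]
        exact Finset.sum_le_sum (fun p _ => habs p)
      have hZ22 : 2 ≤ Z ^ 2 := by nlinarith
      have h7 := (abs_le.1 (h3 (Z ^ 16) hN2)).2
      have h8 := (abs_le.1 (h3 (Z ^ 2) hZ22)).1
      have e6 : Real.log (Real.log ((Z ^ 16 : ℕ) : ℝ)) = Real.log 8 +
          Real.log (Real.log ((Z ^ 2 : ℕ) : ℝ)) := by
        push_cast
        rw [Real.log_pow, Real.log_pow, ← Real.log_mul (by norm_num) (by positivity)]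
        congr 1
        push_cast
        ring
      rw [e6] at h7
      linarith
    have hC : ∑ p ∈ (Ioc Y (Z ^ 2)).filter Nat.Prime, (chi d p : ℝ) / p ≤ 1 := hSm
    linarith
  have h6 : (∑ n ∈ Icc 1 (Z ^ 16), rr d n) / ((Z ^ 16 : ℕ) : ℝ) ≤
      C2 * Real.exp (3 * C3 + 1) * 8 * Real.log Y := by
    refine h5.trans ?_
    calc C2 * Real.exp (∑ p ∈ (Icc 1 (Z ^ 16)).filter Nat.Prime, (chi d p : ℝ) / p)
        ≤ C2 * Real.exp (Real.log (Real.log Y) + (3 * C3 + 1) + Real.log 8) := by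
          gcongr
      _ = C2 * Real.exp (3 * C3 + 1) * 8 * Real.log Y := by
          rw [Real.exp_add, Real.exp_add, Real.exp_log hlogY, Real.exp_log (by norm_num)]
          ring
  -- the error term
  have hDle : (dsc d : ℝ) ≤ 32 * M := by
    have h4 := dsc_le d
    have : dsc d ≤ 32 * M := by omega
    exact_mod_cast this
  have hD1 : (1 : ℝ) ≤ dsc d := by exact_mod_cast hF.1.le
  have hM2' : (M : ℝ) ≤ (2 * Z) ^ 20 := by exact_mod_cast hM
  have hM0 : (0 : ℝ) < M := by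
    have : 0 < M := by omega
    exact_mod_cast this
  have hsq : √(dsc d : ℝ) ≤ 6144 * (Z : ℝ) ^ 10 := by
    rw [Real.sqrt_le_left (by positivity)]
    calc (dsc d : ℝ) ≤ 32 * M := hDle
      _ ≤ 32 * (2 * Z) ^ 20 := by linarith
      _ ≤ (6144 * (Z : ℝ) ^ 10) ^ 2 := by
        have : (0 : ℝ) ≤ (Z : ℝ) ^ 20 := by positivity
        nlinarith
  have hlogD : Real.log (dsc d) ≤ 38 * Z := by
    have h4 : Real.log (dsc d) ≤ Real.log ((2 : ℝ) ^ 25 * (Z : ℝ) ^ 20) := by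
      apply Real.log_le_log (by linarith)
      calc (dsc d : ℝ) ≤ 32 * M := hDle
        _ ≤ 32 * (2 * Z) ^ 20 := by linarith
        _ = (2 : ℝ) ^ 25 * (Z : ℝ) ^ 20 := by ring
    have e4 : Real.log ((2 : ℝ) ^ 25 * (Z : ℝ) ^ 20) = 25 * Real.log 2 + 20 * Real.log Z := by
      rw [Real.log_mul (by positivity) (by positivity), Real.log_pow, Real.log_pow]
      norm_num
    have h5 : Real.log 2 < 0.6931471808 := Real.log_two_lt_d9
    rw [e4] at h4
    linarith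
  have h7 : C1 * √(dsc d : ℝ) * Real.log (dsc d) / ((Z ^ 16 : ℕ) : ℝ) ≤ C1 * 233472 := by
    push_cast
    rw [div_le_iff₀ (by positivity)]
    have h0 : 0 ≤ Real.log (dsc d) := Real.log_natCast_nonneg _
    calc C1 * √(dsc d : ℝ) * Real.log (dsc d) ≤ C1 * (6144 * (Z : ℝ) ^ 10) * (38 * Z) := by
          gcongr
      _ = C1 * 233472 * (Z : ℝ) ^ 11 := by ring
      _ ≤ C1 * 233472 * (Z : ℝ) ^ 16 := by
          apply mul_le_mul_of_nonneg_left _ (by positivity)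
          exact pow_le_pow_right₀ (by linarith) (by norm_num)
  have h8 : 0 ≤ C2 * Real.exp (3 * C3 + 1) * 8 := by positivity
  have h10 : 0 ≤ (1 + C1 * 233472) * Real.log Y := by positivity
  nlinarith

end Run7.h940.CN
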