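import Pool.Agent.Run7.h940.CN.F1
import Pool.Agent.Q276.PL.All

/-! Class numbers of almost all real quadratic fields of prime radicand. -/

set_option autoImplicit false

namespace Run7.h940.CN

open Finset Filter Pool.Agent.H38R2.CG NumberField
open Pool.Agent.Q276.PL (dsc SmallUnit rgb_true)

/-- the class number of `ℚ(√d)` is at most `√d / (log d) ^ (3/2 - δ)` -/
def GoodC (δ : ℝ) (d : ℕ) : Prop := ∀ (K : Type) [Field K] [NumberField K],
  Module.finrank ℚ K = 2 → (∃ x : K, x ^ 2 = (d : K)) →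
  (classNumber K : ℝ) ≤ √(d : ℝ) / Real.log d ^ (3 / 2 - δ)

theorem good_of {δ : ℝ} (hδ : 0 < δ) (hδ2 : δ < 1 / 2) {d X : ℕ} (hd : 1 < d) (hdX : d ≤ X)
    (hs : Squarefree d)
    (hU : ¬ SmallUnit (dsc d) (Real.exp (Real.log X ^ (3 / 2 - δ / 2))))
    (hL : Lone (dsc d) ≤ Real.log X ^ (δ / 2)) : GoodC δ d := by
  intro K _ _ h2 hx
  have hF := isFund_dsc hd hs
  have hdisc : discr K = ((dsc d : ℕ) : ℤ) := by
    have h := T_N0d K d hd hs h2 hx
    rw [h]
    unfold dsc
    split_ifs <;> simp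
  obtain ⟨e⟩ := T_N0 K (dsc d) hF h2 hdisc
  obtain ⟨t, u, ht, hu, hn, hR⟩ := reg_unit hF e h2
  have hcnf := cnf hF h2 hdisc
  have hd1 : (1 : ℝ) < d := by exact_mod_cast hd
  have hdX' : (d : ℝ) ≤ X := by exact_mod_cast hdX
  have hlogd : 0 < Real.log d := Real.log_pos hd1
  have hlogX : Real.log d ≤ Real.log X := Real.log_le_log (by linarith) hdX'
  have hLX : 0 < Real.log X := by linarith
  have hD0 : (0 : ℝ) < dsc d := by exact_mod_cast (by have := hF.1; omega : 0 < dsc d)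
  have hε : Real.exp (Real.log X ^ (3 / 2 - δ / 2)) < ((t : ℝ) + (u : ℝ) * √(dsc d : ℝ)) / 2 := by
    by_contra hcon
    push Not at hcon
    exact hU ⟨t, u, ht, hu, hn, hcon⟩
  have hRgt : Real.log X ^ (3 / 2 - δ / 2) < Units.regulator K := by
    rw [hR, Real.lt_log_iff_exp_lt]
    · exact hε
    · exact (Real.exp_pos _).trans hε
  have hRpos : 0 < Units.regulator K := Units.regulator_pos K
  have hP : 0 < Real.log X ^ (3 / 2 - δ / 2) := Real.rpow_pos_of_pos hLX _
  have hsq : √(dsc d : ℝ) ≤ 2 * √(d : ℝ) := by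
    have h4 : (dsc d : ℝ) ≤ 4 * d := by exact_mod_cast dsc_le d
    calc √(dsc d : ℝ) ≤ √(4 * d : ℝ) := Real.sqrt_le_sqrt h4
      _ = 2 * √(d : ℝ) := by
        rw [Real.sqrt_mul (by norm_num), show (4 : ℝ) = 2 ^ 2 by norm_num,
          Real.sqrt_sq (by norm_num)]
  have h1 : (classNumber K : ℝ) = √(dsc d : ℝ) * Lone (dsc d) / (2 * Units.regulator K) := by
    rw [← hcnf]
    field_simp
  have hL0 : 0 ≤ Lone (dsc d) := Lone_nonneg hF
  rw [h1]
  calc √(dsc d : ℝ) * Lone (dsc d) / (2 * Units.regulator K)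
      ≤ (2 * √(d : ℝ)) * Real.log X ^ (δ / 2) / (2 * Real.log X ^ (3 / 2 - δ / 2)) := by
        gcongr
    _ = √(d : ℝ) * (Real.log X ^ (δ / 2) / Real.log X ^ (3 / 2 - δ / 2)) := by
        field_simp
    _ = √(d : ℝ) / Real.log X ^ (3 / 2 - δ) := by
        rw [← Real.rpow_sub hLX]
        have e5 : δ / 2 - (3 / 2 - δ / 2) = -(3 / 2 - δ) := by ring
        rw [e5, Real.rpow_neg hLX.le, ← div_eq_mul_inv]
    _ ≤ √(d : ℝ) / Real.log d ^ (3 / 2 - δ) := by
        have h5 : Real.log d ^ (3 / 2 - δ) ≤ Real.log X ^ (3 / 2 - δ) :=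
          Real.rpow_le_rpow hlogd.le hlogX (by linarith)
        have h6 : 0 < Real.log d ^ (3 / 2 - δ) := Real.rpow_pos_of_pos hlogd _
        gcongr

theorem good_mono {δ δ' : ℝ} (h : δ ≤ δ') {d : ℕ} (hd : 3 ≤ d) (hg : GoodC δ d) : GoodC δ' d := by
  intro K _ _ h2 hx
  refine (hg K h2 hx).trans ?_
  have hd3 : (3 : ℝ) ≤ d := by exact_mod_cast hd
  have hlog : 1 ≤ Real.log d := by
    rw [Real.le_log_iff_exp_le (by linarith)]
    have := Real.exp_one_lt_d9
    linarith
  have h1 : Real.log d ^ (3 / 2 - δ') ≤ Real.log d ^ (3 / 2 - δ) :=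
    Real.rpow_le_rpow_of_exponent_le hlog (by linarith)
  have h2 : 0 < Real.log d ^ (3 / 2 - δ') := Real.rpow_pos_of_pos (by linarith) _
  gcongr

open scoped Classical in
/-- the number of exceptional primes -/
theorem card_bad {δ : ℝ} (hδ : 0 < δ) (hδ2 : δ < 1 / 2) : ∃ C M : ℝ, 0 < C ∧ 0 ≤ M ∧
    ∀ X : ℕ, 2 ^ 24 ≤ X →
    (((Icc 2 X).filter (fun p => p.Prime ∧ ¬ GoodC δ p)).card : ℝ) ≤
      M * X * Real.exp (-(Real.log X ^ (δ / 16))) + (X : ℝ) ^ (1 / 8 : ℝ) +
        C * X / (Real.log X * Real.log X ^ (δ / 2)) := by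
  obtain ⟨C, hC, h1⟩ := LAP
  obtain ⟨M, h2⟩ := rgb_true (δ / 2) (by linarith) (by linarith)
  refine ⟨C, max M 0, hC, le_max_right _ _, ?_⟩
  intro X hX
  obtain ⟨R, hR2, hR8, h3⟩ := h1 X hX
  have hX2 : 2 ≤ X := le_trans (by norm_num) hX
  have h4 := h2 X hX2
  have hX1 : (1 : ℝ) < X := by exact_mod_cast (by omega : 1 < X)
  have hX0 : (0 : ℝ) < X := by linarith
  have hlogX : 0 < Real.log X := Real.log_pos hX1
  have hsub : (Icc 2 X).filter (fun p => p.Prime ∧ ¬ GoodC δ p) ⊆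
      ((Icc 2 X).filter (fun d => Squarefree d ∧
        SmallUnit (dsc d) (Real.exp (Real.log X ^ (3 / 2 - δ / 2))))) ∪
      (Icc 1 R ∪ ((Ioc R X).filter (fun p => p.Prime)).filter
        (fun p => Real.log X ^ (δ / 2) < Lone (dsc p))) := by
    intro p hp
    rw [mem_filter, mem_Icc] at hp
    obtain ⟨⟨hp2, hpX⟩, hpp, hbad⟩ := hp
    rw [mem_union, mem_union]
    by_cases hU : SmallUnit (dsc p) (Real.exp (Real.log X ^ (3 / 2 - δ / 2)))
    · left
      rw [mem_filter, mem_Icc]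
      exact ⟨⟨hp2, hpX⟩, hpp.squarefree, hU⟩
    · right
      by_cases hpR : p ≤ R
      · left
        rw [mem_Icc]
        omega
      · right
        rw [mem_filter, mem_filter, mem_Ioc]
        refine ⟨⟨⟨by omega, hpX⟩, hpp⟩, ?_⟩
        by_contra hL
        push Not at hL
        exact hbad (good_of hδ hδ2 (by omega) hpX hpp.squarefree hU hL)
  have h5 := (Finset.card_le_card hsub).trans (Finset.card_union_le _ _)
  have h6 := Finset.card_union_le (Icc 1 R) (((Ioc R X).filter (fun p => p.Prime)).filter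
        (fun p => Real.log X ^ (δ / 2) < Lone (dsc p)))
  rw [Nat.card_Icc, Nat.add_sub_cancel] at h6
  have h7 := h5.trans (Nat.add_le_add_left h6 _)
  have h8 : (((Icc 2 X).filter (fun p => p.Prime ∧ ¬ GoodC δ p)).card : ℝ) ≤
      (((Icc 2 X).filter (fun d => Squarefree d ∧
        SmallUnit (dsc d) (Real.exp (Real.log X ^ (3 / 2 - δ / 2))))).card : ℝ) +
      ((R : ℝ) + ((((Ioc R X).filter (fun p => p.Prime)).filter
        (fun p => Real.log X ^ (δ / 2) < Lone (dsc p))).card : ℝ)) := by exact_mod_cast h7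
  have h9 := markov ((Ioc R X).filter (fun p => p.Prime)) (fun p => Lone (dsc p))
    (by
      intro p hp
      rw [mem_filter] at hp
      exact Lone_nonneg (isFund_dsc hp.2.one_lt hp.2.squarefree))
    (Real.log X ^ (δ / 2))
  have hP : 0 < Real.log X ^ (δ / 2) := Real.rpow_pos_of_pos hlogX _
  have h10 : ((((Ioc R X).filter (fun p => p.Prime)).filter
        (fun p => Real.log X ^ (δ / 2) < Lone (dsc p))).card : ℝ) ≤
      C * X / (Real.log X * Real.log X ^ (δ / 2)) := by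
    rw [← div_div, le_div_iff₀ hP]
    exact h9.trans h3
  have h11 : (R : ℝ) ≤ (X : ℝ) ^ (1 / 8 : ℝ) := by
    have h12 : (R : ℝ) ^ (8 : ℕ) ≤ X := by exact_mod_cast hR8
    calc (R : ℝ) = ((R : ℝ) ^ (8 : ℕ)) ^ (1 / 8 : ℝ) := by
          rw [← Real.rpow_natCast, ← Real.rpow_mul (Nat.cast_nonneg _)]
          norm_num
      _ ≤ (X : ℝ) ^ (1 / 8 : ℝ) := Real.rpow_le_rpow (by positivity) h12 (by norm_num)
  have h13 : (3 : ℝ) / 2 - δ / 2 = 3 / 2 - δ / 2 := rfl
  have h14 : δ / 2 / 8 = δ / 16 := by ring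
  rw [h14] at h4
  have h15 : M * X * Real.exp (-(Real.log X ^ (δ / 16))) ≤
      max M 0 * X * Real.exp (-(Real.log X ^ (δ / 16))) := by
    have := le_max_left M 0
    gcongr
  linarith

theorem tendsto_aux1 {a : ℝ} (ha : 0 < a) :
    Tendsto (fun X : ℕ => Real.log X * Real.exp (-(Real.log X ^ a))) atTop (nhds 0) := by
  have hl : Tendsto (fun X : ℕ => Real.log X) atTop atTop :=
    Real.tendsto_log_atTop.comp tendsto_natCast_atTop_atTop
  have h1 : Tendsto (fun y : ℝ => y ^ (1 / a) * Real.exp (-y)) atTop (nhds 0) := by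
    have := tendsto_rpow_mul_exp_neg_mul_atTop_nhds_zero (1 / a) 1 one_pos
    simpa using this
  have h2 : Tendsto (fun X : ℕ => Real.log X ^ a) atTop atTop :=
    (tendsto_rpow_atTop ha).comp hl
  refine (h1.comp h2).congr' ?_
  filter_upwards [hl.eventually (eventually_gt_atTop 0)] with X hX
  simp only [Function.comp]
  rw [← Real.rpow_mul hX.le, mul_one_div_cancel ha.ne', Real.rpow_one]

theorem tendsto_aux2 :
    Tendsto (fun X : ℕ => Real.log X * (X : ℝ) ^ (-(7 / 8) : ℝ)) atTop (nhds 0) := by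
  have h1 : Tendsto (fun x : ℝ => Real.log x / x ^ (7 / 8 : ℝ)) atTop (nhds 0) :=
    (isLittleO_log_rpow_atTop (by norm_num : (0 : ℝ) < 7 / 8)).tendsto_div_nhds_zero
  refine (h1.comp tendsto_natCast_atTop_atTop).congr ?_
  intro X
  simp only [Function.comp]
  rw [Real.rpow_neg (Nat.cast_nonneg _), div_eq_mul_inv]

theorem tendsto_aux3 {a : ℝ} (ha : 0 < a) :
    Tendsto (fun X : ℕ => (Real.log X ^ a)⁻¹) atTop (nhds 0) := by
  have hl : Tendsto (fun X : ℕ => Real.log X) atTop atTop :=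
    Real.tendsto_log_atTop.comp tendsto_natCast_atTop_atTop
  exact ((tendsto_rpow_atTop ha).comp hl).inv_tendsto_atTop

theorem pi_lower {X : ℕ} (hX : 2 ^ 24 ≤ X) :
    (X : ℝ) / (2 * Real.log X) ≤ (((Icc 2 X).filter Nat.Prime).card : ℝ) := by
  have h1 := Chebyshev.pi_ge X
  have hcard : Nat.primeCounting X = ((Icc 2 X).filter Nat.Prime).card := by
    rw [Nat.primeCounting, Nat.primeCounting', Nat.count_eq_card_filter_range]
    congr 1
    ext p
    rw [mem_filter, mem_filter, mem_range, mem_Icc]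
    constructor
    · rintro ⟨h, hp⟩
      exact ⟨⟨hp.two_le, by omega⟩, hp⟩
    · rintro ⟨h, hp⟩
      exact ⟨by omega, hp⟩
  rw [hcard] at h1
  refine le_trans ?_ h1
  have hX' : (2 : ℝ) ^ 24 ≤ X := by exact_mod_cast hX
  have hX0 : (0 : ℝ) < X := by linarith [show (0 : ℝ) < 2 ^ 24 by norm_num]
  have hlogX : 0 < Real.log X := Real.log_pos (by linarith [show (1 : ℝ) < 2 ^ 24 by norm_num])
  have h2 : Real.log ((X : ℝ) + 1) ≤ X * (6 / 10 - 1 / 2) := by
    have h3 : Real.log (X + 1) ≤ 2 * √((X : ℝ) + 1) := by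
      have h4 := Real.log_le_sub_one_of_pos (show 0 < √((X : ℝ) + 1) by positivity)
      rw [Real.log_sqrt (by positivity)] at h4
      linarith
    have h5 : √((X : ℝ) + 1) ≤ X / 20 := by
      rw [Real.sqrt_le_left (by positivity)]
      have : (1000 : ℝ) ≤ X := le_trans (by norm_num) hX'
      nlinarith
    linarith
  have h3 : (0.6931471803 : ℝ) < Real.log 2 := Real.log_two_gt_d9
  rw [div_le_div_iff₀ (by positivity) hlogX]
  have h4 : (X : ℝ) * (1 / 2) ≤ X * Real.log 2 - Real.log (X + 1) := by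
    have : X * (0.6931471803 : ℝ) ≤ X * Real.log 2 := by gcongr
    linarith
  calc (X : ℝ) * Real.log X = (X * (1 / 2)) * (2 * Real.log X) := by ring
    _ ≤ (X * Real.log 2 - Real.log (X + 1)) * (2 * Real.log X) := by gcongr

open scoped Classical in
theorem clp_small {δ : ℝ} (hδ : 0 < δ) (hδ2 : δ < 1 / 2) : Tendsto (fun X : ℕ =>
    (((Icc 2 X).filter (fun p => p.Prime ∧ ¬ GoodC δ p)).card : ℝ) /
      (((Icc 2 X).filter Nat.Prime).card : ℝ)) atTop (nhds 0) := by
  obtain ⟨C, M, hC, hM, h⟩ := card_bad hδ hδ2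
  have hlim : Tendsto (fun X : ℕ => 2 * M * (Real.log X * Real.exp (-(Real.log X ^ (δ / 16)))) +
      2 * (Real.log X * (X : ℝ) ^ (-(7 / 8) : ℝ)) + 2 * C * (Real.log X ^ (δ / 2))⁻¹) atTop
      (nhds 0) := by
    have h1 := (tendsto_aux1 (a := δ / 16) (by linarith)).const_mul (2 * M)
    have h2 := tendsto_aux2.const_mul 2
    have h3 := (tendsto_aux3 (a := δ / 2) (by linarith)).const_mul (2 * C)
    have := (h1.add h2).add h3
    simpa using this
  refine squeeze_zero' (Eventually.of_forall fun X => by positivity) ?_ hlim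
  filter_upwards [eventually_ge_atTop (2 ^ 24)] with X hX
  have h1 := h X hX
  have h2 := pi_lower hX
  have hX' : (2 : ℝ) ^ 24 ≤ X := by exact_mod_cast hX
  have hX0 : (0 : ℝ) < X := by linarith [show (0 : ℝ) < 2 ^ 24 by norm_num]
  have hlogX : 0 < Real.log X := Real.log_pos (by linarith [show (1 : ℝ) < 2 ^ 24 by norm_num])
  have hpos : 0 < (X : ℝ) / (2 * Real.log X) := by positivity
  have hP : 0 < Real.log X ^ (δ / 2) := Real.rpow_pos_of_pos hlogX _
  have e1 : (X : ℝ) ^ (1 / 8 : ℝ) = X * (X : ℝ) ^ (-(7 / 8) : ℝ) := by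
    conv_rhs => rw [← Real.rpow_one_add' hX0.le (by norm_num)]
    norm_num
  calc (((Icc 2 X).filter (fun p => p.Prime ∧ ¬ GoodC δ p)).card : ℝ) /
      (((Icc 2 X).filter Nat.Prime).card : ℝ)
      ≤ (M * X * Real.exp (-(Real.log X ^ (δ / 16))) + (X : ℝ) ^ (1 / 8 : ℝ) +
        C * X / (Real.log X * Real.log X ^ (δ / 2))) / ((X : ℝ) / (2 * Real.log X)) := by
        gcongr
    _ = _ := by
        rw [e1]
        field_simp

open scoped Classical in
theorem clp {δ : ℝ} (hδ : 0 < δ) : Tendsto (fun X : ℕ =>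
    (((Icc 2 X).filter (fun p => p.Prime ∧ ¬ GoodC δ p)).card : ℝ) /
      (((Icc 2 X).filter Nat.Prime).card : ℝ)) atTop (nhds 0) := by
  rcases lt_or_ge δ (1 / 2) with h | h
  · exact clp_small hδ h
  · have h1 := clp_small (δ := 1 / 4) (by norm_num) (by norm_num)
    have h2 : Tendsto (fun X : ℕ => (2 * Real.log X) / (X : ℝ)) atTop (nhds 0) := by
      have h3 : Tendsto (fun x : ℝ => Real.log x / x) atTop (nhds 0) :=
        Real.isLittleO_log_id_atTop.tendsto_div_nhds_zero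
      have h4 := (h3.comp tendsto_natCast_atTop_atTop).const_mul 2
      rw [mul_zero] at h4
      refine h4.congr ?_
      intro X
      simp only [Function.comp]
      ring
    have h3 := h1.add h2
    rw [add_zero] at h3
    refine squeeze_zero' (Eventually.of_forall fun X => by positivity) ?_ h3
    filter_upwards [eventually_ge_atTop (2 ^ 24)] with X hX
    have h4 := pi_lower hX
    have hX' : (2 : ℝ) ^ 24 ≤ X := by exact_mod_cast hX
    have hX0 : (0 : ℝ) < X := by linarith [show (0 : ℝ) < 2 ^ 24 by norm_num]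
    have hlogX : 0 < Real.log X := Real.log_pos (by linarith [show (1 : ℝ) < 2 ^ 24 by norm_num])
    have hpos : 0 < (X : ℝ) / (2 * Real.log X) := by positivity
    have hsub : (Icc 2 X).filter (fun p => p.Prime ∧ ¬ GoodC δ p) ⊆
        (Icc 2 X).filter (fun p => p.Prime ∧ ¬ GoodC (1 / 4) p) ∪ {2} := by
      intro p hp
      rw [mem_filter, mem_Icc] at hp
      rw [mem_union, mem_filter, mem_Icc, mem_singleton]
      by_cases hp2 : p = 2
      · right; exact hp2
      · left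
        refine ⟨hp.1, hp.2.1, fun hg => hp.2.2 (good_mono (by linarith) (by omega) hg)⟩
    have h5 := (Finset.card_le_card hsub).trans (Finset.card_union_le _ _)
    rw [card_singleton] at h5
    have h6 : (((Icc 2 X).filter (fun p => p.Prime ∧ ¬ GoodC δ p)).card : ℝ) ≤
      (((Icc 2 X).filter (fun p => p.Prime ∧ ¬ GoodC (1 / 4) p)).card : ℝ) + 1 := by
      exact_mod_cast h5
    have hππ : 0 < (((Icc 2 X).filter Nat.Prime).card : ℝ) := by linarith
    calc (((Icc 2 X).filter (fun p => p.Prime ∧ ¬ GoodC δ p)).card : ℝ) /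
          (((Icc 2 X).filter Nat.Prime).card : ℝ)
        ≤ ((((Icc 2 X).filter (fun p => p.Prime ∧ ¬ GoodC (1 / 4) p)).card : ℝ) + 1) /
          (((Icc 2 X).filter Nat.Prime).card : ℝ) := by gcongr
      _ = (((Icc 2 X).filter (fun p => p.Prime ∧ ¬ GoodC (1 / 4) p)).card : ℝ) /
          (((Icc 2 X).filter Nat.Prime).card : ℝ) + 1 / (((Icc 2 X).filter Nat.Prime).card : ℝ) := by
          rw [add_div]
      _ ≤ _ := by
          have h7 : 1 / (((Icc 2 X).filter Nat.Prime).card : ℝ) ≤ 1 / ((X : ℝ) / (2 * Real.log X)) :=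
            one_div_le_one_div_of_le hpos h4
          have h8 : 1 / ((X : ℝ) / (2 * Real.log X)) = 2 * Real.log X / X := by
            rw [one_div_div]
          linarith

end Run7.h940.CN
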