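import Pool.Agent.Run7.h940.CN.E3
import Pool.Agent.Run7.h940.CN.G1

/-! Class numbers of real quadratic fields with a small exceptional set. -/

set_option autoImplicit false

namespace Run7.h940.CN

open Finset Filter Pool.Agent.H38R2.CG NumberField
open Pool.Agent.Q276.PL (dsc SmallUnit rgb_true)

open scoped Classical in
theorem strong_ev {δ : ℝ} (hδ : 0 < δ) (hδ2 : δ < 1 / 2) : ∃ (C : ℝ) (X0 : ℕ), 0 < C ∧
    ∀ X : ℕ, X0 ≤ X →
    (((Icc 2 X).filter (fun d => Squarefree d ∧ ¬ GoodC δ d)).card : ℝ) ≤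
      C * X * Real.exp (-(Real.log X ^ (δ / 16))) := by
  obtain ⟨C1, hC1, h1⟩ := few_large
  obtain ⟨C2, hC2, h2⟩ := Lone_small
  obtain ⟨M0, h3⟩ := rgb_true (δ / 2) (by linarith) (by linarith)
  have hl : Tendsto (fun X : ℕ => Real.log X) atTop atTop :=
    Real.tendsto_log_atTop.comp tendsto_natCast_atTop_atTop
  have ha : 0 < δ / 4 := by linarith
  have hev1 : ∀ᶠ X : ℕ in atTop, Real.log X ^ (δ / 4) ≤ Real.log X / 40 := by
    have h4 : ∀ᶠ y : ℝ in atTop, y ^ (δ / 4) ≤ y / 40 := by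
      have h5 : Tendsto (fun y : ℝ => y ^ (-(1 - δ / 4))) atTop (nhds 0) :=
        tendsto_rpow_neg_atTop (by linarith)
      filter_upwards [h5.eventually (eventually_le_nhds (show (0 : ℝ) < 1 / 40 by norm_num)),
        eventually_gt_atTop (0 : ℝ)] with y hy hy0
      have e1 : y ^ (δ / 4) = y * y ^ (-(1 - δ / 4)) := by
        rw [← Real.rpow_one_add' hy0.le (by linarith)]
        congr 1
        ring
      have h6 := mul_le_mul_of_nonneg_left hy hy0.le
      rw [e1]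
      linarith
    exact hl.eventually h4
  have hev2 : ∀ᶠ X : ℕ in atTop, 2 * C2 ≤ Real.log X ^ (δ / 4) :=
    ((tendsto_rpow_atTop ha).comp hl).eventually (eventually_ge_atTop _)
  obtain ⟨X0, hX0⟩ := eventually_atTop.1 ((hev1.and hev2).and (eventually_ge_atTop (2 ^ 24)))
  refine ⟨max M0 0 + 6 * (16 + 8 * C1) , X0, by positivity, ?_⟩
  intro X hX
  obtain ⟨⟨hy1, hy2⟩, hX24⟩ := hX0 X hX
  obtain ⟨hM1, hM2, hlogM⟩ := M_facts hX24
  obtain ⟨M, hM⟩ : ∃ M, M = X / 8 + 1 := ⟨_, rfl⟩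
  rw [← hM] at hM1 hM2 hlogM
  obtain ⟨Z, hZ2, hZ3, hZ4, hZ5⟩ := exists_Z hM1
  have hX2 : 3 ≤ X := le_trans (by norm_num) hX24
  have hX3 : (3 : ℝ) ≤ X := by exact_mod_cast hX2
  have hXp : (0 : ℝ) < X := by linarith
  have hlog1 : 1 ≤ Real.log X := by
    rw [Real.le_log_iff_exp_le (by linarith)]
    have := Real.exp_one_lt_d9
    linarith
  have hlogX : 0 < Real.log X := by linarith
  have hZ' : (2 : ℝ) ≤ Z := by exact_mod_cast hZ2
  have hZ0 : (0 : ℝ) < Z := by linarith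
  have hlogZ : 0 < Real.log Z := Real.log_pos (by linarith)
  have hlogZ2 : Real.log Z ≤ Z := (Real.log_le_sub_one_of_pos hZ0).trans (by linarith)
  -- the parameter Y
  obtain ⟨w, hw⟩ : ∃ w, w = Real.log X ^ (δ / 4) := ⟨_, rfl⟩
  rw [← hw] at hy1 hy2
  have hw1 : 1 ≤ w := by rw [hw]; exact Real.one_le_rpow hlog1 ha.le
  obtain ⟨Y, hY⟩ : ∃ Y : ℕ, Y = ⌊Real.exp w⌋₊ := ⟨_, rfl⟩
  have hexpw : (2 : ℝ) ≤ Real.exp w := by
    have := Real.exp_one_gt_d9
    have := Real.exp_le_exp.2 hw1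
    linarith
  have hY2 : 2 ≤ Y := by
    rw [hY]
    exact Nat.le_floor (by exact_mod_cast hexpw)
  have hYle : (Y : ℝ) ≤ Real.exp w := by rw [hY]; exact Nat.floor_le (by positivity)
  have hYge : Real.exp w / 2 ≤ Y := by
    have := Nat.lt_floor_add_one (Real.exp w)
    rw [← hY] at this
    linarith
  have hYp : (0 : ℝ) < Y := by exact_mod_cast (by omega : 0 < Y)
  have hlogY : Real.log Y ≤ w := by
    rw [Real.log_le_iff_le_exp hYp]
    exact hYle
  have hYZ : Y ≤ Z ^ 2 := by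
    have h4 : w ≤ 2 * Real.log Z := by linarith
    have h5 : (Y : ℝ) ≤ (Z : ℝ) ^ 2 := by
      calc (Y : ℝ) ≤ Real.exp w := hYle
        _ ≤ Real.exp (2 * Real.log Z) := Real.exp_le_exp.2 h4
        _ = (Z : ℝ) ^ 2 := by
          rw [show 2 * Real.log Z = Real.log ((Z : ℝ) ^ 2) by rw [Real.log_pow]; norm_num,
            Real.exp_log (by positivity)]
    exact_mod_cast h5
  -- the exceptional sets
  have hsub : (Icc 2 X).filter (fun d => Squarefree d ∧ ¬ GoodC δ d) ⊆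
      ((Icc 2 X).filter (fun d => Squarefree d ∧
        SmallUnit (dsc d) (Real.exp (Real.log X ^ (3 / 2 - δ / 2))))) ∪
      (({1, 2, 3, 5, 6, 7} : Finset ℕ).biUnion
        (fun c => (SS c M).filter (fun t => 1 < Sm Y (Z ^ 2) t))) := by
    intro d hd
    rw [mem_filter, mem_Icc] at hd
    obtain ⟨⟨hd2, hdX⟩, hs, hbad⟩ := hd
    rw [mem_union]
    by_cases hU : SmallUnit (dsc d) (Real.exp (Real.log X ^ (3 / 2 - δ / 2)))
    · left
      rw [mem_filter, mem_Icc]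
      exact ⟨⟨hd2, hdX⟩, hs, hU⟩
    · right
      by_contra hcon
      apply hbad
      apply good_of hδ hδ2 (by omega) hdX hs hU
      have h4 : ¬ 4 ∣ d := by
        intro h4
        have := hs 2 (by simpa using h4)
        simp at this
      have hSm : Sm Y (Z ^ 2) d ≤ 1 := by
        by_contra hS
        push Not at hS
        apply hcon
        rw [mem_biUnion]
        refine ⟨d % 8, ?_, ?_⟩
        · simp only [mem_insert, mem_singleton]
          omega
        · rw [mem_filter]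
          refine ⟨?_, hS⟩
          unfold SS
          rw [mem_filter, mem_Ioc]
          omega
      have h5 := h2 Y Z M d hY2 hYZ hZ2 hZ4 (by omega) hs (by omega) hSm
      refine h5.trans ?_
      have e1 : Real.log X ^ (δ / 2) = w * w := by
        rw [hw, ← Real.rpow_add hlogX]
        congr 1
        ring
      rw [e1]
      calc C2 * (1 + Real.log Y) ≤ C2 * (w + w) := by gcongr
        _ = (2 * C2) * w := by ring
        _ ≤ w * w := by gcongr
  have h5 := (Finset.card_le_card hsub).trans (Finset.card_union_le _ _)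
  have h6 : ((({1, 2, 3, 5, 6, 7} : Finset ℕ).biUnion
        (fun c => (SS c M).filter (fun t => 1 < Sm Y (Z ^ 2) t))).card : ℝ) ≤
      6 * (8 * M / Y + ((Z ^ 2 : ℕ) : ℝ) ^ 2 * (C1 * (2 * Real.log ((Z ^ 2 : ℕ) : ℝ)))) := by
    have h7 : (({1, 2, 3, 5, 6, 7} : Finset ℕ).biUnion
        (fun c => (SS c M).filter (fun t => 1 < Sm Y (Z ^ 2) t))).card ≤
        ∑ c ∈ ({1, 2, 3, 5, 6, 7} : Finset ℕ), ((SS c M).filter (fun t => 1 < Sm Y (Z ^ 2) t)).card :=
      Finset.card_biUnion_le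
    have h8 : ((∑ c ∈ ({1, 2, 3, 5, 6, 7} : Finset ℕ),
        ((SS c M).filter (fun t => 1 < Sm Y (Z ^ 2) t)).card : ℕ) : ℝ) ≤
        ∑ c ∈ ({1, 2, 3, 5, 6, 7} : Finset ℕ), (8 * (M : ℝ) / Y + ((Z ^ 2 : ℕ) : ℝ) ^ 2 *
          (C1 * (2 * Real.log ((Z ^ 2 : ℕ) : ℝ)))) := by
      push_cast
      apply Finset.sum_le_sum
      intro c hc
      have hc' : c < 8 := by
        simp only [mem_insert, mem_singleton] at hc
        omega
      have h9 := h1 Y (Z ^ 2) c M hY2 (by nlinarith) hc'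
      push_cast at h9
      exact h9
    have h9 : ((({1, 2, 3, 5, 6, 7} : Finset ℕ).biUnion
        (fun c => (SS c M).filter (fun t => 1 < Sm Y (Z ^ 2) t))).card : ℝ) ≤
        ((∑ c ∈ ({1, 2, 3, 5, 6, 7} : Finset ℕ),
        ((SS c M).filter (fun t => 1 < Sm Y (Z ^ 2) t)).card : ℕ) : ℝ) := by exact_mod_cast h7
    refine (h9.trans h8).trans (le_of_eq ?_)
    rw [Finset.sum_const]
    have : ({1, 2, 3, 5, 6, 7} : Finset ℕ).card = 6 := by decide
    rw [this, nsmul_eq_mul]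
    norm_num
  have h7 := h3 X (by omega)
  have h14 : δ / 2 / 8 = δ / 16 := by ring
  rw [h14] at h7
  obtain ⟨E, hE⟩ : ∃ E, E = Real.exp (-(Real.log X ^ (δ / 16))) := ⟨_, rfl⟩
  rw [← hE] at h7 ⊢
  have hE0 : 0 < E := by rw [hE]; exact Real.exp_pos _
  -- 1 / Y ≤ 2 E
  have hYE : (Y : ℝ)⁻¹ ≤ 2 * E := by
    have h8 : Real.exp (-w) ≤ E := by
      rw [hE]
      apply Real.exp_le_exp.2
      have : Real.log X ^ (δ / 16) ≤ w := by
        rw [hw]
        exact Real.rpow_le_rpow_of_exponent_le hlog1 (by linarith)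
      linarith
    calc (Y : ℝ)⁻¹ ≤ (Real.exp w / 2)⁻¹ := inv_anti₀ (by positivity) hYge
      _ = 2 * Real.exp (-w) := by
        rw [Real.exp_neg]
        field_simp
      _ ≤ 2 * E := by linarith
  have hMX : (M : ℝ) ≤ X := by exact_mod_cast hM2
  have h8 : 8 * (M : ℝ) / Y ≤ 16 * X * E := by
    calc 8 * (M : ℝ) / Y = 8 * M * (Y : ℝ)⁻¹ := by rw [div_eq_mul_inv]
      _ ≤ 8 * X * (2 * E) := by gcongr
      _ = 16 * X * E := by ring
  have h9 : ((Z ^ 2 : ℕ) : ℝ) ^ 2 * (C1 * (2 * Real.log ((Z ^ 2 : ℕ) : ℝ))) ≤ 8 * C1 * X * E := by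
    have e2 : Real.log ((Z ^ 2 : ℕ) : ℝ) = 2 * Real.log Z := by
      push_cast
      rw [Real.log_pow]
      norm_num
    rw [e2]
    push_cast
    have h10 : (Z : ℝ) ^ 7 ≤ X := by
      have h11 : (Z : ℝ) ^ 20 ≤ M := by exact_mod_cast hZ3
      have h12 : (Z : ℝ) ^ 7 ≤ (Z : ℝ) ^ 20 := pow_le_pow_right₀ (by linarith) (by norm_num)
      linarith
    have h11 : (Z : ℝ) ^ 5 ≤ X * (Y : ℝ)⁻¹ := by
      have hYZ' : (Y : ℝ) ≤ (Z : ℝ) ^ 2 := by exact_mod_cast hYZ
      rw [← div_eq_mul_inv, le_div_iff₀ hYp]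
      calc (Z : ℝ) ^ 5 * Y ≤ (Z : ℝ) ^ 5 * (Z : ℝ) ^ 2 := by gcongr
        _ = (Z : ℝ) ^ 7 := by ring
        _ ≤ X := h10
    calc ((Z : ℝ) ^ 2) ^ 2 * (C1 * (2 * (2 * Real.log Z))) ≤
          ((Z : ℝ) ^ 2) ^ 2 * (C1 * (2 * (2 * Z))) := by gcongr
      _ = 4 * C1 * (Z : ℝ) ^ 5 := by ring
      _ ≤ 4 * C1 * (X * (Y : ℝ)⁻¹) := by gcongr
      _ ≤ 4 * C1 * (X * (2 * E)) := by gcongr
      _ = 8 * C1 * X * E := by ring
  have h10 : (((Icc 2 X).filter (fun d => Squarefree d ∧ ¬ GoodC δ d)).card : ℝ) ≤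
      (((Icc 2 X).filter (fun d => Squarefree d ∧
        SmallUnit (dsc d) (Real.exp (Real.log X ^ (3 / 2 - δ / 2))))).card : ℝ) +
      ((({1, 2, 3, 5, 6, 7} : Finset ℕ).biUnion
        (fun c => (SS c M).filter (fun t => 1 < Sm Y (Z ^ 2) t))).card : ℝ) := by
    exact_mod_cast h5
  have h11 : M0 * X * E ≤ max M0 0 * X * E := by
    have := le_max_left M0 0
    gcongr
  calc (((Icc 2 X).filter (fun d => Squarefree d ∧ ¬ GoodC δ d)).card : ℝ)
      ≤ max M0 0 * X * E + 6 * (16 * X * E + 8 * C1 * X * E) := by linarith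
    _ = (max M0 0 + 6 * (16 + 8 * C1)) * X * E := by ring

open scoped Classical in
theorem strong {δ : ℝ} (hδ : 0 < δ) (hδ2 : δ < 1 / 2) : ∃ C : ℝ, ∀ X : ℕ, 2 ≤ X →
    (((Icc 2 X).filter (fun d => Squarefree d ∧ ¬ GoodC δ d)).card : ℝ) ≤
      C * X * Real.exp (-(Real.log X ^ (δ / 16))) := by
  obtain ⟨C, X0, hC, h⟩ := strong_ev hδ hδ2
  refine ⟨max C (Real.exp (Real.log X0 ^ (δ / 16))), ?_⟩
  intro X hX
  have hXp : (0 : ℝ) < X := by exact_mod_cast (by omega : 0 < X)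
  rcases Nat.lt_or_ge X X0 with hlt | hge
  · have h1 : (((Icc 2 X).filter (fun d => Squarefree d ∧ ¬ GoodC δ d)).card : ℝ) ≤ X := by
      have h2 : ((Icc 2 X).filter (fun d => Squarefree d ∧ ¬ GoodC δ d)).card ≤ X := by
        refine (Finset.card_filter_le _ _).trans ?_
        rw [Nat.card_Icc]
        omega
      exact_mod_cast h2
    have hX1 : (1 : ℝ) ≤ X := by exact_mod_cast (by omega : 1 ≤ X)
    have hlog0 : 0 ≤ Real.log X := Real.log_nonneg hX1
    have hle : Real.log X ≤ Real.log X0 := Real.log_le_log hXp (by exact_mod_cast hlt.le)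
    have h3 : Real.log X ^ (δ / 16) ≤ Real.log X0 ^ (δ / 16) :=
      Real.rpow_le_rpow hlog0 hle (by linarith)
    have h4 : (1 : ℝ) ≤ Real.exp (Real.log X0 ^ (δ / 16)) * Real.exp (-(Real.log X ^ (δ / 16))) := by
      rw [← Real.exp_add]
      exact Real.one_le_exp (by linarith)
    calc (((Icc 2 X).filter (fun d => Squarefree d ∧ ¬ GoodC δ d)).card : ℝ) ≤ X := h1
      _ ≤ (Real.exp (Real.log X0 ^ (δ / 16)) * Real.exp (-(Real.log X ^ (δ / 16)))) * X :=
          le_mul_of_one_le_left hXp.le h4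
      _ = Real.exp (Real.log X0 ^ (δ / 16)) * X * Real.exp (-(Real.log X ^ (δ / 16))) := by ring
      _ ≤ max C (Real.exp (Real.log X0 ^ (δ / 16))) * X * Real.exp (-(Real.log X ^ (δ / 16))) := by
          gcongr
          exact le_max_right _ _
  · refine (h X hge).trans ?_
    gcongr
    exact le_max_left _ _

end Run7.h940.CN
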