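import Pool.Agent.Run7.h940.CN.A5
import Pool.Agent.H38R2.CG.N0
import Pool.Agent.H38R2.CG.N0d
import Pool.Agent.H38R2.CG.SPL
import Pool.Agent.H38R2.CG.N3

/-! The class number formula of a real quadratic field, and its regulator as the logarithm
of a unit. -/

set_option autoImplicit false

namespace Run7.h940.CN

open Finset Filter Pool.Agent.H38R2.CG NumberField Module NumberField.InfinitePlace
  NumberField.Units
open Pool.Agent.Q276.PL (dsc)

section
variable {K : Type} [Field K] [NumberField K] {D : ℕ}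

/-- real embedding as complex embedding -/
noncomputable def oR (σ : K →+* ℝ) : K →+* ℂ := Complex.ofRealHom.comp σ

omit [NumberField K] in
theorem oR_real (σ : K →+* ℝ) : ComplexEmbedding.IsReal (oR σ) := by
  rw [ComplexEmbedding.isReal_iff]
  ext x
  simp [oR]

theorem all_real (e : Emb K D) (h2 : finrank ℚ K = 2) (ψ : K →+* ℂ) :
    ComplexEmbedding.IsReal ψ := by
  classical
  have hc : Fintype.card (K →+* ℂ) = 2 := by rw [Embeddings.card K ℂ, h2]
  have hne : oR e.σ ≠ oR e.τ := by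
    intro h
    apply e.ne
    ext x
    have := RingHom.congr_fun h x
    simpa [oR] using this
  have hu : ({oR e.σ, oR e.τ} : Finset (K →+* ℂ)) = Finset.univ := by
    rw [← Finset.card_eq_iff_eq_univ, Finset.card_pair hne, hc]
  have hm : ψ ∈ ({oR e.σ, oR e.τ} : Finset (K →+* ℂ)) := by rw [hu]; exact Finset.mem_univ _
  rw [Finset.mem_insert, Finset.mem_singleton] at hm
  rcases hm with h | h <;> rw [h]
  · exact oR_real _
  · exact oR_real _

theorem nrC (e : Emb K D) (h2 : finrank ℚ K = 2) : nrComplexPlaces K = 0 := by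
  classical
  rw [Fintype.card_eq_zero_iff]
  refine ⟨fun ⟨w, hw⟩ => ?_⟩
  rw [isComplex_iff] at hw
  exact hw (all_real e h2 _)

theorem nrR (e : Emb K D) (h2 : finrank ℚ K = 2) : nrRealPlaces K = 2 := by
  have h := card_add_two_mul_card_eq_rank K
  rw [nrC e h2, h2] at h
  omega

theorem card_pl (e : Emb K D) (h2 : finrank ℚ K = 2) : Fintype.card (InfinitePlace K) = 2 := by
  rw [card_eq_nrRealPlaces_add_nrComplexPlaces, nrR e h2, nrC e h2]

theorem torsion_pm (φ : K →+* ℝ) (x : (𝓞 K)ˣ) (hx : x ∈ torsion K) : x = 1 ∨ x = -1 := by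
  rw [NumberField.Units.mem_torsion] at hx
  have h1 := hx (InfinitePlace.mk (oR φ))
  rw [InfinitePlace.apply] at h1
  simp only [oR, RingHom.coe_comp, Function.comp_apply, Complex.ofRealHom_eq_coe,
    Complex.norm_real, Real.norm_eq_abs] at h1
  rcases eq_or_eq_neg_of_abs_eq h1 with h | h
  · left
    apply Units.ext
    apply RingOfIntegers.ext
    apply φ.injective
    simpa using h
  · right
    apply Units.ext
    apply RingOfIntegers.ext
    apply φ.injective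
    simpa using h

theorem tors (φ : K →+* ℝ) : torsionOrder K = 2 := by
  classical
  let := Fintype.ofFinite (torsion K)
  rw [torsionOrder, Nat.card_eq_fintype_card]
  refine (Finset.card_eq_two.2 ⟨1, ⟨-1, neg_one_mem_torsion⟩,
    by simp [← Subtype.coe_ne_coe], Finset.ext fun x ↦ ⟨fun _ ↦ ?_, fun _ ↦ Finset.mem_univ _⟩⟩)
  rw [Finset.mem_insert, Finset.mem_singleton, ← Subtype.val_inj, ← Subtype.val_inj]
  exact torsion_pm φ x.1 x.2

open scoped Classical in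
theorem reg_abs (e : Emb K D) (h2 : finrank ℚ K = 2) :
    ∃ u : (𝓞 K)ˣ, regulator K = |Real.log (|e.σ ((u : 𝓞 K) : K)|)| := by
  have hc := card_pl e h2
  set w₀ : InfinitePlace K := InfinitePlace.mk (oR e.σ) with hw₀
  have hw₀a : ∀ x : K, w₀ x = |e.σ x| := by
    intro x
    rw [hw₀, InfinitePlace.apply]
    simp [oR]
  obtain ⟨w', hw'⟩ : ∃ w' : InfinitePlace K, w' ≠ w₀ := by
    by_contra hcon
    push Not at hcon
    have : Fintype.card (InfinitePlace K) ≤ 1 := Fintype.card_le_one_iff.mpr (fun a b => by rw [hcon a, hcon b])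
    omega
  have huniq : ∀ w : InfinitePlace K, w ≠ w' → w = w₀ := by
    intro w hw
    by_contra h
    have : 3 ≤ Fintype.card (InfinitePlace K) := by
      have h3 : ({w, w', w₀} : Finset (InfinitePlace K)).card = 3 := by
        rw [Finset.card_eq_three]
        exact ⟨w, w', w₀, hw, h, hw', rfl⟩
      rw [← h3]
      exact Finset.card_le_univ _
    omega
  have hr : rank K = 1 := by rw [rank, hc]
  have : Unique {w // w ≠ w'} := ⟨⟨⟨w₀, fun h => hw' h.symm⟩⟩, fun ⟨w, hw⟩ => Subtype.ext (huniq w hw)⟩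
  have : Unique (Fin (rank K)) := by rw [hr]; infer_instance
  set e' : {w // w ≠ w'} ≃ Fin (rank K) := Equiv.ofUnique _ _ with he
  rw [regulator_eq_det K w' e', Matrix.det_unique]
  have hdef : ((default : {w // w ≠ w'}) : InfinitePlace K) = w₀ := huniq _ (default : {w // w ≠ w'}).2
  rw [Matrix.of_apply, hdef, hw₀a]
  have hmult : (w₀.mult : ℝ) = 1 := by
    have : w₀.IsReal := ⟨oR e.σ, oR_real _, rfl⟩
    rw [InfinitePlace.mult, if_pos this]; simp
  rw [hmult, one_mul]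
  exact ⟨_, rfl⟩

/-- the regulator is the logarithm of a unit -/
theorem reg_unit (hD : IsFund D) (e : Emb K D) (h2 : finrank ℚ K = 2) :
    ∃ t u : ℕ, 0 < t ∧ 0 < u ∧
      ((t : ℤ) ^ 2 - (D : ℤ) * (u : ℤ) ^ 2 = 4 ∨ (t : ℤ) ^ 2 - (D : ℤ) * (u : ℤ) ^ 2 = -4) ∧
      regulator K = Real.log (((t : ℝ) + (u : ℝ) * √(D : ℝ)) / 2) := by
  obtain ⟨v, hv⟩ := reg_abs e h2
  have hpos : 0 < regulator K := regulator_pos K
  -- a unit larger than one
  obtain ⟨ε, hε1, hε2⟩ : ∃ ε : (𝓞 K)ˣ, 1 < e.σ ((ε : 𝓞 K) : K) ∧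
      regulator K = Real.log (e.σ ((ε : 𝓞 K) : K)) := by
    have hv0 : e.σ ((v : 𝓞 K) : K) ≠ 0 := by
      rw [map_ne_zero]
      exact NumberField.Units.coe_ne_zero v
    -- sign
    obtain ⟨v1, hv1, hv1'⟩ : ∃ v1 : (𝓞 K)ˣ, 0 < e.σ ((v1 : 𝓞 K) : K) ∧
        |e.σ ((v : 𝓞 K) : K)| = e.σ ((v1 : 𝓞 K) : K) := by
      rcases lt_or_gt_of_ne hv0 with h | h
      · refine ⟨-v, ?_, ?_⟩
        · simp [h]
        · rw [abs_of_neg h]
          simp
      · exact ⟨v, h, abs_of_pos h⟩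
    rw [hv1'] at hv
    rcases lt_or_ge 1 (e.σ ((v1 : 𝓞 K) : K)) with h | h
    · refine ⟨v1, h, ?_⟩
      rw [hv, abs_of_pos (Real.log_pos h)]
    · have hlog : Real.log (e.σ ((v1 : 𝓞 K) : K)) ≤ 0 := Real.log_nonpos hv1.le h
      have e1 : e.σ (((v1⁻¹ : (𝓞 K)ˣ) : 𝓞 K) : K) = (e.σ ((v1 : 𝓞 K) : K))⁻¹ := by
        have h5 : ((v1⁻¹ : (𝓞 K)ˣ) : 𝓞 K) * (v1 : 𝓞 K) = 1 := Units.inv_mul v1
        have h6 : (((v1⁻¹ : (𝓞 K)ˣ) : 𝓞 K) : K) * ((v1 : 𝓞 K) : K) = 1 := by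
          have := congrArg (fun z : 𝓞 K => (z : K)) h5
          simpa using this
        have h7 : e.σ (((v1⁻¹ : (𝓞 K)ˣ) : 𝓞 K) : K) * e.σ ((v1 : 𝓞 K) : K) = 1 := by
          rw [← map_mul, h6, map_one]
        exact eq_inv_of_mul_eq_one_left h7
      have h3 : regulator K = Real.log (e.σ (((v1⁻¹ : (𝓞 K)ˣ) : 𝓞 K) : K)) := by
        rw [e1, Real.log_inv, hv, abs_of_nonpos hlog]
      refine ⟨v1⁻¹, ?_, h3⟩
      rw [h3] at hpos
      have h4 : 0 < e.σ (((v1⁻¹ : (𝓞 K)ˣ) : 𝓞 K) : K) := by rw [e1]; exact inv_pos.2 hv1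
      exact (Real.log_pos_iff h4.le).1 hpos
  obtain ⟨t, u, _, hσ, hτ⟩ := e.int1 (ε : 𝓞 K)
  have hDp : (0 : ℝ) < D := by exact_mod_cast (by have := hD.1; omega : 0 < D)
  have hsD : 0 < √(D : ℝ) := Real.sqrt_pos.2 hDp
  -- the norm
  have hn : e.σ ((ε : 𝓞 K) : K) * e.τ ((ε : 𝓞 K) : K) = 1 ∨
      e.σ ((ε : 𝓞 K) : K) * e.τ ((ε : 𝓞 K) : K) = -1 := by
    have h1 := e.nrm ((ε : 𝓞 K) : K)
    have h3 : |Algebra.norm ℚ ((ε : 𝓞 K) : K)| = 1 := by
      exact (NumberField.isUnit_iff_norm.1 ε.isUnit)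
    have h4 : |((Algebra.norm ℚ ((ε : 𝓞 K) : K) : ℚ) : ℝ)| = 1 := by
      rw [← Rat.cast_abs, h3, Rat.cast_one]
    rw [← h1]
    exact (abs_eq zero_le_one).1 h4
  have hsq : √(D : ℝ) ^ 2 = D := Real.sq_sqrt hDp.le
  have hprod : e.σ ((ε : 𝓞 K) : K) * e.τ ((ε : 𝓞 K) : K) = ((t : ℝ) ^ 2 - D * (u : ℝ) ^ 2) / 4 := by
    rw [hσ, hτ]
    linear_combination (-(u : ℝ) ^ 2 / 4) * hsq
  have hτabs : |e.τ ((ε : 𝓞 K) : K)| < 1 := by
    have h5 : |e.σ ((ε : 𝓞 K) : K)| * |e.τ ((ε : 𝓞 K) : K)| = 1 := by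
      rw [← abs_mul]
      rcases hn with h | h <;> rw [h] <;> simp
    rw [abs_of_pos (by linarith)] at h5
    by_contra h
    push Not at h
    nlinarith
  have hlt := abs_lt.1 hτabs
  have ht : (0 : ℝ) < t := by
    have : (t : ℝ) = e.σ ((ε : 𝓞 K) : K) + e.τ ((ε : 𝓞 K) : K) := by rw [hσ, hτ]; ring
    linarith
  have hu : (0 : ℝ) < u := by
    have h6 : (u : ℝ) * √(D : ℝ) = e.σ ((ε : 𝓞 K) : K) - e.τ ((ε : 𝓞 K) : K) := by rw [hσ, hτ]; ring
    have h7 : 0 < (u : ℝ) * √(D : ℝ) := by rw [h6]; linarith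
    exact pos_of_mul_pos_left h7 hsD.le
  have ht' : 0 < t := by exact_mod_cast ht
  have hu' : 0 < u := by exact_mod_cast hu
  have htn : ((t.toNat : ℕ) : ℤ) = t := Int.toNat_of_nonneg ht'.le
  have hun : ((u.toNat : ℕ) : ℤ) = u := Int.toNat_of_nonneg hu'.le
  refine ⟨t.toNat, u.toNat, by omega, by omega, ?_, ?_⟩
  · rw [htn, hun]
    rcases hn with h | h
    · left
      have h8 : ((t : ℝ) ^ 2 - D * (u : ℝ) ^ 2) = 4 := by linarith
      exact_mod_cast h8
    · right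
      have h8 : ((t : ℝ) ^ 2 - D * (u : ℝ) ^ 2) = -4 := by linarith
      exact_mod_cast h8
  · rw [hε2, hσ]
    have h9 : ((t.toNat : ℕ) : ℝ) = (t : ℝ) := by exact_mod_cast congrArg (Int.cast : ℤ → ℝ) htn
    have h10 : ((u.toNat : ℕ) : ℝ) = (u : ℝ) := by exact_mod_cast congrArg (Int.cast : ℤ → ℝ) hun
    rw [h9, h10]

/-- the class number formula -/
theorem cnf (hD : IsFund D) (h2 : finrank ℚ K = 2) (hdisc : discr K = (D : ℤ)) :
    2 * regulator K * (classNumber K : ℝ) = √(D : ℝ) * Lone D := by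
  obtain ⟨e⟩ := T_N0 K D hD h2 hdisc
  have hN3b := T_N3b T_KR T_PV (T_N3a T_KR T_PV)
  have hN2 := T_N2 (T_SPL T_N0)
  have hall : Tendsto (fun N : ℕ => (Nat.card {I : nonZeroDivisors (Ideal (𝓞 K)) //
      Ideal.absNorm (I : Ideal (𝓞 K)) ≤ N} : ℝ) / N) atTop (nhds (Lone D)) := by
    refine (hN3b D hD).congr ?_
    intro N
    rw [N3h.card_all, Nat.cast_sum]
    congr 1
    apply Finset.sum_congr rfl
    intro n hn
    have h := hN2 K D hD h2 hdisc n (Finset.mem_Icc.1 hn).1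
    have h' : ((Nat.card {I : Ideal (𝓞 K) // Ideal.absNorm I = n} : ℤ) : ℝ) =
      ((∑ m ∈ n.divisors, chi D m : ℤ) : ℝ) := by rw [h]
    rw [Int.cast_sum] at h'
    rw [← h', Int.cast_natCast]
  have htop := N3h.lim_H K ⊤
  have htop' : Tendsto (fun N : ℕ => (Nat.card {I : nonZeroDivisors (Ideal (𝓞 K)) //
      Ideal.absNorm (I : Ideal (𝓞 K)) ≤ N} : ℝ) / N) atTop
      (nhds ((Nat.card (⊤ : Subgroup (ClassGroup (𝓞 K))) : ℝ) * N3h.kap K)) := by
    refine htop.congr ?_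
    intro N
    simp only [Subgroup.mem_top, and_true]
  have heq : Lone D = (Nat.card (⊤ : Subgroup (ClassGroup (𝓞 K))) : ℝ) * N3h.kap K :=
    tendsto_nhds_unique hall htop'
  have hcl : (Nat.card (⊤ : Subgroup (ClassGroup (𝓞 K))) : ℝ) = (classNumber K : ℝ) := by
    rw [Subgroup.card_top, Nat.card_eq_fintype_card]
    rfl
  have hDp : (0 : ℝ) < D := by exact_mod_cast (by have := hD.1; omega : 0 < D)
  have hsD : 0 < √(D : ℝ) := Real.sqrt_pos.2 hDp
  have hkap : N3h.kap K = 2 * regulator K / √(D : ℝ) := by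
    unfold N3h.kap
    rw [nrC e h2, nrR e h2, tors e.σ, hdisc]
    have h3 : |((((D : ℕ) : ℤ)) : ℝ)| = (D : ℝ) := by
      rw [Int.cast_natCast]
      exact abs_of_nonneg hDp.le
    rw [h3]
    simp only [pow_zero, mul_one]
    push_cast
    field_simp
    try norm_num
  rw [heq, hcl, hkap]
  field_simp

end

end Run7.h940.CN
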