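import Pool.Agent.Run7.h940.CN.G1

/-! The sum of the class numbers of the fields `ℚ(√p)`. -/

set_option autoImplicit false

namespace Run7.h940.CN

open Finset Filter Pool.Agent.H38R2.CG NumberField
open Pool.Agent.Q276.PL (dsc SmallUnit rgb_true)

theorem Lone_triv : ∃ C : ℝ, 0 < C ∧ ∀ D : ℕ, IsFund D → Lone D ≤ C * (1 + Real.log D) := by
  obtain ⟨C, hC, h⟩ := Lone_le
  refine ⟨2 + C, by linarith, fun D hD => ?_⟩
  have hD1 : 1 ≤ D := hD.1.le
  have h1 := h D hD D hD1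
  have hDr : (1 : ℝ) ≤ D := by exact_mod_cast hD1
  have hD0 : (0 : ℝ) < D := by linarith
  have hlog : 0 ≤ Real.log D := Real.log_nonneg hDr
  have h2 : (∑ n ∈ Icc 1 D, rr D n) / D ≤ 1 + Real.log D := by
    rw [div_le_iff₀ hD0]
    have e1 : ∑ n ∈ Icc 1 D, rr D n = ∑ m ∈ Icc 1 D, ((D / m : ℕ) : ℝ) * (chi D m : ℝ) := by
      unfold rr
      rw [N3bh.swap (fun m => (chi D m : ℝ)) D]
    rw [e1]
    have h3 : ∀ m ∈ Icc 1 D, ((D / m : ℕ) : ℝ) * (chi D m : ℝ) ≤ D * (m : ℝ)⁻¹ := by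
      intro m hm
      have h4 : ((D / m : ℕ) : ℝ) ≤ D * (m : ℝ)⁻¹ := by
        rw [← div_eq_mul_inv]
        exact Nat.cast_div_le
      have h5 : (0 : ℝ) ≤ ((D / m : ℕ) : ℝ) := Nat.cast_nonneg _
      have h7 := (abs_le.1 (abs_chi_le D m)).2
      exact (mul_le_of_le_one_right h5 h7).trans h4
    refine (Finset.sum_le_sum h3).trans ?_
    rw [← Finset.mul_sum]
    have h9 : ∑ m ∈ Icc 1 D, ((m : ℝ))⁻¹ ≤ 1 + Real.log D := by
      have h10 := harmonic_le_one_add_log D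
      rw [harmonic_eq_sum_Icc] at h10
      push_cast at h10
      exact h10
    rw [mul_comm]
    exact mul_le_mul_of_nonneg_right h9 hD0.le
  have h3 : C * √(D : ℝ) * Real.log D / D ≤ C * Real.log D := by
    rw [div_le_iff₀ hD0]
    have h4 : √(D : ℝ) ≤ D := by
      rw [Real.sqrt_le_left hD0.le]
      nlinarith
    calc C * √(D : ℝ) * Real.log D ≤ C * D * Real.log D := by gcongr
      _ = C * Real.log D * D := by ring
  nlinarith

theorem cl_triv : ∃ C : ℝ, 0 < C ∧ ∀ (d : ℕ) (K : Type) [Field K] [NumberField K], 1 < d →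
    Squarefree d → Module.finrank ℚ K = 2 → (∃ x : K, x ^ 2 = (d : K)) →
    (classNumber K : ℝ) ≤ C * √(d : ℝ) * (1 + Real.log d) := by
  obtain ⟨C, hC, h⟩ := Lone_triv
  refine ⟨12 * C, by positivity, ?_⟩
  intro d K _ _ hd hs h2 hx
  have hF := isFund_dsc hd hs
  have hdisc : discr K = ((dsc d : ℕ) : ℤ) := by
    have h := T_N0d K d hd hs h2 hx
    rw [h]
    unfold dsc
    split_ifs <;> simp
  obtain ⟨e⟩ := T_N0 K (dsc d) hF h2 hdisc
  obtain ⟨t, u, ht, hu, hn, hR⟩ := reg_unit hF e h2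
  have hcnf := cnf hF h2 hdisc
  have hL := h (dsc d) hF
  have hd1 : (1 : ℝ) < d := by exact_mod_cast hd
  have hlogd : 0 < Real.log d := Real.log_pos hd1
  have hD4 : 4 ≤ dsc d := by
    unfold dsc
    split_ifs <;> omega
  have hD4' : (4 : ℝ) ≤ dsc d := by exact_mod_cast hD4
  have hle : (dsc d : ℝ) ≤ 4 * d := by exact_mod_cast dsc_le d
  have hsq : √(dsc d : ℝ) ≤ 2 * √(d : ℝ) := by
    calc √(dsc d : ℝ) ≤ √(4 * d : ℝ) := Real.sqrt_le_sqrt hle
      _ = 2 * √(d : ℝ) := by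
        rw [Real.sqrt_mul (by norm_num), show (4 : ℝ) = 2 ^ 2 by norm_num,
          Real.sqrt_sq (by norm_num)]
  have hε : (3 / 2 : ℝ) ≤ ((t : ℝ) + (u : ℝ) * √(dsc d : ℝ)) / 2 := by
    have h3 : (2 : ℝ) ≤ √(dsc d : ℝ) := by
      rw [Real.le_sqrt (by norm_num) (by linarith)]
      linarith
    have h4 : (1 : ℝ) ≤ t := by exact_mod_cast ht
    have h5 : (1 : ℝ) ≤ u := by exact_mod_cast hu
    nlinarith
  have hR3 : (1 / 3 : ℝ) ≤ Units.regulator K := by
    rw [hR]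
    have h6 : (1 / 3 : ℝ) ≤ Real.log (3 / 2) := by
      have := Real.one_sub_inv_le_log_of_pos (show (0 : ℝ) < 3 / 2 by norm_num)
      linarith
    exact h6.trans (Real.log_le_log (by norm_num) hε)
  have hRpos : 0 < Units.regulator K := by linarith
  have h1 : (classNumber K : ℝ) = √(dsc d : ℝ) * Lone (dsc d) / (2 * Units.regulator K) := by
    rw [← hcnf]
    field_simp
  have hL0 : 0 ≤ Lone (dsc d) := Lone_nonneg hF
  have hlog4 : Real.log (dsc d) ≤ 2 + Real.log d := by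
    calc Real.log (dsc d) ≤ Real.log (4 * d) := Real.log_le_log (by linarith) hle
      _ = Real.log 4 + Real.log d := Real.log_mul (by norm_num) (by linarith)
      _ ≤ 2 + Real.log d := by
        have : Real.log 4 = 2 * Real.log 2 := by
          rw [show (4 : ℝ) = 2 ^ 2 by norm_num, Real.log_pow]
          norm_num
        have h7 := Real.log_two_lt_d9
        linarith
  have hL2 : Lone (dsc d) ≤ C * (3 * (1 + Real.log d)) := by
    refine hL.trans ?_
    apply mul_le_mul_of_nonneg_left _ hC.le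
    linarith
  rw [h1, div_le_iff₀ (by positivity)]
  calc √(dsc d : ℝ) * Lone (dsc d) ≤ (2 * √(d : ℝ)) * (C * (3 * (1 + Real.log d))) := by gcongr
    _ = 12 * C * √(d : ℝ) * (1 + Real.log d) * (2 * (1 / 4)) := by ring
    _ ≤ 12 * C * √(d : ℝ) * (1 + Real.log d) * (2 * Units.regulator K) := by
      gcongr
      linarith

/-- outside the small units the class number is small in terms of `L(1)` -/
theorem cl_big {δ : ℝ} {d X : ℕ} (hd : 1 < d) (hdX : d ≤ X)
    (hs : Squarefree d) (K : Type) [Field K] [NumberField K] (h2 : Module.finrank ℚ K = 2)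
    (hx : ∃ x : K, x ^ 2 = (d : K))
    (hU : ¬ SmallUnit (dsc d) (Real.exp (Real.log X ^ (3 / 2 - δ)))) :
    (classNumber K : ℝ) ≤ √(X : ℝ) / Real.log X ^ (3 / 2 - δ) * Lone (dsc d) := by
  have hF := isFund_dsc hd hs
  have hdisc : discr K = ((dsc d : ℕ) : ℤ) := by
    have h := T_N0d K d hd hs h2 hx
    rw [h]
    unfold dsc
    split_ifs <;> simp
  obtain ⟨e⟩ := T_N0 K (dsc d) hF h2 hdisc
  obtain ⟨t, u, ht, hu, hn, hR⟩ := reg_unit hF e h2
  have hcnf := cnf hF h2 hdisc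
  have hd1 : (1 : ℝ) < d := by exact_mod_cast hd
  have hdX' : (d : ℝ) ≤ X := by exact_mod_cast hdX
  have hLX : 0 < Real.log X := Real.log_pos (by linarith)
  have hε : Real.exp (Real.log X ^ (3 / 2 - δ)) < ((t : ℝ) + (u : ℝ) * √(dsc d : ℝ)) / 2 := by
    by_contra hcon
    push Not at hcon
    exact hU ⟨t, u, ht, hu, hn, hcon⟩
  have hRgt : Real.log X ^ (3 / 2 - δ) < Units.regulator K := by
    rw [hR, Real.lt_log_iff_exp_lt]
    · exact hε
    · exact (Real.exp_pos _).trans hε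
  have hRpos : 0 < Units.regulator K := Units.regulator_pos K
  have hP : 0 < Real.log X ^ (3 / 2 - δ) := Real.rpow_pos_of_pos hLX _
  have hsq : √(dsc d : ℝ) ≤ 2 * √(X : ℝ) := by
    have h4 : (dsc d : ℝ) ≤ 4 * d := by exact_mod_cast dsc_le d
    calc √(dsc d : ℝ) ≤ √(4 * X : ℝ) := Real.sqrt_le_sqrt (by linarith)
      _ = 2 * √(X : ℝ) := by
        rw [Real.sqrt_mul (by norm_num), show (4 : ℝ) = 2 ^ 2 by norm_num,
          Real.sqrt_sq (by norm_num)]
  have h1 : (classNumber K : ℝ) = √(dsc d : ℝ) * Lone (dsc d) / (2 * Units.regulator K) := by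
    rw [← hcnf]
    field_simp
  have hL0 : 0 ≤ Lone (dsc d) := Lone_nonneg hF
  rw [h1]
  calc √(dsc d : ℝ) * Lone (dsc d) / (2 * Units.regulator K)
      ≤ (2 * √(X : ℝ)) * Lone (dsc d) / (2 * Real.log X ^ (3 / 2 - δ)) := by
        gcongr
    _ = √(X : ℝ) / Real.log X ^ (3 / 2 - δ) * Lone (dsc d) := by
        field_simp

theorem ev1 {a : ℝ} (ha : 0 < a) : ∃ C : ℝ, 0 < C ∧ ∀ X : ℕ, 3 ≤ X →
    Real.log X ^ (4 : ℝ) * Real.exp (-(Real.log X ^ a)) ≤ C := by
  -- y ^ (4/a) exp (-y) is bounded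
  have h1 : Tendsto (fun y : ℝ => y ^ (4 / a) * Real.exp (-y)) atTop (nhds 0) := by
    have := tendsto_rpow_mul_exp_neg_mul_atTop_nhds_zero (4 / a) 1 one_pos
    simpa using this
  have h2 : Tendsto (fun X : ℕ => Real.log X ^ a) atTop atTop :=
    (tendsto_rpow_atTop ha).comp (Real.tendsto_log_atTop.comp tendsto_natCast_atTop_atTop)
  have h3 := h1.comp h2
  obtain ⟨C, hC⟩ := h3.bddAbove_range
  refine ⟨max C 1, lt_max_of_lt_right one_pos, fun X hX => ?_⟩
  have hX1 : (1 : ℝ) < X := by exact_mod_cast (by omega : 1 < X)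
  have hlog : 0 < Real.log X := Real.log_pos hX1
  have h4 := hC (Set.mem_range_self X)
  simp only [Function.comp] at h4
  rw [← Real.rpow_mul hlog.le, mul_div_cancel₀ _ ha.ne'] at h4
  exact h4.trans (le_max_left _ _)

open scoped Classical in
theorem sum_small {δ : ℝ} (hδ : 0 < δ) (hδ2 : δ < 1 / 2) : ∃ C : ℝ, 0 < C ∧
    ∀ (K : ℕ → Type) [∀ p, Field (K p)] [∀ p, NumberField (K p)],
    (∀ p : ℕ, p.Prime → Module.finrank ℚ (K p) = 2 ∧ ∃ x : K p, x ^ 2 = (p : K p)) →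
    ∀ X : ℕ, 2 ^ 24 ≤ X →
    ∑ p ∈ (Icc 2 X).filter Nat.Prime, (classNumber (K p) : ℝ) ≤
      C * ((X : ℝ) ^ (3 / 2 : ℝ) / Real.log X ^ (5 / 2 - δ)) := by
  obtain ⟨C1, hC1, h1⟩ := LAP
  obtain ⟨M0, h2⟩ := rgb_true δ hδ hδ2
  obtain ⟨M, hM⟩ : ∃ M, M = max M0 0 := ⟨_, rfl⟩
  have hM0 : 0 ≤ M := by rw [hM]; exact le_max_right _ _
  obtain ⟨C3, hC3, h3⟩ := cl_triv
  obtain ⟨C4, hC4, h4⟩ := ev1 (a := δ / 8) (by linarith)
  obtain ⟨C5, hC5, h5⟩ : ∃ C : ℝ, 0 < C ∧ ∀ X : ℕ, 3 ≤ X →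
      Real.log X ^ (4 : ℝ) * (X : ℝ) ^ (-(7 / 8) : ℝ) ≤ C := by
    have h6 : Tendsto (fun x : ℝ => Real.log x ^ (4 : ℝ) / x ^ (7 / 8 : ℝ)) atTop (nhds 0) :=
      (isLittleO_log_rpow_rpow_atTop (4 : ℝ) (by norm_num : (0 : ℝ) < 7 / 8)).tendsto_div_nhds_zero
    obtain ⟨C, hC⟩ := (h6.comp tendsto_natCast_atTop_atTop).bddAbove_range
    refine ⟨max C 1, lt_max_of_lt_right one_pos, fun X hX => ?_⟩
    have h7 := hC (Set.mem_range_self X)
    simp only [Function.comp] at h7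
    rw [Real.rpow_neg (Nat.cast_nonneg _), ← div_eq_mul_inv]
    exact h7.trans (le_max_left _ _)
  refine ⟨C1 + M * C3 * 2 * C4 + C3 * 2 * C5, by positivity, ?_⟩
  intro K _ _ hK X hX
  obtain ⟨R, hR2, hR8, h6⟩ := h1 X hX
  have hX2 : 3 ≤ X := le_trans (by norm_num) hX
  have h7 := h2 X (by omega)
  have hX3 : (3 : ℝ) ≤ X := by exact_mod_cast hX2
  have hX0 : (0 : ℝ) < X := by linarith
  have hlog1 : 1 ≤ Real.log X := by
    rw [Real.le_log_iff_exp_le (by linarith)]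
    have := Real.exp_one_lt_d9
    linarith
  have hlogX : 0 < Real.log X := by linarith
  obtain ⟨B, hB⟩ : ∃ B, B = √(X : ℝ) / Real.log X ^ (3 / 2 - δ) := ⟨_, rfl⟩
  have hPP : 0 < Real.log X ^ (3 / 2 - δ) := Real.rpow_pos_of_pos hlogX _
  have hB0 : 0 ≤ B := by rw [hB]; positivity
  obtain ⟨T, hT⟩ : ∃ T, T = C3 * √(X : ℝ) * (2 * Real.log X) := ⟨_, rfl⟩
  have hT0 : 0 ≤ T := by rw [hT]; positivity
  -- termwise bound
  have hterm : ∀ p ∈ (Icc 2 X).filter Nat.Prime, (classNumber (K p) : ℝ) ≤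
      (if p ∈ Ioc R X then B * Lone (dsc p) else 0) + (if p ∈ Icc 1 R then T else 0) +
      (if SmallUnit (dsc p) (Real.exp (Real.log X ^ (3 / 2 - δ))) then T else 0) := by
    intro p hp
    rw [mem_filter, mem_Icc] at hp
    obtain ⟨⟨hp2, hpX⟩, hpp⟩ := hp
    obtain ⟨hK1, hK2⟩ := hK p hpp
    have hL0 : 0 ≤ Lone (dsc p) := Lone_nonneg (isFund_dsc hpp.one_lt hpp.squarefree)
    have htriv : (classNumber (K p) : ℝ) ≤ T := by
      have h8 := h3 p (K p) hpp.one_lt hpp.squarefree hK1 hK2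
      have hpX' : (p : ℝ) ≤ X := by exact_mod_cast hpX
      have hp0 : (0 : ℝ) < p := by exact_mod_cast hpp.pos
      have h9 : Real.log p ≤ Real.log X := Real.log_le_log hp0 hpX'
      have h10 : √(p : ℝ) ≤ √(X : ℝ) := Real.sqrt_le_sqrt hpX'
      have h11 : 0 ≤ Real.log p := Real.log_natCast_nonneg p
      rw [hT]
      refine h8.trans ?_
      have : 1 + Real.log p ≤ 2 * Real.log X := by linarith
      gcongr
    by_cases hU : SmallUnit (dsc p) (Real.exp (Real.log X ^ (3 / 2 - δ)))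
    · rw [if_pos hU]
      have h8 : 0 ≤ (if p ∈ Ioc R X then B * Lone (dsc p) else 0) := by
        split_ifs
        · positivity
        · exact le_refl _
      have h9 : 0 ≤ (if p ∈ Icc 1 R then T else 0) := by
        split_ifs
        · exact hT0
        · exact le_refl _
      linarith
    · rw [if_neg hU, add_zero]
      by_cases hpR : p ≤ R
      · rw [if_neg (by rw [mem_Ioc]; omega), if_pos (by rw [mem_Icc]; omega), zero_add]
        exact htriv
      · rw [if_pos (by rw [mem_Ioc]; omega), if_neg (by rw [mem_Icc]; omega), add_zero, hB]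
        exact cl_big hpp.one_lt hpX hpp.squarefree (K p) hK1 hK2 hU
  refine (Finset.sum_le_sum hterm).trans ?_
  rw [Finset.sum_add_distrib, Finset.sum_add_distrib]
  -- first sum
  have hs1 : ∑ p ∈ (Icc 2 X).filter Nat.Prime, (if p ∈ Ioc R X then B * Lone (dsc p) else 0) ≤
      B * (C1 * X / Real.log X) := by
    rw [← Finset.sum_filter]
    calc ∑ p ∈ ((Icc 2 X).filter Nat.Prime).filter (fun p => p ∈ Ioc R X), B * Lone (dsc p)
        = B * ∑ p ∈ ((Icc 2 X).filter Nat.Prime).filter (fun p => p ∈ Ioc R X), Lone (dsc p) := by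
          rw [Finset.mul_sum]
      _ ≤ B * ∑ p ∈ (Ioc R X).filter (fun p => p.Prime), Lone (dsc p) := by
          apply mul_le_mul_of_nonneg_left _ hB0
          apply Finset.sum_le_sum_of_subset_of_nonneg
          · intro p hp
            rw [mem_filter, mem_filter] at hp
            rw [mem_filter]
            exact ⟨hp.2, hp.1.2⟩
          · intro p hp _
            rw [mem_filter] at hp
            exact Lone_nonneg (isFund_dsc hp.2.one_lt hp.2.squarefree)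
      _ ≤ B * (C1 * X / Real.log X) := mul_le_mul_of_nonneg_left h6 hB0
  have hs2 : ∑ p ∈ (Icc 2 X).filter Nat.Prime, (if p ∈ Icc 1 R then T else 0) ≤ R * T := by
    rw [← Finset.sum_filter, Finset.sum_const, nsmul_eq_mul]
    apply mul_le_mul_of_nonneg_right _ hT0
    have : (((Icc 2 X).filter Nat.Prime).filter (fun p => p ∈ Icc 1 R)).card ≤ (Icc 1 R).card := by
      apply Finset.card_le_card
      intro p hp
      exact (mem_filter.1 hp).2
    rw [Nat.card_Icc, Nat.add_sub_cancel] at this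
    exact_mod_cast this
  have hs3 : ∑ p ∈ (Icc 2 X).filter Nat.Prime,
      (if SmallUnit (dsc p) (Real.exp (Real.log X ^ (3 / 2 - δ))) then T else 0) ≤
      (M * X * Real.exp (-(Real.log X ^ (δ / 8)))) * T := by
    rw [← Finset.sum_filter, Finset.sum_const, nsmul_eq_mul]
    apply mul_le_mul_of_nonneg_right _ hT0
    have h8 : (((Icc 2 X).filter Nat.Prime).filter
        (fun p => SmallUnit (dsc p) (Real.exp (Real.log X ^ (3 / 2 - δ))))).card ≤
        ((Icc 2 X).filter (fun d => Squarefree d ∧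
          SmallUnit (dsc d) (Real.exp (Real.log X ^ (3 / 2 - δ))))).card := by
      apply Finset.card_le_card
      intro p hp
      rw [mem_filter, mem_filter] at hp
      rw [mem_filter]
      exact ⟨hp.1.1, hp.1.2.squarefree, hp.2⟩
    have h9 : ((((Icc 2 X).filter Nat.Prime).filter
        (fun p => SmallUnit (dsc p) (Real.exp (Real.log X ^ (3 / 2 - δ))))).card : ℝ) ≤
        (((Icc 2 X).filter (fun d => Squarefree d ∧
          SmallUnit (dsc d) (Real.exp (Real.log X ^ (3 / 2 - δ))))).card : ℝ) := by exact_mod_cast h8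
    refine h9.trans (h7.trans ?_)
    have : M0 ≤ M := by rw [hM]; exact le_max_left _ _
    gcongr
  -- the shape of the bound
  have hX32 : (X : ℝ) ^ (3 / 2 : ℝ) = X * √(X : ℝ) := by
    rw [Real.sqrt_eq_rpow, ← Real.rpow_one_add' hX0.le (by norm_num)]
    norm_num
  have hlog52 : Real.log X ^ (5 / 2 - δ) = Real.log X ^ (3 / 2 - δ) * Real.log X := by
    rw [← Real.rpow_add_one hlogX.ne']
    congr 1
    ring
  have hQ : 0 < Real.log X ^ (5 / 2 - δ) := Real.rpow_pos_of_pos hlogX _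
  have e1 : B * (C1 * X / Real.log X) = C1 * ((X : ℝ) ^ (3 / 2 : ℝ) / Real.log X ^ (5 / 2 - δ)) := by
    rw [hB, hX32, hlog52]
    field_simp
  have hlog4 : Real.log X ^ (5 / 2 - δ) * Real.log X ≤ Real.log X ^ (4 : ℝ) := by
    rw [← Real.rpow_add_one hlogX.ne']
    exact Real.rpow_le_rpow_of_exponent_le hlog1 (by linarith)
  have e3 : (M * X * Real.exp (-(Real.log X ^ (δ / 8)))) * T ≤
      M * C3 * 2 * C4 * ((X : ℝ) ^ (3 / 2 : ℝ) / Real.log X ^ (5 / 2 - δ)) := by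
    rw [← mul_div_assoc, le_div_iff₀ hQ, hT, hX32]
    calc (M * X * Real.exp (-(Real.log X ^ (δ / 8)))) * (C3 * √(X : ℝ) * (2 * Real.log X)) *
          Real.log X ^ (5 / 2 - δ)
        = M * C3 * 2 * (X * √(X : ℝ)) * ((Real.log X ^ (5 / 2 - δ) * Real.log X) *
          Real.exp (-(Real.log X ^ (δ / 8)))) := by ring
      _ ≤ M * C3 * 2 * (X * √(X : ℝ)) * (Real.log X ^ (4 : ℝ) *
          Real.exp (-(Real.log X ^ (δ / 8)))) := by gcongr
      _ ≤ M * C3 * 2 * (X * √(X : ℝ)) * C4 := by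
          apply mul_le_mul_of_nonneg_left (h4 X hX2) (by positivity)
      _ = M * C3 * 2 * C4 * (X * √(X : ℝ)) := by ring
  have hRX : (R : ℝ) ≤ (X : ℝ) ^ (1 / 8 : ℝ) := by
    have h12 : (R : ℝ) ^ (8 : ℕ) ≤ X := by exact_mod_cast hR8
    calc (R : ℝ) = ((R : ℝ) ^ (8 : ℕ)) ^ (1 / 8 : ℝ) := by
          rw [← Real.rpow_natCast, ← Real.rpow_mul (Nat.cast_nonneg _)]
          norm_num
      _ ≤ (X : ℝ) ^ (1 / 8 : ℝ) := Real.rpow_le_rpow (by positivity) h12 (by norm_num)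
  have e4 : (X : ℝ) ^ (1 / 8 : ℝ) = X * (X : ℝ) ^ (-(7 / 8) : ℝ) := by
    conv_rhs => rw [← Real.rpow_one_add' hX0.le (by norm_num)]
    norm_num
  have e2 : R * T ≤ C3 * 2 * C5 * ((X : ℝ) ^ (3 / 2 : ℝ) / Real.log X ^ (5 / 2 - δ)) := by
    rw [← mul_div_assoc, le_div_iff₀ hQ, hT, hX32]
    calc R * (C3 * √(X : ℝ) * (2 * Real.log X)) * Real.log X ^ (5 / 2 - δ)
        ≤ (X * (X : ℝ) ^ (-(7 / 8) : ℝ)) * (C3 * √(X : ℝ) * (2 * Real.log X)) *
          Real.log X ^ (5 / 2 - δ) := by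
          rw [← e4]
          gcongr
      _ = C3 * 2 * (X * √(X : ℝ)) * ((Real.log X ^ (5 / 2 - δ) * Real.log X) *
          (X : ℝ) ^ (-(7 / 8) : ℝ)) := by ring
      _ ≤ C3 * 2 * (X * √(X : ℝ)) * (Real.log X ^ (4 : ℝ) * (X : ℝ) ^ (-(7 / 8) : ℝ)) := by
          gcongr
      _ ≤ C3 * 2 * (X * √(X : ℝ)) * C5 := by
          apply mul_le_mul_of_nonneg_left (h5 X hX2) (by positivity)
      _ = C3 * 2 * C5 * (X * √(X : ℝ)) := by ring
  rw [e1] at hs1
  have e5 : (C1 + M * C3 * 2 * C4 + C3 * 2 * C5) *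
      ((X : ℝ) ^ (3 / 2 : ℝ) / Real.log X ^ (5 / 2 - δ)) =
      C1 * ((X : ℝ) ^ (3 / 2 : ℝ) / Real.log X ^ (5 / 2 - δ)) +
      M * C3 * 2 * C4 * ((X : ℝ) ^ (3 / 2 : ℝ) / Real.log X ^ (5 / 2 - δ)) +
      C3 * 2 * C5 * ((X : ℝ) ^ (3 / 2 : ℝ) / Real.log X ^ (5 / 2 - δ)) := by ring
  rw [e5]
  linarith

open scoped Classical in
/-- all `X` -/
theorem sum_all {δ : ℝ} (hδ : 0 < δ) : ∃ C : ℝ,
    ∀ (K : ℕ → Type) [∀ p, Field (K p)] [∀ p, NumberField (K p)],
    (∀ p : ℕ, p.Prime → Module.finrank ℚ (K p) = 2 ∧ ∃ x : K p, x ^ 2 = (p : K p)) →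
    ∀ X : ℕ, 3 ≤ X →
    ∑ p ∈ (Icc 2 X).filter Nat.Prime, (classNumber (K p) : ℝ) ≤
      C * ((X : ℝ) ^ (3 / 2 : ℝ) / Real.log X ^ (5 / 2 - δ)) := by
  obtain ⟨δ', hδ', hδ'2, hle⟩ : ∃ δ' : ℝ, 0 < δ' ∧ δ' < 1 / 2 ∧ δ' ≤ δ :=
    ⟨min δ (1 / 4), lt_min hδ (by norm_num), lt_of_le_of_lt (min_le_right _ _) (by norm_num),
      min_le_left _ _⟩
  obtain ⟨C, hC, h⟩ := sum_small hδ' hδ'2
  obtain ⟨C3, hC3, h3⟩ := cl_triv
  refine ⟨max C (C3 * 18 * 17 ^ 3), ?_⟩
  intro K _ _ hK X hX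
  have hX3 : (3 : ℝ) ≤ X := by exact_mod_cast hX
  have hX0 : (0 : ℝ) < X := by linarith
  have hlog1 : 1 ≤ Real.log X := by
    rw [Real.le_log_iff_exp_le (by linarith)]
    have := Real.exp_one_lt_d9
    linarith
  have hlogX : 0 < Real.log X := by linarith
  have hQ : 0 < Real.log X ^ (5 / 2 - δ) := Real.rpow_pos_of_pos hlogX _
  rcases Nat.lt_or_ge X (2 ^ 24) with hlt | hge
  · have hX32 : (X : ℝ) ^ (3 / 2 : ℝ) = X * √(X : ℝ) := by
      rw [Real.sqrt_eq_rpow, ← Real.rpow_one_add' hX0.le (by norm_num)]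
      norm_num
    have hlog17 : Real.log X ≤ 17 := by
      have hX24 : (X : ℝ) ≤ 2 ^ 24 := by exact_mod_cast hlt.le
      calc Real.log X ≤ Real.log (2 ^ 24) := Real.log_le_log hX0 hX24
        _ = 24 * Real.log 2 := by rw [Real.log_pow]; norm_num
        _ ≤ 17 := by
          have := Real.log_two_lt_d9
          linarith
    have hpow : Real.log X ^ (5 / 2 - δ) ≤ 17 ^ 3 := by
      calc Real.log X ^ (5 / 2 - δ) ≤ Real.log X ^ (3 : ℝ) :=
            Real.rpow_le_rpow_of_exponent_le hlog1 (by linarith)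
        _ = Real.log X ^ (3 : ℕ) := by rw [← Real.rpow_natCast]; norm_num
        _ ≤ 17 ^ 3 := by gcongr
    have hb : ∀ p ∈ (Icc 2 X).filter Nat.Prime, (classNumber (K p) : ℝ) ≤ C3 * √(X : ℝ) * 18 := by
      intro p hp
      rw [mem_filter, mem_Icc] at hp
      obtain ⟨⟨hp2, hpX⟩, hpp⟩ := hp
      obtain ⟨hK1, hK2⟩ := hK p hpp
      have h8 := h3 p (K p) hpp.one_lt hpp.squarefree hK1 hK2
      have hpX' : (p : ℝ) ≤ X := by exact_mod_cast hpX
      have hp0 : (0 : ℝ) < p := by exact_mod_cast hpp.pos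
      have h9 : Real.log p ≤ Real.log X := Real.log_le_log hp0 hpX'
      have h10 : √(p : ℝ) ≤ √(X : ℝ) := Real.sqrt_le_sqrt hpX'
      have h11 : 0 ≤ Real.log p := Real.log_natCast_nonneg p
      refine h8.trans ?_
      have : 1 + Real.log p ≤ 18 := by linarith
      gcongr
    have hcard : (((Icc 2 X).filter Nat.Prime).card : ℝ) ≤ X := by
      have : ((Icc 2 X).filter Nat.Prime).card ≤ (Icc 2 X).card := Finset.card_filter_le _ _
      rw [Nat.card_Icc] at this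
      have h2 : ((Icc 2 X).filter Nat.Prime).card ≤ X := by omega
      exact_mod_cast h2
    calc ∑ p ∈ (Icc 2 X).filter Nat.Prime, (classNumber (K p) : ℝ)
        ≤ ∑ p ∈ (Icc 2 X).filter Nat.Prime, C3 * √(X : ℝ) * 18 := Finset.sum_le_sum hb
      _ = (((Icc 2 X).filter Nat.Prime).card : ℝ) * (C3 * √(X : ℝ) * 18) := by
          rw [Finset.sum_const, nsmul_eq_mul]
      _ ≤ X * (C3 * √(X : ℝ) * 18) := by gcongr
      _ = C3 * 18 * (X * √(X : ℝ)) := by ring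
      _ ≤ C3 * 18 * 17 ^ 3 * ((X : ℝ) ^ (3 / 2 : ℝ) / Real.log X ^ (5 / 2 - δ)) := by
          rw [hX32, ← mul_div_assoc, le_div_iff₀ hQ]
          calc C3 * 18 * (X * √(X : ℝ)) * Real.log X ^ (5 / 2 - δ) ≤
              C3 * 18 * (X * √(X : ℝ)) * 17 ^ 3 := by gcongr
            _ = C3 * 18 * 17 ^ 3 * (X * √(X : ℝ)) := by ring
      _ ≤ max C (C3 * 18 * 17 ^ 3) * ((X : ℝ) ^ (3 / 2 : ℝ) / Real.log X ^ (5 / 2 - δ)) := by
          gcongr
          exact le_max_right _ _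
  · refine (h K hK X hge).trans ?_
    have hpow : Real.log X ^ (5 / 2 - δ) ≤ Real.log X ^ (5 / 2 - δ') :=
      Real.rpow_le_rpow_of_exponent_le hlog1 (by linarith)
    have : (X : ℝ) ^ (3 / 2 : ℝ) / Real.log X ^ (5 / 2 - δ') ≤
        (X : ℝ) ^ (3 / 2 : ℝ) / Real.log X ^ (5 / 2 - δ) := by gcongr
    calc C * ((X : ℝ) ^ (3 / 2 : ℝ) / Real.log X ^ (5 / 2 - δ')) ≤
        C * ((X : ℝ) ^ (3 / 2 : ℝ) / Real.log X ^ (5 / 2 - δ)) := by gcongr
      _ ≤ _ := by
        gcongr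
        exact le_max_left _ _

end Run7.h940.CN
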